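import Pool.Agent.N496.CV.Stm2
import Pool.Agent.N504.RS.Her

/-!
# Project CV: the induction
-/

set_option autoImplicit false
set_option linter.unusedSectionVars false

noncomputable section

namespace Pool.Agent.N496.CV

open Pool.Agent.W907.SG Pool.Agent.W461.SGN Pool.Agent.Helper655.VN Pool.Agent.RK
open Pool.Agent.N504.RS Pool.Agent.R782.Bal Pool.Agent.W907.SM
open Pool.Agent.TH652.Above (lv_set lv_sub lv_univ)

/-- the structure `Mid` for the full subgraph on `L` -/
structure MidL {V : Type} (G : SimpleGraph V) (κ : V → ℕ) (A L : Set V) : Prop where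
  col : ∀ u ∈ L, u ∈ A → ∀ v ∈ L, v ∈ A → G.Adj u v → κ u ≠ κ v
  mid : ∀ v ∈ L, v ∉ A → ∃ s ∈ L, s ∈ A ∧ ∃ t ∈ L, t ∈ A ∧ s ≠ t ∧ ¬ G.Adj s t ∧ G.Adj v s ∧ G.Adj v t ∧ κ s = κ v ∧
    κ t = κ v ∧ ∀ u ∈ L, G.Adj v u → u ≠ s → u ≠ t → G.Adj u s ∧ G.Adj u t ∧ κ u ≠ κ v

theorem MidL.toMid {V : Type} {G : SimpleGraph V} {κ : V → ℕ} {A L : Set V} (h : MidL G κ A L) :
    Mid (G.induce L) (fun x => κ x.1) {x | x.1 ∈ A} := by
  refine ⟨fun u hu v hv huv => h.col u.1 u.2 hu v.1 v.2 hv huv, fun v hv => ?_⟩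
  obtain ⟨s, hsL, hsA, t, htL, htA, hst, hn, h1, h2, h3, h4, h5⟩ := h.mid v.1 v.2 hv
  refine ⟨⟨s, hsL⟩, hsA, ⟨t, htL⟩, htA, fun e => hst (congrArg Subtype.val e), hn, h1, h2, h3, h4, ?_⟩
  intro u hu hus hut
  exact h5 u.1 u.2 hu (fun e => hus (Subtype.ext e)) fun e => hut (Subtype.ext e)

section

variable {V : Type} [Fintype V] [LinearOrder V] {G : SimpleGraph V}

theorem inM_zero {R : Type} [Ring R] (K : Subgroup (W G)) (u : K →* R) (Y : Set (W G)) (E : Subgroup (W G × ℤˣ)) :
    InM K u Y E (0 : W G → R) where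
  supp w h := absurd rfl h
  eqE p _ w := by simp
  eqK h w := by simp
  fin := ⟨∅, fun w h => absurd rfl h⟩

theorem isCh_zero {R : Type} [Ring R] (K : Subgroup (W G)) (u : K →* R) (Y : Set (W G)) (E : Subgroup (W G × ℤˣ))
    (C : Set V) (i : ℕ) : IsCh G C (InM K u Y E) i (0 : Finset V → W G → R) where
  supp T _ := rfl
  mem T := inM_zero K u Y E
  anti T t _ w := by simp

theorem bdf_zero {R : Type} [AddCommGroup R] : bdf G (0 : Finset V → W G → R) = 0 := by
  funext T w
  simp [bdf]

theorem Good.mono {K : Subgroup (W G)} {L L' : Set V} {Y : Set (W G)} {E : Subgroup (W G × ℤˣ)}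
    (h : Good K L Y E) (hL : L' ⊆ L) : Good K L' Y E where
  comm := by
    obtain ⟨Q, h1, h2⟩ := h.comm
    exact ⟨Q, h1, fun q hq v hv => h2 q hq v (hL hv)⟩
  YK := h.YK
  YE := h.YE
  YL v hv := h.YL v (hL hv)
  free := h.free

/-- the induction -/
theorem ind (hV : GDV) (hD : GDD) (hS : SUS) (hC : CON) (hL : LNK) (hT : TOP)
    (K : Subgroup (W G)) (U : Type) [Ring U] (ι : NG K →+* U) (u : K →* U) (hloc : Loc ι)
    (hu : ∀ h, u h = ι (canL h)) (hR : Rg K u) (κ : V → ℕ) (A : Set V) (m : ℕ) :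
    ∀ (L : Set V) (F : Finset ℕ), F.card = m → (∀ v ∈ L, κ v ∈ F) → MidL G κ A L → Obs (G.induce L) (2 * m) →
    ∀ (Y : Set (W G)) (E : Subgroup (W G × ℤˣ)), Good K L Y E → ∀ C : Set V, C ⊆ L → ∀ i, m ≤ i →
    Hv G C (InM K u Y E) i := by
  classical
  induction m with
  | zero => intro L F _ _ _ hO; exact absurd rfl (obs_pos hO)
  | succ m ih =>
    intro L F hF hκ hM hO Y E hG C hCL i hi
    -- the links of the midpoints
    have key : ∀ v ∈ L, v ∉ A → ∀ C : Set V, C ⊆ L → v ∉ C → ∀ j, m ≤ j →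
        Hv G (C ∩ G.neighborSet v) (InM K u Y (addv E v (-1))) j := by
      intro v hvL hv C hCL hvC j hj
      obtain ⟨s, hsL, hsA, t, htL, htA, hst, hnst, hvs, hvt, hκs, hκt, hLv⟩ := hM.mid v hvL hv
      obtain ⟨L', hLd⟩ : ∃ L' : Set V, L' = {x | x ∈ L ∧ G.Adj v x ∧ x ≠ s ∧ x ≠ t} := ⟨_, rfl⟩
      have hmem : ∀ x, x ∈ L' ↔ x ∈ L ∧ G.Adj v x ∧ x ≠ s ∧ x ≠ t := fun x => by rw [hLd]; rfl
      have hLadj : ∀ x ∈ L', G.Adj x s ∧ G.Adj x t ∧ κ x ≠ κ v := by
        intro x hx
        obtain ⟨h0, h1, h2, h3⟩ := (hmem x).1 hx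
        exact hLv x h0 h1 h2 h3
      have hL'L : L' ⊆ L := fun x hx => ((hmem x).1 hx).1
      have hM' : MidL G κ A L' := by
        refine ⟨fun x hx hxA y hy hyA hxy => hM.col x (hL'L hx) hxA y (hL'L hy) hyA hxy, fun x hx hxA => ?_⟩
        obtain ⟨s', hs'L, hs'A, t', ht'L, ht'A, hst', hnst', hxs, hxt, hκs', hκt', hL''⟩ := hM.mid x (hL'L hx) hxA
        have hxL := (hmem x).1 hx
        have h1 := hL'' v hvL hxL.2.1.symm (fun e => hv (e ▸ hs'A)) (fun e => hv (e ▸ ht'A))
        have h2 := (hLadj x hx).2.2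
        have m1 : s' ∈ L' := (hmem s').2 ⟨hs'L, h1.1, fun e => h2 (by rw [← hκs', e, hκs]),
          fun e => h2 (by rw [← hκs', e, hκt])⟩
        have m2 : t' ∈ L' := (hmem t').2 ⟨ht'L, h1.2.1, fun e => h2 (by rw [← hκt', e, hκs]),
          fun e => h2 (by rw [← hκt', e, hκt])⟩
        exact ⟨s', m1, hs'A, t', m2, ht'A, hst', hnst', hxs, hxt, hκs', hκt',
          fun y hy hxy hys hyt => hL'' y (hL'L hy) hxy hys hyt⟩
      have hO1 : Obs (G.induce (insert s L')) (2 * m + 1) := by
        have hO' : Obs (G.induce L) (2 * m + 1 + 1) := hO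
        refine obs_link hO' ⟨fun x => ⟨x.1, ?_⟩, fun a b h => Subtype.ext (by
          have := congrArg Subtype.val h
          exact this)⟩ ⟨v, hvL⟩ (fun a b h => h) ?_
        · rcases x.2 with h | h
          · rw [h]; exact hsL
          · exact hL'L h
        · rintro ⟨a, ha⟩
          rcases ha with rfl | ha
          · exact hvs
          · exact ((hmem a).1 ha).2.1
      have hO2 : Obs (G.induce L') (2 * m) := by
        refine obs_link hO1 ⟨fun x => ⟨x.1, Or.inr x.2⟩, fun a b h => Subtype.ext (by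
          have := congrArg Subtype.val h
          exact this)⟩ ⟨s, Or.inl rfl⟩ (fun a b h => h) ?_
        intro a
        exact (hLadj a.1 a.2).1.symm
      have hF' : (F.erase (κ v)).card = m := by
        rw [Finset.card_erase_of_mem (hκ v hvL), hF]; rfl
      have hκ' : ∀ x ∈ L', κ x ∈ F.erase (κ v) := fun x hx =>
        Finset.mem_erase.2 ⟨(hLadj x hx).2.2, hκ x (hL'L hx)⟩
      -- the group with `v`
      obtain ⟨L1, hL1⟩ : ∃ L1 : Set V, L1 = {x | x ∈ L ∧ G.Adj v x} := ⟨_, rfl⟩
      have hmem1 : ∀ x, x ∈ L1 ↔ x ∈ L ∧ G.Adj v x := fun x => by rw [hL1]; rfl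
      have hG1 : Good K L1 Y (addv E v (-1)) :=
        hV V G K L L1 Y E v (-1) hR.tf hG hvL (fun x hx => ((hmem1 x).1 hx).1) fun x hx => ((hmem1 x).1 hx).2
      have hs1 : s ∈ L1 := (hmem1 s).2 ⟨hsL, hvs⟩
      have ht1 : t ∈ L1 := (hmem1 t).2 ⟨htL, hvt⟩
      have hL'1 : L' ⊆ L1 := fun x hx => (hmem1 x).2 ⟨hL'L hx, ((hmem x).1 hx).2.1⟩
      have hN : ∀ x, x ∈ C ∩ G.neighborSet v ↔ x ∈ C ∩ L' ∨ (x = s ∧ s ∈ C) ∨ (x = t ∧ t ∈ C) := by
        intro x
        constructor
        · rintro ⟨h5, h6⟩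
          by_cases e1 : x = s
          · subst e1; exact Or.inr (Or.inl ⟨rfl, h5⟩)
          by_cases e2 : x = t
          · subst e2; exact Or.inr (Or.inr ⟨rfl, h5⟩)
          exact Or.inl ⟨h5, (hmem x).2 ⟨hCL h5, h6, e1, e2⟩⟩
        · rintro (⟨h5, h6⟩ | ⟨rfl, h5⟩ | ⟨rfl, h5⟩)
          · exact ⟨h5, ((hmem x).1 h6).2.1⟩
          · exact ⟨h5, hvs⟩
          · exact ⟨h5, hvt⟩
      by_cases hsC : s ∈ C
      · by_cases htC : t ∈ C
        · have h1 := hS V G K U u L1 (C ∩ L') Y (addv E v (-1)) s t j hR hG1 hs1 ht1 hst hnst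
            (fun x hx => hL'1 hx.2) (fun x hx => ⟨(hLadj x hx.2).1.symm, (hLadj x hx.2).2.1.symm⟩)
            (ih L' (F.erase (κ v)) hF' hκ' hM' hO2 _ _
              (hD V G K L1 L' Y (addv E v (-1)) s t hG1 hs1 ht1 hL'1
                (fun x hx => ⟨(hLadj x hx).1.symm, (hLadj x hx).2.1.symm⟩)) (C ∩ L')
              (fun x hx => hx.2) j hj)
          have h2 : insert s (insert t (C ∩ L')) = C ∩ G.neighborSet v := by
            ext x
            rw [hN]
            constructor
            · rintro (h | h | h)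
              · exact Or.inr (Or.inl ⟨h, hsC⟩)
              · exact Or.inr (Or.inr ⟨h, htC⟩)
              · exact Or.inl h
            · rintro (h | ⟨h, -⟩ | ⟨h, -⟩)
              · exact Or.inr (Or.inr h)
              · exact Or.inl h
              · exact Or.inr (Or.inl h)
          rw [h2] at h1
          exact h1
        · have h1 := hC V G K U u L1 (C ∩ L') Y (addv E v (-1)) s j hR hG1 hs1
            (fun x hx => hL'1 hx.2) (fun x hx => (hLadj x hx.2).1.symm)
            (ih L' (F.erase (κ v)) hF' hκ' hM' hO2 _ _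
              (hV V G K L1 L' Y (addv E v (-1)) s 1 hR.tf hG1 hs1 hL'1
                (fun x hx => (hLadj x hx).1.symm)) (C ∩ L') (fun x hx => hx.2) j hj)
          have h2 : insert s (C ∩ L') = C ∩ G.neighborSet v := by
            ext x
            rw [hN]
            constructor
            · rintro (h | h)
              · exact Or.inr (Or.inl ⟨h, hsC⟩)
              · exact Or.inl h
            · rintro (h | ⟨h, -⟩ | ⟨-, h⟩)
              · exact Or.inr h
              · exact Or.inl h
              · exact absurd h htC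
          rw [h2] at h1
          exact h1
      · by_cases htC : t ∈ C
        · have h1 := hC V G K U u L1 (C ∩ L') Y (addv E v (-1)) t j hR hG1 ht1
            (fun x hx => hL'1 hx.2) (fun x hx => (hLadj x hx.2).2.1.symm)
            (ih L' (F.erase (κ v)) hF' hκ' hM' hO2 _ _
              (hV V G K L1 L' Y (addv E v (-1)) t 1 hR.tf hG1 ht1 hL'1
                (fun x hx => (hLadj x hx).2.1.symm)) (C ∩ L') (fun x hx => hx.2) j hj)
          have h2 : insert t (C ∩ L') = C ∩ G.neighborSet v := by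
            ext x
            rw [hN]
            constructor
            · rintro (h | h)
              · exact Or.inr (Or.inr ⟨h, htC⟩)
              · exact Or.inl h
            · rintro (h | ⟨-, h⟩ | ⟨h, -⟩)
              · exact Or.inr h
              · exact absurd h hsC
              · exact Or.inl h
          rw [h2] at h1
          exact h1
        · have h1 := ih L' (F.erase (κ v)) hF' hκ' hM' hO2 _ _ (hG1.mono hL'1) (C ∩ L') (fun x hx => hx.2) j hj
          have h2 : C ∩ L' = C ∩ G.neighborSet v := by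
            ext x
            rw [hN]
            constructor
            · exact Or.inl
            · rintro (h | ⟨-, h⟩ | ⟨-, h⟩)
              · exact h
              · exact absurd h hsC
              · exact absurd h htC
          rw [h2] at h1
          exact h1
    -- the inner induction
    obtain ⟨k, hk⟩ : ∃ k, (C \ A).ncard = k := ⟨_, rfl⟩
    induction k generalizing C with
    | zero =>
      have hCA : C ⊆ A := by
        intro x hx
        by_contra hxA
        have h9 : (C \ A).Nonempty := ⟨x, hx, hxA⟩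
        have h8 := (Set.ncard_pos (Set.toFinite _)).2 h9
        omega
      have hcard : ∀ T : Finset V, G.IsClique (T : Set V) → (T : Set V) ⊆ C → T.card ≤ m + 1 := by
        intro T hT hTC
        rw [← hF]
        refine Finset.card_le_card_of_injOn κ (fun x hx => hκ x (hCL (hTC hx))) ?_
        intro x hx y hy hxy
        by_contra hne
        exact hM.col x (hCL (hTC hx)) (hCA (hTC hx)) y (hCL (hTC hy)) (hCA (hTC hy)) (hT hx hy hne) hxy
      intro c hc hb
      have hc0 : c = 0 := by
        rcases Nat.lt_or_ge (m + 1) i with h | h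
        · funext T
          refine hc.supp T ?_
          rintro ⟨h1, h2, h3⟩
          have := hcard T h1 h2
          omega
        · have him : i = m + 1 := le_antisymm h hi
          subst him
          refine hT V G K U ι u L C Y E (m + 1) hloc hu hG hCL ?_ hcard c hc hb
          intro _ _
          have h1 := her (m + 1) (G.induce L) (fun x => κ x.1) {x | x.1 ∈ A} F hF (fun x => hκ x.1 x.2) hM.toMid hO
            {x | x.1 ∈ C} (m + 1) le_rfl
          rw [lv_sub] at h1
          have h2 : LV (G.induce C) (m + 1) := by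
            refine lv_set ?_ h1
            ext x
            constructor
            · intro hx
              exact ⟨⟨x, hCL hx⟩, hx, rfl⟩
            · rintro ⟨⟨y, hy⟩, h5, rfl⟩
              exact h5
          exact h2 _ _
      subst hc0
      exact ⟨0, isCh_zero K u Y E C (i + 1), bdf_zero⟩
    | succ k ihk =>
      obtain ⟨v, hvC, hvA⟩ : (C \ A).Nonempty := by
        rw [← Set.ncard_pos (Set.toFinite _)]
        omega
      have hC0 : (C \ {v}) ⊆ L := fun x hx => hCL hx.1
      have h1 := ihk (C \ {v}) hC0 (by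
        have h2 : (C \ {v}) \ A = (C \ A) \ {v} := by
          ext x
          simp only [Set.mem_sdiff, Set.mem_singleton_iff]
          tauto
        have h9 : v ∈ C \ A := ⟨hvC, hvA⟩
        rw [h2, Set.ncard_sdiff_singleton_of_mem h9, hk]
        rfl)
      obtain ⟨j, rfl⟩ : ∃ j, i = j + 1 := ⟨i - 1, by omega⟩
      have h3 := hL V G K U u L (C \ {v}) Y E v j hR hG (hCL hvC) hC0 (fun h => h.2 rfl) h1
        (key v (hCL hvC) hvA (C \ {v}) hC0 (fun h => h.2 rfl) j (by omega))
      rw [Set.insert_diff_singleton, Set.insert_eq_of_mem hvC] at h3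
      exact h3

end

end Pool.Agent.N496.CV
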