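import Pool.Agent.N496.CV.Stm1

/-!
# Project CV: the complex `davis G` as a complex of functions on `W G`
-/


set_option autoImplicit false

set_option linter.unusedSectionVars false

noncomputable section

namespace Pool.Agent.N496.CV.CB

open Pool.Agent.W907.SG Pool.Agent.W461.SGN Pool.Agent.N496.LT Pool.Agent.N496.CV

section

variable {V : Type} [Fintype V] [LinearOrder V] {G : SimpleGraph V}

theorem simple_sq (t : V) : (cox G).simple t * (cox G).simple t = 1 :=
  (cox G).toCoxeterSystem.simple_mul_simple_self t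

theorem simple_inv (t : V) : ((cox G).simple t)⁻¹ = (cox G).simple t :=
  inv_eq_of_mul_eq_one_right (simple_sq t)

/-- the product over a clique, independent of the order -/
theorem rep_insert {T S : Finset V} (hT : G.IsClique (T : Set V)) (hS : S ⊆ T) {t : V} (ht : t ∈ T) (htS : t ∉ S) :
    rep G (insert t S) = (cox G).simple t * rep G S := by
  unfold rep
  rw [← List.prod_cons, ← List.map_cons]
  apply List.Perm.prod_eq'
  · apply List.Perm.map
    rw [List.perm_ext_iff_of_nodup (Finset.sort_nodup _ _)]
    · intro a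
      rw [Finset.mem_sort, List.mem_cons, Finset.mem_sort, Finset.mem_insert]
    · rw [List.nodup_cons]
      exact ⟨by rw [Finset.mem_sort]; exact htS, Finset.sort_nodup _ _⟩
  · rw [List.pairwise_map]
    refine List.Pairwise.imp_of_mem (R := fun _ _ => True) ?_ (List.pairwise_of_forall (fun _ _ => trivial))
    intro a b ha hb _
    rw [Finset.mem_sort, Finset.mem_insert] at ha hb
    have ha' : a ∈ T := by rcases ha with rfl | ha; exacts [ht, hS ha]
    have hb' : b ∈ T := by rcases hb with rfl | hb; exacts [ht, hS hb]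
    by_cases hab : a = b
    · subst hab; exact Commute.refl _
    · exact simple_comm G a b (hT ha' hb' hab)

theorem rep_comm {T S : Finset V} (hT : G.IsClique (T : Set V)) (hS : S ⊆ T) {t : V} (ht : t ∈ T) :
    (cox G).simple t * rep G S = rep G S * (cox G).simple t := by
  unfold rep
  have : ∀ l : List V, (∀ a ∈ l, a ∈ T) → (cox G).simple t * (l.map (cox G).simple).prod =
      (l.map (cox G).simple).prod * (cox G).simple t := by
    intro l
    induction l with
    | nil => intro _; simp
    | cons a l ih =>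
      intro h
      rw [List.map_cons, List.prod_cons, mul_assoc, ← ih fun b hb => h b (List.mem_cons_of_mem _ hb), ← mul_assoc,
        ← mul_assoc]
      congr 1
      by_cases hab : t = a
      · rw [hab]
      · exact simple_comm G t a (hT ht (h a List.mem_cons_self) hab)
  exact this _ fun a ha => hS ((Finset.mem_sort _).1 ha)

theorem par_mul_simple (w : W G) (t v : V) :
    v ∈ par G (w * (cox G).simple t) ↔ (if v = t then v ∉ par G w else v ∈ par G w) := by
  rw [mem_par, mem_par]
  by_cases h : v = t
  · subst h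
    rw [if_pos rfl, th_self]
    rcases Int.units_eq_one_or (th G w v) with h | h <;> rw [h] <;> decide
  · rw [if_neg h, th_other G _ _ _ h]

theorem mem_ker_iff (w : W G) (A S : Finset V) (hd : Disjoint A S) (h : par G w = A ∪ S) :
    w * (rep G A * rep G S)⁻¹ ∈ (th G).ker := by
  rw [MonoidHom.mem_ker, map_mul, map_inv, mul_inv_eq_one, map_mul]
  funext v
  rw [Pi.mul_apply, th_rep, th_rep]
  have h1 : v ∈ par G w ↔ th G w v = -1 := mem_par G w v
  rw [h, Finset.mem_union] at h1
  rcases Int.units_eq_one_or (th G w v) with h2 | h2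
  · have h3 : ¬ (v ∈ A ∨ v ∈ S) := by
      rw [h1, h2]; decide
    rw [not_or] at h3
    rw [if_neg h3.1, if_neg h3.2, h2, one_mul]
  · have h3 : v ∈ A ∨ v ∈ S := h1.2 h2
    rw [h2]
    rcases h3 with h3 | h3
    · rw [if_pos h3, if_neg (Finset.disjoint_left.1 hd h3), mul_one]
    · rw [if_neg (Finset.disjoint_right.1 hd h3), if_pos h3, one_mul]

/-- the element of the kernel -/
def gg (T : Finset V) (w : W G) : (th G).ker :=
  ⟨w * (rep G (par G w \ T) * rep G (par G w ∩ T))⁻¹,
    mem_ker_iff w _ _ (Finset.disjoint_sdiff_inter _ _) (Finset.sdiff_union_inter _ _).symm⟩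

theorem gg_val (T : Finset V) (w : W G) :
    ((gg T w : (th G).ker) : W G) = w * (rep G (par G w \ T) * rep G (par G w ∩ T))⁻¹ := rfl

/-- the index -/
def ix (T : Finset V) (hT : G.IsClique (T : Set V)) (w : W G) : (davis G).ι :=
  ⟨(T, par G w \ T), hT, Finset.disjoint_sdiff⟩

open Classical in
/-- the comparison map -/
def Psi {R : Type} [Ring R] (v : (davis G).ι → (th G).ker → R) (T : Finset V) (w : W G) : R :=
  if hT : G.IsClique (T : Set V) then (-1) ^ (par G w ∩ T).card * v (ix T hT w) (gg T w) else 0


theorem par_left (h w : W G) (hh : h ∈ (th G).ker) : par G (h * w) = par G w := by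
  ext v
  rw [mem_par, mem_par, map_mul, MonoidHom.mem_ker.1 hh, one_mul]

theorem par_sdiff_mul {T : Finset V} {t : V} (ht : t ∈ T) (w : W G) :
    par G (w * (cox G).simple t) \ T = par G w \ T := by
  ext v
  rw [Finset.mem_sdiff, Finset.mem_sdiff, par_mul_simple]
  by_cases h : v = t
  · subst h; simp [ht]
  · simp [h]

theorem par_inter_mul {T : Finset V} {t : V} (ht : t ∈ T) (w : W G) (htw : t ∉ par G w) :
    par G (w * (cox G).simple t) ∩ T = insert t (par G w ∩ T) := by
  ext v
  rw [Finset.mem_inter, Finset.mem_insert, Finset.mem_inter, par_mul_simple]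
  by_cases h : v = t
  · subst h; simp [ht, htw]
  · simp [h]

theorem mul_mul_simple (w : W G) (t : V) : w * (cox G).simple t * (cox G).simple t = w := by
  rw [mul_assoc, simple_sq, mul_one]

theorem gg_mul' {T : Finset V} (hT : G.IsClique (T : Set V)) {t : V} (ht : t ∈ T) (w : W G) (htw : t ∉ par G w) :
    gg T (w * (cox G).simple t) = gg T w := by
  apply Subtype.ext
  rw [gg_val, gg_val, par_sdiff_mul ht, par_inter_mul ht w htw,
    rep_insert hT Finset.inter_subset_right ht (fun h => htw (Finset.mem_inter.1 h).1),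
    rep_comm hT Finset.inter_subset_right ht]
  simp only [mul_inv_rev, simple_inv, mul_assoc]
  rw [← mul_assoc ((cox G).simple t) ((cox G).simple t), simple_sq, one_mul]

theorem gg_mul {T : Finset V} (hT : G.IsClique (T : Set V)) {t : V} (ht : t ∈ T) (w : W G) :
    gg T (w * (cox G).simple t) = gg T w := by
  by_cases htw : t ∈ par G w
  · have h1 : t ∉ par G (w * (cox G).simple t) := by
      rw [par_mul_simple, if_pos rfl]
      exact fun h => h htw
    have h2 := gg_mul' hT ht (w * (cox G).simple t) h1
    rw [mul_mul_simple] at h2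
    exact h2.symm
  · exact gg_mul' hT ht w htw

theorem ix_mul {T : Finset V} (hT : G.IsClique (T : Set V)) {t : V} (ht : t ∈ T) (w : W G) :
    ix T hT (w * (cox G).simple t) = ix T hT w := by
  apply Subtype.ext
  show (T, par G (w * (cox G).simple t) \ T) = (T, par G w \ T)
  rw [par_sdiff_mul ht]

theorem sign_mul' {R : Type} [Ring R] {T : Finset V} {t : V} (ht : t ∈ T) (w : W G) (htw : t ∉ par G w) :
    ((-1 : R)) ^ (par G (w * (cox G).simple t) ∩ T).card = - (-1) ^ (par G w ∩ T).card := by
  rw [par_inter_mul ht w htw, Finset.card_insert_of_notMem (fun h => htw (Finset.mem_inter.1 h).1), pow_succ]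
  simp

theorem sign_mul {R : Type} [Ring R] {T : Finset V} {t : V} (ht : t ∈ T) (w : W G) :
    ((-1 : R)) ^ (par G (w * (cox G).simple t) ∩ T).card = - (-1) ^ (par G w ∩ T).card := by
  by_cases htw : t ∈ par G w
  · have h1 : t ∉ par G (w * (cox G).simple t) := by
      rw [par_mul_simple, if_pos rfl]
      exact fun h => h htw
    have h2 := sign_mul' (R := R) ht (w * (cox G).simple t) h1
    rw [mul_mul_simple] at h2
    rw [h2, neg_neg]
  · exact sign_mul' ht w htw

theorem psi_anti {R : Type} [Ring R] (v : (davis G).ι → (th G).ker → R) (T : Finset V) {t : V} (ht : t ∈ T)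
    (w : W G) : Psi v T (w * (cox G).simple t) = - Psi v T w := by
  unfold Psi
  by_cases hT : G.IsClique (T : Set V)
  · rw [dif_pos hT, dif_pos hT, sign_mul ht, ix_mul hT ht, gg_mul hT ht, neg_mul]
  · rw [dif_neg hT, dif_neg hT, neg_zero]

theorem gg_left (T : Finset V) (h : W G) (hh : h ∈ (th G).ker) (w : W G) :
    gg T (h * w) = ⟨h, hh⟩ * gg T w := by
  apply Subtype.ext
  rw [Subgroup.coe_mul, gg_val, gg_val, par_left h w hh, mul_assoc]

theorem ix_left {T : Finset V} (hT : G.IsClique (T : Set V)) (h : W G) (hh : h ∈ (th G).ker) (w : W G) :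
    ix T hT (h * w) = ix T hT w := by
  apply Subtype.ext
  show (T, par G (h * w) \ T) = (T, par G w \ T)
  rw [par_left h w hh]

theorem par_rep (g : (th G).ker) (A : Finset V) : par G ((g : W G) * rep G A) = A := by
  rw [par_left _ _ g.2]
  ext v
  rw [mem_par, th_rep]
  by_cases h : v ∈ A
  · simp [h]
  · rw [if_neg h]
    simp only [h, iff_false]
    decide

theorem rep_empty : rep G (∅ : Finset V) = 1 := by simp [rep]

theorem psi_rep {R : Type} [Ring R] (v : (davis G).ι → (th G).ker → R) (i : (davis G).ι) (g : (th G).ker) :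
    Psi v i.1.1 ((g : W G) * rep G i.1.2) = v i g := by
  obtain ⟨⟨T, A⟩, hT, hd⟩ := i
  have h1 : par G ((g : W G) * rep G A) \ T = A := by
    rw [par_rep]
    exact Finset.sdiff_eq_self_of_disjoint (Disjoint.symm hd)
  have h2 : par G ((g : W G) * rep G A) ∩ T = ∅ := by
    rw [par_rep]
    exact Finset.disjoint_iff_inter_eq_empty.1 (Disjoint.symm hd)
  show Psi v T ((g : W G) * rep G A) = _
  unfold Psi
  rw [dif_pos hT, h2, Finset.card_empty, pow_zero, one_mul]
  have h3 : ix T hT ((g : W G) * rep G A) = ⟨(T, A), hT, hd⟩ := Subtype.ext (by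
    show (T, par G ((g : W G) * rep G A) \ T) = (T, A)
    rw [h1])
  have h4 : gg T ((g : W G) * rep G A) = g := by
    apply Subtype.ext
    rw [gg_val, h1, h2, rep_empty, mul_one, mul_assoc, mul_inv_cancel, mul_one]
  rw [h3, h4]

theorem anti_list {R : Type} [Ring R] {T : Finset V} {f : W G → R} (hf : ∀ t ∈ T, ∀ w, f (w * (cox G).simple t) = - f w)
    (l : List V) (hl : ∀ a ∈ l, a ∈ T) (x : W G) : f (x * (l.map (cox G).simple).prod) = (-1) ^ l.length * f x := by
  induction l generalizing x with
  | nil => simp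
  | cons a l ih =>
    rw [List.map_cons, List.prod_cons, ← mul_assoc, ih (fun b hb => hl b (List.mem_cons_of_mem _ hb)),
      hf a (hl a List.mem_cons_self), List.length_cons, pow_succ]
    simp

theorem anti_rep {R : Type} [Ring R] {T S : Finset V} {f : W G → R}
    (hf : ∀ t ∈ T, ∀ w, f (w * (cox G).simple t) = - f w) (hS : S ⊆ T) (x : W G) :
    f (x * rep G S) = (-1) ^ S.card * f x := by
  unfold rep
  rw [anti_list hf _ (fun a ha => hS ((Finset.mem_sort _).1 ha)), Finset.length_sort]

theorem decomp (T : Finset V) (w : W G) :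
    w = (gg T w : W G) * rep G (par G w \ T) * rep G (par G w ∩ T) := by
  rw [gg_val]
  group

open Classical in
/-- extension by zero -/
def vv {R : Type} [Ring R] (v : (davis G).ι → (th G).ker → R) (S B : Finset V) (g : (th G).ker) : R :=
  if h : G.IsClique (S : Set V) ∧ Disjoint S B then v ⟨(S, B), h⟩ g else 0

theorem psi_vv {R : Type} [Ring R] (v : (davis G).ι → (th G).ker → R) (T : Finset V) (w : W G) :
    Psi v T w = (-1) ^ (par G w ∩ T).card * vv v T (par G w \ T) (gg T w) := by
  unfold Psi vv
  by_cases hT : G.IsClique (T : Set V)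
  · rw [dif_pos hT, dif_pos ⟨hT, Finset.disjoint_sdiff⟩]
    rfl
  · rw [dif_neg hT, dif_neg (fun h => hT h.1), mul_zero]

/-- the functional -/
def Lf {R : Type} [Ring R] (v : (davis G).ι → (th G).ker → R) (i : (davis G).ι) (g : (th G).ker) :
    MonoidAlgebra ℤ (th G).ker →+ R where
  toFun a := a.coeff.sum fun γ n => n • v i (g * γ⁻¹)
  map_zero' := by simp
  map_add' a b := by
    rw [MonoidAlgebra.coeff_add]
    exact Finsupp.sum_add_index' (fun _ => zero_smul _ _) (fun _ _ _ => add_smul _ _ _)

theorem Lf_single {R : Type} [Ring R] (v : (davis G).ι → (th G).ker → R) (i : (davis G).ι) (g γ : (th G).ker) :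
    Lf v i g (MonoidAlgebra.single γ 1) = v i (g * γ⁻¹) := by
  show (MonoidAlgebra.single γ (1 : ℤ)).coeff.sum (fun γ n => n • v i (g * γ⁻¹)) = _
  rw [MonoidAlgebra.coeff_single, Finsupp.sum_single_index (by simp), one_smul]

theorem Lf_one {R : Type} [Ring R] (v : (davis G).ι → (th G).ker → R) (i : (davis G).ι) (g : (th G).ker) :
    Lf v i g 1 = v i g := by
  rw [MonoidAlgebra.one_def, Lf_single, inv_one, mul_one]


theorem mulD_term {R : Type} [Ring R] (v : (davis G).ι → (th G).ker → R) (i j : (davis G).ι) (g : (th G).ker) :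
    (((davis G).D i j).coeff.sum fun γ a => a • v i (g * γ⁻¹)) =
      ∑ t ∈ i.1.1, if j.1.1 = i.1.1.erase t then sg t (i.1.1.erase t) •
        ((if j.1.2 = i.1.2 then v i g else 0) - (if j.1.2 = insert t i.1.2 then
          v i (g * (gm G (rep G i.1.2 * (cox G).simple t))⁻¹) else 0)) else 0 := by
  classical
  have h0 : (((davis G).D i j).coeff.sum fun γ a => a • v i (g * γ⁻¹)) = Lf v i g ((davis G).D i j) := rfl
  rw [h0]
  have h1 : (davis G).D i j = ∑ t ∈ i.1.1, if j.1.1 = i.1.1.erase t then
    ((sg t (i.1.1.erase t) : ℤ) : MonoidAlgebra ℤ (th G).ker) *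
      ((if j.1.2 = i.1.2 then 1 else 0) - (if j.1.2 = insert t i.1.2 then
        MonoidAlgebra.single (gm G (rep G i.1.2 * (cox G).simple t)) 1 else 0)) else 0 := by
    unfold davis
    simp only [Matrix.of_apply]
    all_goals (refine Finset.sum_congr rfl fun t _ => ?_; split_ifs <;> rfl)
  rw [h1, map_sum]
  refine Finset.sum_congr rfl fun t _ => ?_
  split_ifs with h2 h3 h4 h4
  · rw [← zsmul_eq_mul, map_zsmul, map_sub, Lf_one, Lf_single]
  · rw [← zsmul_eq_mul, map_zsmul, map_sub, Lf_one, map_zero]
  · rw [← zsmul_eq_mul, map_zsmul, map_sub, Lf_single, map_zero]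
  · rw [← zsmul_eq_mul, map_zsmul, map_sub, map_zero]
  · rw [map_zero]

/-- the summand -/
def FF {R : Type} [Ring R] (v : (davis G).ι → (th G).ker → R) (T A : Finset V) (g : (th G).ker)
    (p : Finset V × Finset V) : R :=
  ∑ t ∈ p.1, if T = p.1.erase t then sg t (p.1.erase t) •
        ((if A = p.2 then vv v p.1 p.2 g else 0) - (if A = insert t p.2 then
          vv v p.1 p.2 (g * (gm G (rep G p.2 * (cox G).simple t))⁻¹) else 0)) else 0

theorem mulD_FF {R : Type} [Ring R] (v : (davis G).ι → (th G).ker → R) (j : (davis G).ι) (g : (th G).ker) :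
    mulD v j g = ∑ i : (davis G).ι, FF v j.1.1 j.1.2 g i.1 := by
  unfold mulD
  refine Finset.sum_congr rfl fun i _ => ?_
  rw [mulD_term]
  unfold FF
  have e3 : ∀ g', vv v i.1.1 i.1.2 g' = v i g' := fun g' => by
    unfold vv
    rw [dif_pos i.2]
    rfl
  refine Finset.sum_congr rfl fun t _ => ?_
  rw [e3, e3]

theorem sum_ix {R : Type} [Ring R] (F : Finset V × Finset V → R)
    (hF : ∀ p : Finset V × Finset V, ¬ (G.IsClique (p.1 : Set V) ∧ Disjoint p.1 p.2) → F p = 0) :
    ∑ i : (davis G).ι, F i.1 = ∑ p : Finset V × Finset V, F p := by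
  classical
  let hfin : Fintype {p : Finset V × Finset V // G.IsClique (p.1 : Set V) ∧ Disjoint p.1 p.2} := (davis G).fin
  have e4 := Finset.sum_subtype (p := fun p : Finset V × Finset V => G.IsClique (p.1 : Set V) ∧ Disjoint p.1 p.2)
    (F := hfin) (Finset.univ.filter fun p : Finset V × Finset V =>
    G.IsClique (p.1 : Set V) ∧ Disjoint p.1 p.2) (fun p => by simp) F
  refine Eq.trans e4.symm ?_
  refine Finset.sum_subset (Finset.subset_univ _) fun p _ hp => hF p ?_
  simpa using hp

theorem mulD_eq {R : Type} [Ring R] (v : (davis G).ι → (th G).ker → R) (j : (davis G).ι) (g : (th G).ker) :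
    mulD v j g = ∑ t ∈ j.1.1ᶜ, sg t j.1.1 • (vv v (insert t j.1.1) j.1.2 g -
      if t ∈ j.1.2 then vv v (insert t j.1.1) (j.1.2.erase t)
        (g * (gm G (rep G (j.1.2.erase t) * (cox G).simple t))⁻¹) else 0) := by
  classical
  rw [mulD_FF]
  obtain ⟨T, hT⟩ : ∃ T, T = j.1.1 := ⟨_, rfl⟩
  obtain ⟨A, hA⟩ : ∃ A, A = j.1.2 := ⟨_, rfl⟩
  rw [← hT, ← hA, sum_ix (FF v T A g)]
  swap
  · intro p hp
    unfold FF
    have e3 : ∀ g', vv v p.1 p.2 g' = 0 := fun g' => by
      unfold vv
      rw [dif_neg hp]
    refine Finset.sum_eq_zero fun t _ => ?_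
    simp only [e3, ite_self, sub_zero, smul_zero]
  rw [Fintype.sum_prod_type]
  unfold FF
  -- reorganise
  have e1 : ∀ S : Finset V, ∑ B : Finset V, (∑ t ∈ S, if T = S.erase t then sg t (S.erase t) •
        ((if A = B then vv v S B g else 0) - (if A = insert t B then
          vv v S B (g * (gm G (rep G B * (cox G).simple t))⁻¹) else 0)) else 0) =
      ∑ t ∈ S, if T = S.erase t then sg t (S.erase t) • (vv v S A g -
        if t ∈ A then vv v S (A.erase t) (g * (gm G (rep G (A.erase t) * (cox G).simple t))⁻¹) else 0) else 0 := by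
    intro S
    rw [Finset.sum_comm]
    refine Finset.sum_congr rfl fun t ht => ?_
    by_cases h1 : T = S.erase t
    · simp only [if_pos h1]
      rw [← Finset.smul_sum, Finset.sum_sub_distrib]
      congr 2
      · rw [Finset.sum_ite_eq Finset.univ A (fun B => vv v S B g), if_pos (Finset.mem_univ _)]
      · rw [Finset.sum_eq_single (A.erase t)]
        · by_cases htA : t ∈ A
          · rw [Finset.insert_erase htA, if_pos rfl, if_pos htA]
          · rw [if_neg htA, if_neg]
            intro h
            apply htA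
            rw [h]
            exact Finset.mem_insert_self _ _
        · intro B _ hB
          split_ifs with h2
          · unfold vv
            rw [dif_neg]
            rintro ⟨-, h4⟩
            apply hB
            rw [h2, Finset.erase_insert]
            exact Finset.disjoint_left.1 h4 ht
          · rfl
        · intro h
          exact absurd (Finset.mem_univ _) h
    · simp only [if_neg h1]
      exact Finset.sum_const_zero
  rw [Finset.sum_congr rfl fun S _ => e1 S, Finset.sum_sigma']
  symm
  refine Finset.sum_bij_ne_zero (fun t _ _ => ⟨insert t T, t⟩) ?_ ?_ ?_ ?_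
  · intro t _ _
    simp
  · intro t1 _ _ t2 _ _ h
    simp only [Sigma.mk.injEq, heq_eq_eq] at h
    exact h.2
  · rintro ⟨S, t⟩ hS hne
    simp only [Finset.mem_sigma, Finset.mem_univ, true_and] at hS
    by_cases h1 : T = S.erase t
    · have h2 : insert t T = S := by rw [h1, Finset.insert_erase hS]
      have h3 : t ∉ T := by rw [h1]; simp
      simp only [if_pos h1] at hne
      refine ⟨t, by simpa using h3, ?_, by rw [h2]⟩
      rw [h2]
      rw [← h1] at hne
      exact hne
    · simp only [if_neg h1] at hne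
      exact absurd rfl hne
  · intro t ht _
    have h3 : t ∉ T := by simpa using ht
    simp only [Finset.erase_insert h3, if_true]


theorem psi_mulD {R : Type} [Ring R] (v : (davis G).ι → (th G).ker → R) :
    Psi (mulD v) = bdf G (Psi v) := by
  classical
  funext T w
  unfold bdf
  by_cases hT : G.IsClique (T : Set V)
  swap
  · have h0 : Psi (mulD v) T w = 0 := by
      unfold Psi
      rw [dif_neg hT]
    rw [h0]
    refine (Finset.sum_eq_zero fun t _ => ?_).symm
    have h1 : Psi v (insert t T) w = 0 := by
      unfold Psi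
      rw [dif_neg]
      intro h
      exact hT (h.subset (by simp))
    rw [h1, smul_zero]
  · have h0 : Psi (mulD v) T w = (-1) ^ (par G w ∩ T).card * mulD v (ix T hT w) (gg T w) := by
      unfold Psi
      rw [dif_pos hT]
    rw [h0, mulD_eq, Finset.mul_sum]
    refine Finset.sum_congr rfl fun t ht => ?_
    have htT : t ∉ T := by simpa [ix] using ht
    rw [mul_smul_comm]
    congr 1
    rw [psi_vv]
    show (-1) ^ (par G w ∩ T).card * (vv v (insert t T) (par G w \ T) (gg T w) -
      if t ∈ par G w \ T then vv v (insert t T) ((par G w \ T).erase t)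
        (gg T w * (gm G (rep G ((par G w \ T).erase t) * (cox G).simple t))⁻¹) else 0) = _
    have key : par G w \ insert t T = (par G w \ T).erase t := by
      ext x
      simp only [Finset.mem_sdiff, Finset.mem_insert, Finset.mem_erase]
      tauto
    by_cases hC : G.IsClique ((insert t T : Finset V) : Set V)
    · by_cases htw : t ∈ par G w
      · have htA : t ∈ par G w \ T := Finset.mem_sdiff.2 ⟨htw, htT⟩
        have h2 : par G w ∩ insert t T = insert t (par G w ∩ T) := by
          ext x
          simp only [Finset.mem_inter, Finset.mem_insert]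
          constructor
          · rintro ⟨h3, h4 | h4⟩
            · exact Or.inl h4
            · exact Or.inr ⟨h3, h4⟩
          · rintro (h3 | ⟨h3, h4⟩)
            · rw [h3]; exact ⟨htw, Or.inl rfl⟩
            · exact ⟨h3, Or.inr h4⟩
        have htI : t ∉ par G w ∩ T := fun h => htT (Finset.mem_inter.1 h).2
        have h3 : vv v (insert t T) (par G w \ T) (gg T w) = 0 := by
          unfold vv
          rw [dif_neg]
          rintro ⟨-, h4⟩
          exact Finset.disjoint_left.1 h4 (Finset.mem_insert_self _ _) htA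
        have h4 : gg T w * (gm G (rep G ((par G w \ T).erase t) * (cox G).simple t))⁻¹ = gg (insert t T) w := by
          apply Subtype.ext
          rw [Subgroup.coe_mul, Subgroup.coe_inv, gm_val G _ t (Finset.notMem_erase _ _), Finset.insert_erase htA,
            gg_val, gg_val, h2, key, rep_insert hC (Finset.inter_subset_right.trans (Finset.subset_insert _ _))
              (Finset.mem_insert_self _ _) htI]
          group
        rw [h3, if_pos htA, h2, Finset.card_insert_of_notMem htI, pow_succ, key, h4]
        simp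
      · have htA : t ∉ par G w \ T := fun h => htw (Finset.mem_sdiff.1 h).1
        have h2 : par G w ∩ insert t T = par G w ∩ T := by
          ext x
          simp only [Finset.mem_inter, Finset.mem_insert]
          constructor
          · rintro ⟨h3, h4 | h4⟩
            · rw [h4] at h3; exact absurd h3 htw
            · exact ⟨h3, h4⟩
          · rintro ⟨h3, h4⟩
            exact ⟨h3, Or.inr h4⟩
        have h5 : par G w \ insert t T = par G w \ T := by rw [key, Finset.erase_eq_of_notMem htA]
        have h4 : gg (insert t T) w = gg T w := by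
          apply Subtype.ext
          rw [gg_val, gg_val, h2, h5]
        rw [if_neg htA, sub_zero, h2, h5, h4]
    · have h3 : ∀ B g', vv v (insert t T) B g' = 0 := fun B g' => by
        unfold vv
        rw [dif_neg (fun h => hC h.1)]
      simp only [h3, ite_self, sub_zero, mul_zero]


theorem psi_inj {R : Type} [Ring R] :
    Function.Injective (Psi : ((davis G).ι → (th G).ker → R) → (Finset V → W G → R)) := by
  intro v v' h
  funext i g
  rw [← psi_rep v i g, ← psi_rep v' i g, h]

theorem psi_isCh {R : Type} [Ring R] (K : Subgroup (W G)) (u : K →* R) (hK : K ≤ (th G).ker) (n : ℕ)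
    (v : (davis G).ι → (th G).ker → R) (hv : FV K u n v) :
    IsCh G Set.univ (InM K u Set.univ ⊥) n (Psi v) := by
  classical
  refine ⟨fun T hT => ?_, fun T => ⟨fun _ _ => trivial, fun p hp w => ?_, fun h w => ?_, ?_⟩, fun T t ht w =>
    psi_anti v T ht w⟩
  · funext w
    unfold Psi
    by_cases hc : G.IsClique (T : Set V)
    · rw [dif_pos hc]
      have h1 : (davis G).deg (ix T hc w) ≠ n := by
        intro h
        exact hT ⟨hc, Set.subset_univ _, h⟩
      rw [hv.deg _ h1]
      simp
    · rw [dif_neg hc]
      rfl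
  · rw [Subgroup.mem_bot] at hp
    rw [hp]
    simp
  · unfold Psi
    by_cases hc : G.IsClique (T : Set V)
    · rw [dif_pos hc, dif_pos hc, ix_left hc _ (hK h.2), gg_left T _ (hK h.2), par_left _ _ (hK h.2),
        hv.eqK (ix T hc w) h (gg T w) (⟨(h : W G), hK h.2⟩ * gg T w) rfl, mul_assoc]
    · rw [dif_neg hc, dif_neg hc, zero_mul]
  · obtain ⟨S, hS⟩ := hv.fin
    refine ⟨(S ×ˢ (Finset.univ : Finset (Finset V × Finset V))).image fun x => (x.1 : W G) * (rep G x.2.1 * rep G x.2.2),
      fun w hw => ?_⟩
    by_cases hc : G.IsClique (T : Set V)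
    · have h1 : v (ix T hc w) (gg T w) ≠ 0 := by
        intro h0
        apply hw
        unfold Psi
        rw [dif_pos hc, h0, mul_zero]
      obtain ⟨h, x, hx, hgx⟩ := hS _ _ h1
      refine ⟨h, (x : W G) * (rep G (par G w \ T) * rep G (par G w ∩ T)), ?_, 1, Subgroup.one_mem _, ?_⟩
      · exact Finset.mem_image.2 ⟨(x, (par G w \ T, par G w ∩ T)), Finset.mem_product.2 ⟨hx, Finset.mem_univ _⟩, rfl⟩
      · rw [Prod.fst_one, mul_one]
        have h2 := decomp T w
        rw [hgx] at h2
        exact h2.trans (by simp only [mul_assoc])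
    · exfalso
      apply hw
      unfold Psi
      rw [dif_neg hc]


open Classical in
/-- an element of the kernel -/
def toK (w : W G) : (th G).ker := if h : w ∈ (th G).ker then ⟨w, h⟩ else 1

theorem toK_val {w : W G} (h : w ∈ (th G).ker) : ((toK w : (th G).ker) : W G) = w := by
  unfold toK
  rw [dif_pos h]

theorem psi_surj {R : Type} [Ring R] (K : Subgroup (W G)) (u : K →* R) (hK : K ≤ (th G).ker) (n : ℕ)
    (c : Finset V → W G → R) (hc : IsCh G Set.univ (InM K u Set.univ ⊥) n c) :
    ∃ v : (davis G).ι → (th G).ker → R, FV K u n v ∧ Psi v = c := by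
  classical
  choose S hS using fun T => (hc.mem T).fin
  refine ⟨fun i g => c i.1.1 ((g : W G) * rep G i.1.2), ⟨fun i hi => ?_, fun i h g g' hg => ?_, ?_⟩, ?_⟩
  · funext g
    rw [hc.supp i.1.1 (fun h => hi h.2.2)]
    rfl
  · rw [hg, mul_assoc, (hc.mem _).eqK]
  · refine ⟨((Finset.univ : Finset (davis G).ι).biUnion fun i => (S i.1.1).image fun x => toK (x * (rep G i.1.2)⁻¹)),
      fun i g hg => ?_⟩
    obtain ⟨h, x, hx, p, hp, hw⟩ := hS i.1.1 _ hg
    rw [Subgroup.mem_bot] at hp
    rw [hp, Prod.fst_one, mul_one] at hw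
    have h1 : (g : W G) = h * (x * (rep G i.1.2)⁻¹) := by
      rw [← mul_assoc, ← hw, mul_assoc, mul_inv_cancel, mul_one]
    have h2 : x * (rep G i.1.2)⁻¹ ∈ (th G).ker := by
      have h3 : x * (rep G i.1.2)⁻¹ = (h : W G)⁻¹ * g := by rw [h1]; group
      rw [h3]
      exact Subgroup.mul_mem _ (Subgroup.inv_mem _ (hK h.2)) g.2
    refine ⟨h, toK (x * (rep G i.1.2)⁻¹), Finset.mem_biUnion.2 ⟨i, Finset.mem_univ _, Finset.mem_image.2 ⟨x, hx, rfl⟩⟩, ?_⟩
    rw [toK_val h2, h1]
  · funext T w
    unfold Psi
    by_cases hT : G.IsClique (T : Set V)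
    · rw [dif_pos hT]
      show (-1) ^ (par G w ∩ T).card * c T ((gg T w : W G) * rep G (par G w \ T)) = c T w
      have h2 : c T w = c T ((gg T w : W G) * rep G (par G w \ T) * rep G (par G w ∩ T)) :=
        congrArg (c T) (decomp T w)
      rw [h2, anti_rep (fun t ht w => hc.anti T t ht w) Finset.inter_subset_right]
    · rw [dif_neg hT, hc.supp T (fun h => hT h.1)]
      rfl

end

/-- the complex `davis G` is the complex of chains of functions on `W G` -/
theorem conv : CONV := by
  intro V _ _ G K R _ u hK
  refine ⟨Psi, psi_isCh K u hK, psi_surj K u hK, psi_inj, fun v v' => ?_, fun n v _ => psi_mulD v, fun r v T w => ?_⟩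
  · funext T w
    rw [Pi.add_apply, Pi.add_apply]
    unfold Psi
    by_cases hT : G.IsClique (T : Set V)
    · rw [dif_pos hT, dif_pos hT, dif_pos hT, Pi.add_apply, Pi.add_apply, mul_add]
    · rw [dif_neg hT, dif_neg hT, dif_neg hT, add_zero]
  · unfold Psi
    by_cases hT : G.IsClique (T : Set V)
    · rw [dif_pos hT, dif_pos hT, ← mul_assoc, ← mul_assoc]
      congr 1
      exact ((Commute.neg_one_left r).pow_left _).eq
    · rw [dif_neg hT, dif_neg hT, mul_zero]

end Pool.Agent.N496.CV.CB
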