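import Pool.Agent.N496.CV.Stm0

/-!
# CV/FINP: the part with finite orbits
-/

set_option autoImplicit false

noncomputable section

namespace Pool.Agent.N496.CV.FinpAux

open Pool.Agent.W907.SG Pool.Agent.W461.SGN Pool.Agent.N496.CV

/-! ### Groups -/

section group

variable {W : Type} [Group W] {a b : W}

theorem conj_T (ha : a * a = 1) (hb : b * b = 1) (n : ℤ) :
    a * (a * b) ^ n = (a * b) ^ (-n) * a := by
  have ha' : a⁻¹ = a := inv_eq_of_mul_eq_one_left ha
  have hb' : b⁻¹ = b := inv_eq_of_mul_eq_one_left hb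
  have h1 : a * (a * b) * a⁻¹ = (a * b)⁻¹ := by
    rw [mul_inv_rev, ha', hb', ← mul_assoc a a b, ha, one_mul]
  have h2 : a * (a * b) ^ n * a⁻¹ = (a * b) ^ (-n) := by
    rw [← conj_zpow, h1, inv_zpow, zpow_neg]
  rw [← h2, inv_mul_cancel_right]

theorem dih (ha : a * a = 1) (hb : b * b = 1) {δ : W} (hδ : δ ∈ Subgroup.closure ({a, b} : Set W)) :
    ∃ m : ℤ, δ = (a * b) ^ m ∨ δ = (a * b) ^ m * a := by
  have ha' : a⁻¹ = a := inv_eq_of_mul_eq_one_left ha
  have hb' : b⁻¹ = b := inv_eq_of_mul_eq_one_left hb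
  let H : Subgroup W :=
    { carrier := {δ | ∃ m : ℤ, δ = (a * b) ^ m ∨ δ = (a * b) ^ m * a}
      one_mem' := ⟨0, Or.inl (zpow_zero _).symm⟩
      mul_mem' := by
        rintro x y ⟨m, rfl | rfl⟩ ⟨n, rfl | rfl⟩
        · exact ⟨m + n, Or.inl (zpow_add _ _ _).symm⟩
        · exact ⟨m + n, Or.inr (by rw [zpow_add, mul_assoc])⟩
        · refine ⟨m - n, Or.inr ?_⟩
          rw [mul_assoc, conj_T ha hb, ← mul_assoc, ← zpow_add, sub_eq_add_neg]
        · refine ⟨m - n, Or.inl ?_⟩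
          rw [mul_assoc, ← mul_assoc a, conj_T ha hb, mul_assoc _ a a, ha, mul_one, ← zpow_add,
            sub_eq_add_neg]
      inv_mem' := by
        rintro x ⟨m, rfl | rfl⟩
        · exact ⟨-m, Or.inl (zpow_neg _ _).symm⟩
        · refine ⟨m, Or.inr ?_⟩
          rw [mul_inv_rev, ha', ← zpow_neg, conj_T ha hb, neg_neg] }
  have h : Subgroup.closure ({a, b} : Set W) ≤ H := by
    rw [Subgroup.closure_le]
    rintro x (rfl | rfl)
    · exact ⟨0, Or.inr (by rw [zpow_zero, one_mul])⟩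
    · refine ⟨-1, Or.inr ?_⟩
      rw [zpow_neg_one, mul_inv_rev, ha', hb', mul_assoc, ha, mul_one]
  exact h hδ

theorem sup_mem {E : Subgroup (W × ℤˣ)} (hca : ∀ p ∈ E, Commute p.1 a) (hcb : ∀ p ∈ E, Commute p.1 b)
    {p : W × ℤˣ} (hp : p ∈ E ⊔ Subgroup.closure {(a, 1), (b, 1)}) :
    ∃ e ∈ E, ∃ δ ∈ Subgroup.closure ({a, b} : Set W), p = e * (δ, 1) := by
  have hc : ∀ p ∈ E, ∀ δ ∈ Subgroup.closure ({a, b} : Set W), Commute p.1 δ := by
    intro p' hp' δ hδ
    have h : Subgroup.closure ({a, b} : Set W) ≤ Subgroup.centralizer {p'.1} := by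
      rw [Subgroup.closure_le]
      intro x hx
      rcases hx with hx | hx
      · rw [hx]; exact Subgroup.mem_centralizer_singleton_iff.2 (hca p' hp').symm.eq
      · rw [hx]; exact Subgroup.mem_centralizer_singleton_iff.2 (hcb p' hp').symm.eq
    exact (Subgroup.mem_centralizer_singleton_iff.1 (h hδ)).symm
  let H : Subgroup (W × ℤˣ) :=
    { carrier := {p | ∃ e ∈ E, ∃ δ ∈ Subgroup.closure ({a, b} : Set W), p = e * (δ, 1)}
      one_mem' := ⟨1, E.one_mem, 1, Subgroup.one_mem _, by ext <;> simp⟩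
      mul_mem' := by
        rintro x y ⟨e, he, δ, hδ, rfl⟩ ⟨e', he', δ', hδ', rfl⟩
        refine ⟨e * e', E.mul_mem he he', δ * δ', Subgroup.mul_mem _ hδ hδ', ?_⟩
        have h1 := (hc e' he' δ hδ).eq
        ext
        · change e.1 * δ * (e'.1 * δ') = e.1 * e'.1 * (δ * δ')
          calc e.1 * δ * (e'.1 * δ') = e.1 * (δ * e'.1) * δ' := by group
            _ = e.1 * (e'.1 * δ) * δ' := by rw [h1]
            _ = _ := by group
        · simp
      inv_mem' := by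
        rintro x ⟨e, he, δ, hδ, rfl⟩
        refine ⟨e⁻¹, E.inv_mem he, δ⁻¹, Subgroup.inv_mem _ hδ, ?_⟩
        have h1 := (hc _ (E.inv_mem he) _ (Subgroup.inv_mem _ hδ)).eq
        ext
        · change (e.1 * δ)⁻¹ = e.1⁻¹ * δ⁻¹
          rw [mul_inv_rev]
          exact h1.symm
        · simp }
  have h : E ⊔ Subgroup.closure {(a, (1 : ℤˣ)), (b, 1)} ≤ H := by
    refine sup_le ?_ ?_
    · intro e he
      exact ⟨e, he, 1, Subgroup.one_mem _, by ext <;> simp⟩
    · rw [Subgroup.closure_le]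
      rintro x (rfl | rfl)
      · exact ⟨1, E.one_mem, a, Subgroup.subset_closure (by simp), by ext <;> simp⟩
      · exact ⟨1, E.one_mem, b, Subgroup.subset_closure (by simp), by ext <;> simp⟩
  exact h hp

/-- powers of the relation -/
theorem rel_pow {K : Subgroup W} {E : Subgroup (W × ℤˣ)} {T : W} (hc : ∀ p ∈ E, Commute p.1 T)
    {w : W} {n : ℕ} (h : ∃ q ∈ E, w * T ^ n * q.1 * w⁻¹ ∈ K) (j : ℕ) :
    ∃ q ∈ E, w * T ^ (n * j) * q.1 * w⁻¹ ∈ K := by
  obtain ⟨q, hq, hk⟩ := h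
  refine ⟨q ^ j, E.pow_mem hq j, ?_⟩
  have h1 := K.pow_mem hk j
  have h2 : w * T ^ n * q.1 * w⁻¹ = w * (T ^ n * q.1) * w⁻¹ := by group
  rw [h2, conj_pow, ((hc q hq).symm.pow_left n).mul_pow, ← pow_mul] at h1
  have h3 : w * T ^ (n * j) * (q ^ j).1 * w⁻¹ = w * (T ^ (n * j) * q.1 ^ j) * w⁻¹ := by
    rw [Prod.pow_fst]; group
  rw [h3]
  exact h1

end group

/-! ### The class of functions -/

section inm

variable {V : Type} {G : SimpleGraph V} {R : Type} [Ring R] {K : Subgroup (W G)} {u : K →* R}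
  {Y : Set (W G)} {E : Subgroup (W G × ℤˣ)} {f g : W G → R}

theorem zero : InM K u Y E (fun _ => (0 : R)) where
  supp w h := absurd rfl h
  eqE p _ w := by simp
  eqK h w := by simp
  fin := ⟨∅, fun w h => absurd rfl h⟩

theorem add (hf : InM K u Y E f) (hg : InM K u Y E g) : InM K u Y E (fun w => f w + g w) where
  supp w h := by
    by_cases h1 : f w = 0
    · refine hg.supp w fun h2 => h ?_
      rw [h1, h2, add_zero]
    · exact hf.supp w h1
  eqE p hp w := by rw [hf.eqE p hp, hg.eqE p hp, smul_add]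
  eqK h w := by rw [hf.eqK, hg.eqK, add_mul]
  fin := by
    classical
    obtain ⟨S, hS⟩ := hf.fin
    obtain ⟨S', hS'⟩ := hg.fin
    refine ⟨S ∪ S', fun w h => ?_⟩
    by_cases h1 : f w = 0
    · obtain ⟨k, x, hx, p, hp, e⟩ := hS' w fun h2 => h (by rw [h1, h2, add_zero])
      exact ⟨k, x, Finset.mem_union_right _ hx, p, hp, e⟩
    · obtain ⟨k, x, hx, p, hp, e⟩ := hS w h1
      exact ⟨k, x, Finset.mem_union_left _ hx, p, hp, e⟩

theorem shift (hf : InM K u Y E f) {c : W G} (hc : ∀ p ∈ E, Commute p.1 c)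
    (hY : ∀ w, w * c ∈ Y → w ∈ Y) : InM K u Y E (fun w => f (w * c)) where
  supp w h := hY w (hf.supp _ h)
  eqE p hp w := by
    rw [mul_assoc, (hc p hp).eq, ← mul_assoc, hf.eqE p hp]
  eqK h w := by rw [mul_assoc, hf.eqK]
  fin := by
    classical
    obtain ⟨S, hS⟩ := hf.fin
    refine ⟨S.image fun x => x * c⁻¹, fun w h => ?_⟩
    obtain ⟨k, x, hx, p, hp, e⟩ := hS _ h
    refine ⟨k, x * c⁻¹, Finset.mem_image_of_mem _ hx, p, hp, ?_⟩
    have h1 : w = k * x * p.1 * c⁻¹ := by rw [← e, mul_inv_cancel_right]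
    have h2 := (hc p hp).inv_right.eq
    rw [h1, mul_assoc _ p.1, h2]
    simp only [mul_assoc]

theorem sum {N : ℕ} {F : ℕ → W G → R} (h : ∀ j < N, InM K u Y E (F j)) :
    InM K u Y E (fun w => ∑ j ∈ Finset.range N, F j w) := by
  induction N with
  | zero => simpa using (zero : InM K u Y E (fun _ => (0 : R)))
  | succ n ih =>
    simp only [Finset.sum_range_succ]
    exact add (ih fun j hj => h j (by omega)) (h n (by omega))

theorem unit_eps {V : Type} {G : SimpleGraph V} [Fintype V] [LinearOrder V]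
    {K : Subgroup (W G)} {u : K →* R} (hRg : Rg K u) {k : K} (hk : k ≠ 1) (ε : ℤˣ) :
    IsUnit (1 - ((ε : ℤˣ) : ℤ) • u k⁻¹) := by
  have hk' : k⁻¹ ≠ 1 := fun h => hk (inv_eq_one.1 h)
  have h1 := hRg.inv k⁻¹ hk'
  rcases Int.units_eq_one_or ε with rfl | rfl
  · simpa using h1
  · have h2 : k⁻¹ * k⁻¹ ≠ 1 := fun h => hk' (hRg.tf k⁻¹ 2 two_pos (by rw [pow_two]; exact h))
    have h3 := hRg.inv _ h2
    have h4 : (1 : R) - u (k⁻¹ * k⁻¹) = (1 - u k⁻¹) * (1 + u k⁻¹) := by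
      rw [map_mul]; noncomm_ring
    rw [h4] at h3
    obtain ⟨U, hU⟩ := h1
    rw [← hU, Units.isUnit_units_mul] at h3
    simpa using h3

end inm

end Pool.Agent.N496.CV.FinpAux

namespace Pool.Agent.N496.CV

open Pool.Agent.W907.SG Pool.Agent.W461.SGN FinpAux

theorem finp (hS : SPEC) : FINP := by
  classical
  intro V _ _ G K R _ u L Y E s t f hRg hGood hs ht hst hadj hf hfr
  obtain ⟨a, ha⟩ : ∃ a, a = (cox G).simple s := ⟨_, rfl⟩
  obtain ⟨b, hb⟩ : ∃ b, b = (cox G).simple t := ⟨_, rfl⟩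
  have haa : a * a = 1 := by rw [ha]; exact simple_mul_self G s
  have hbb : b * b = 1 := by rw [hb]; exact simple_mul_self G t
  have ha' : a⁻¹ = a := inv_eq_of_mul_eq_one_left haa
  have hb' : b⁻¹ = b := inv_eq_of_mul_eq_one_left hbb
  obtain ⟨Q, hQE, hQL⟩ := hGood.comm
  have hcs : ∀ v ∈ L, ∀ p ∈ E, Commute p.1 ((cox G).simple v) := by
    intro v hv p hp
    have h : Subgroup.closure ((cox G).simple '' Q) ≤
        Subgroup.centralizer {(cox G).simple v} := by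
      rw [Subgroup.closure_le]
      rintro x ⟨q, hq, rfl⟩
      exact Subgroup.mem_centralizer_singleton_iff.2 (simple_comm G q v (hQL q hq v hv))
    exact Subgroup.mem_centralizer_singleton_iff.1 (h (hQE p hp))
  have hca : ∀ p ∈ E, Commute p.1 a := by rw [ha]; exact hcs s hs
  have hcb : ∀ p ∈ E, Commute p.1 b := by rw [hb]; exact hcs t ht
  have hcT : ∀ p ∈ E, Commute p.1 (a * b) := fun p hp => (hca p hp).mul_right (hcb p hp)
  have hdis : Disjoint Q {s, t} := by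
    rw [Set.disjoint_left]
    rintro q hq (rfl | rfl)
    · exact G.irrefl (hQL _ hq _ hs)
    · exact G.irrefl (hQL _ hq _ ht)
  have hspec : ∀ g : W G, g ∈ Subgroup.closure ((cox G).simple '' Q) →
      g ∈ Subgroup.closure ({a, b} : Set (W G)) → g = 1 := by
    intro g h1 h2
    refine (hS V G).1 Q {s, t} hdis g h1 ?_
    rw [Set.image_pair, ← ha, ← hb]
    exact h2
  have hTn : ∀ n : ℕ, 0 < n → (a * b) ^ n ≠ 1 := by
    rw [ha, hb]
    exact (hS V G).2.2 s t hst hadj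
  have haD : a ∈ Subgroup.closure ({a, b} : Set (W G)) := Subgroup.subset_closure (by simp)
  have hbD : b ∈ Subgroup.closure ({a, b} : Set (W G)) := Subgroup.subset_closure (by simp)
  have hTD : ∀ m : ℤ, (a * b) ^ m ∈ Subgroup.closure ({a, b} : Set (W G)) := fun m =>
    Subgroup.zpow_mem _ (Subgroup.mul_mem _ haD hbD) m
  obtain ⟨T, hT⟩ : ∃ T, T = a * b := ⟨_, rfl⟩
  rw [← hT] at hcT
  -- the relation outside of the free part
  have hrel : ∀ w ∈ Y, w ∉ fr K Y (addD E s t) → ∃ n : ℕ, 0 < n ∧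
      ∃ q ∈ E, w * T ^ n * q.1 * w⁻¹ ∈ K := by
    intro w hw hwf
    have h1 : ¬ ∀ p ∈ addD E s t, w * p.1 * w⁻¹ ∈ K → p = 1 := fun h => hwf ⟨hw, h⟩
    push Not at h1
    obtain ⟨p, hp, hpK, hp1⟩ := h1
    rw [addD, ← ha, ← hb] at hp
    obtain ⟨e, he, δ, hδ, rfl⟩ := sup_mem hca hcb hp
    have hpK' : w * (e.1 * δ) * w⁻¹ ∈ K := hpK
    have hcδ : Commute e.1 δ := by
      obtain ⟨m, h2 | h2⟩ := dih haa hbb hδ
      · rw [h2, ← hT]; exact (hcT e he).zpow_right m
      · rw [h2, ← hT]; exact ((hcT e he).zpow_right m).mul_right (hca e he)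
    by_cases hδ1 : δ = 1
    · exfalso
      apply hp1
      rw [hδ1, mul_one] at hpK'
      rw [hGood.free w hw e he hpK', hδ1, one_mul]
      rfl
    · obtain ⟨m, h2 | h2⟩ := dih haa hbb hδ
      · rw [h2, ← hT] at hpK'
        obtain ⟨n, rfl | rfl⟩ := m.eq_nat_or_neg
        · refine ⟨n, Nat.pos_of_ne_zero ?_, e, he, ?_⟩
          · rintro rfl
            exact hδ1 (by rw [h2]; simp)
          · rw [zpow_natCast] at hpK'
            rw [((hcT e he).pow_right n).eq] at hpK'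
            simpa only [mul_assoc] using hpK'
        · refine ⟨n, Nat.pos_of_ne_zero ?_, e⁻¹, E.inv_mem he, ?_⟩
          · rintro rfl
            exact hδ1 (by rw [h2]; simp)
          · have h3 := K.inv_mem hpK'
            rw [zpow_neg, zpow_natCast] at h3
            have h4 : (w * (e.1 * (T ^ n)⁻¹) * w⁻¹)⁻¹ = w * T ^ n * (e⁻¹).1 * w⁻¹ := by
              rw [Prod.fst_inv]; group
            rw [h4] at h3
            exact h3
      · exfalso
        have hδδ : δ * δ = 1 := by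
          rw [h2, mul_assoc, ← mul_assoc a, conj_T haa hbb, mul_assoc _ a a, haa, mul_one,
            ← zpow_add, add_neg_cancel, zpow_zero]
        have hkk : (w * (e.1 * δ) * w⁻¹) * (w * (e.1 * δ) * w⁻¹) = w * (e * e).1 * w⁻¹ := by
          have h5 : e.1 * δ * (e.1 * δ) = e.1 * e.1 := by
            calc e.1 * δ * (e.1 * δ) = e.1 * (δ * e.1) * δ := by group
              _ = e.1 * (e.1 * δ) * δ := by rw [hcδ.eq]
              _ = e.1 * e.1 * (δ * δ) := by group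
              _ = e.1 * e.1 := by rw [hδδ, mul_one]
          calc (w * (e.1 * δ) * w⁻¹) * (w * (e.1 * δ) * w⁻¹) = w * (e.1 * δ * (e.1 * δ)) * w⁻¹ := by
                group
            _ = w * (e * e).1 * w⁻¹ := by rw [h5]; rfl
        have h6 : w * (e * e).1 * w⁻¹ ∈ K := by
          rw [← hkk]; exact K.mul_mem hpK' hpK'
        have h7 := hGood.free w hw (e * e) (E.mul_mem he he) h6
        have h8 : (⟨w * (e.1 * δ) * w⁻¹, hpK'⟩ : K) = 1 := by
          refine hRg.tf _ 2 two_pos ?_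
          apply Subtype.ext
          rw [pow_two]
          change (w * (e.1 * δ) * w⁻¹) * (w * (e.1 * δ) * w⁻¹) = 1
          rw [hkk, h7]
          simp
        have h9 : w * (e.1 * δ) * w⁻¹ = 1 := congrArg Subtype.val h8
        have h10 : e.1 * δ = 1 := by
          have h11 : w * (e.1 * δ) = w := by
            rw [mul_inv_eq_one] at h9; exact h9
          exact mul_eq_left.1 h11
        have h12 : e.1 = 1 := by
          refine hspec _ (hQE e he) ?_
          rw [eq_inv_of_mul_eq_one_left h10]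
          exact Subgroup.inv_mem _ hδ
        rw [h12, one_mul] at h10
        exact hδ1 h10
  obtain ⟨S, hSf⟩ := hf.fin
  have hex : ∀ x : W G, ∃ n : ℕ, 0 < n ∧ (x ∈ Y → x ∉ fr K Y (addD E s t) →
      ∃ q ∈ E, x * T ^ n * q.1 * x⁻¹ ∈ K) := by
    intro x
    by_cases h : x ∈ Y ∧ x ∉ fr K Y (addD E s t)
    · obtain ⟨n, hn, h1⟩ := hrel x h.1 h.2
      exact ⟨n, hn, fun _ _ => h1⟩
    · exact ⟨1, one_pos, fun h1 h2 => absurd ⟨h1, h2⟩ h⟩
  choose n hn hnrel using hex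
  obtain ⟨N, hN⟩ : ∃ N : ℕ, N = ∏ x ∈ S, n x := ⟨_, rfl⟩
  have hN0 : 0 < N := by rw [hN]; exact Finset.prod_pos fun x _ => hn x
  -- the relation on the support
  have hrelN : ∀ w, f w ≠ 0 → ∃ q ∈ E, ∃ k : K, (k : W G) = w * T ^ N * q.1 * w⁻¹ := by
    intro w hw
    obtain ⟨h, x, hx, p, hp, e⟩ := hSf w hw
    have hfx : f x ≠ 0 := by
      intro h0
      apply hw
      rw [e, hf.eqE p hp, hf.eqK, h0, zero_mul, smul_zero]
    have h1 := hnrel x (hf.supp x hfx) (fun h2 => hfx (hfr x h2))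
    obtain ⟨j, hj⟩ : n x ∣ N := by rw [hN]; exact Finset.dvd_prod_of_mem n hx
    obtain ⟨q, hq, hk⟩ := rel_pow hcT h1 j
    rw [← hj] at hk
    refine ⟨p⁻¹ * q * p, E.mul_mem (E.mul_mem (E.inv_mem hp) hq) hp,
      ⟨h * (x * T ^ N * q.1 * x⁻¹) * h⁻¹, K.mul_mem (K.mul_mem h.2 hk) (K.inv_mem h.2)⟩, ?_⟩
    change (h : W G) * (x * T ^ N * q.1 * x⁻¹) * (h : W G)⁻¹ = w * T ^ N * (p.1⁻¹ * q.1 * p.1) * w⁻¹
    have h2 := ((hcT p hp).pow_right N).eq
    rw [e]
    calc (h : W G) * (x * T ^ N * q.1 * x⁻¹) * (h : W G)⁻¹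
        = h * x * T ^ N * p.1 * p.1⁻¹ * q.1 * p.1 * (h * x * p.1)⁻¹ := by group
      _ = h * x * (T ^ N * p.1) * p.1⁻¹ * q.1 * p.1 * (h * x * p.1)⁻¹ := by group
      _ = h * x * (p.1 * T ^ N) * p.1⁻¹ * q.1 * p.1 * (h * x * p.1)⁻¹ := by rw [h2]
      _ = _ := by group
  -- uniqueness
  have huniq : ∀ w ∈ Y, ∀ q ∈ E, ∀ q' ∈ E, ∀ k k' : K, (k : W G) = w * T ^ N * q.1 * w⁻¹ →
      (k' : W G) = w * T ^ N * q'.1 * w⁻¹ → q = q' ∧ k = k' := by
    intro w hw q hq q' hq' k k' hk hk'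
    have h1 : w * (q⁻¹ * q').1 * w⁻¹ ∈ K := by
      have h2 := (k⁻¹ * k').2
      have h3 : ((k⁻¹ * k' : K) : W G) = w * (q⁻¹ * q').1 * w⁻¹ := by
        rw [Subgroup.coe_mul, Subgroup.coe_inv, hk, hk', Prod.fst_mul, Prod.fst_inv]
        group
      rw [h3] at h2
      exact h2
    have h2 := hGood.free w hw _ (E.mul_mem (E.inv_mem hq) hq') h1
    have h3 : q = q' := inv_mul_eq_one.1 h2
    refine ⟨h3, Subtype.ext ?_⟩
    rw [hk, hk', h3]
  have hk1 : ∀ w, ∀ q ∈ E, ∀ k : K, (k : W G) = w * T ^ N * q.1 * w⁻¹ → k ≠ 1 := by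
    rintro w q hq k hk rfl
    have h1 : w * (T ^ N * q.1) = w := by
      have h2 : w * (T ^ N * q.1) * w⁻¹ = 1 := by
        rw [← mul_assoc, ← hk]; rfl
      rwa [mul_inv_eq_one] at h2
    have h2 : T ^ N * q.1 = 1 := mul_eq_left.1 h1
    have h3 : q.1 = 1 := by
      refine hspec _ (hQE q hq) ?_
      rw [eq_inv_of_mul_eq_one_right h2, hT]
      refine Subgroup.inv_mem _ ?_
      rw [← zpow_natCast]
      exact hTD _
    rw [h3, mul_one, hT] at h2
    exact hTn N hN0 h2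
  have hunit : ∀ w, ∀ q ∈ E, ∀ k : K, (k : W G) = w * T ^ N * q.1 * w⁻¹ →
      IsUnit (1 - ((q.2 : ℤˣ) : ℤ) • u k⁻¹) := fun w q hq k hk =>
    unit_eps hRg (hk1 w q hq k hk) q.2
  -- the function `f'`
  have hf' : ∀ w, ∃ y : R, (w ∈ Y → ∀ q ∈ E, ∀ k : K, (k : W G) = w * T ^ N * q.1 * w⁻¹ →
      y * (1 - ((q.2 : ℤˣ) : ℤ) • u k⁻¹) = f w) ∧ (f w = 0 → y = 0) := by
    intro w
    by_cases h : w ∈ Y ∧ ∃ q ∈ E, ∃ k : K, (k : W G) = w * T ^ N * q.1 * w⁻¹
    · obtain ⟨hw, q, hq, k, hk⟩ := h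
      refine ⟨f w * Ring.inverse (1 - ((q.2 : ℤˣ) : ℤ) • u k⁻¹), fun _ q' hq' k' hk' => ?_,
        fun h0 => by rw [h0, zero_mul]⟩
      obtain ⟨rfl, rfl⟩ := huniq w hw q hq q' hq' k k' hk hk'
      rw [mul_assoc, Ring.inverse_mul_cancel _ (hunit w q hq k hk), mul_one]
    · refine ⟨0, fun hw q hq k hk => absurd ⟨hw, q, hq, k, hk⟩ h, fun _ => rfl⟩
  choose f' hf'1 hf'2 using hf'
  -- stability of `Y`
  have hYa : ∀ w ∈ Y, w * a ∈ Y := by rw [ha]; exact hGood.YL s hs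
  have hYb : ∀ w ∈ Y, w * b ∈ Y := by rw [hb]; exact hGood.YL t ht
  have hYT : ∀ w ∈ Y, w * T ∈ Y := fun w hw => by
    rw [hT, ← mul_assoc]; exact hYb _ (hYa _ hw)
  have hYT' : ∀ w, w * T ∈ Y → w ∈ Y := fun w hw => by
    have h1 := hYa _ (hYb _ hw)
    have h2 : w * T * b * a = w := by
      rw [hT]
      calc w * (a * b) * b * a = w * a * (b * b) * a := by group
        _ = w * (a * a) := by rw [hbb]; group
        _ = w := by rw [haa, mul_one]
    rwa [h2] at h1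
  have hYp : ∀ (j : ℕ), ∀ w ∈ Y, w * T ^ j ∈ Y := by
    intro j
    induction j with
    | zero => intro w hw; simpa using hw
    | succ j ih => intro w hw; rw [pow_succ, ← mul_assoc]; exact hYT _ (ih w hw)
  have hYm : ∀ (j : ℕ) w, w * T ^ j ∈ Y → w ∈ Y := by
    intro j
    induction j with
    | zero => intro w hw; simpa using hw
    | succ j ih => intro w hw; rw [pow_succ, ← mul_assoc] at hw; exact ih w (hYT' _ hw)
  -- the class of `f'`
  have hM' : InM K u Y E f' := by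
    refine ⟨fun w h => hf.supp w fun h0 => h (hf'2 w h0), fun p hp w => ?_, fun h w => ?_,
      S, fun w h => hSf w fun h0 => h (hf'2 w h0)⟩
    · by_cases h0 : f w = 0
      · have h1 : f (w * p.1) = 0 := by rw [hf.eqE p hp, h0, smul_zero]
        rw [hf'2 _ h1, hf'2 _ h0, smul_zero]
      · have hw := hf.supp w h0
        obtain ⟨q, hq, k, hk⟩ := hrelN w h0
        have hq' : p⁻¹ * q * p ∈ E := E.mul_mem (E.mul_mem (E.inv_mem hp) hq) hp
        have hk' : (k : W G) = w * p.1 * T ^ N * (p⁻¹ * q * p).1 * (w * p.1)⁻¹ := by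
          change (k : W G) = w * p.1 * T ^ N * (p.1⁻¹ * q.1 * p.1) * (w * p.1)⁻¹
          have h2 := ((hcT p hp).pow_right N).eq
          rw [hk]
          calc w * T ^ N * q.1 * w⁻¹ = w * (T ^ N * p.1) * p.1⁻¹ * q.1 * w⁻¹ := by group
            _ = w * (p.1 * T ^ N) * p.1⁻¹ * q.1 * w⁻¹ := by rw [h2]
            _ = _ := by group
        have e1 := hf'1 w hw q hq k hk
        have e2 := hf'1 (w * p.1) (hGood.YE p hp w hw) _ hq' k hk'
        have e3 : (p⁻¹ * q * p).2 = q.2 := by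
          change p.2⁻¹ * q.2 * p.2 = q.2
          rw [mul_comm p.2⁻¹, inv_mul_cancel_right]
        rw [e3, hf.eqE p hp, ← e1, ← smul_mul_assoc] at e2
        exact (hunit w q hq k hk).mul_right_cancel e2
    · by_cases h0 : f w = 0
      · have h1 : f (h * w) = 0 := by rw [hf.eqK, h0, zero_mul]
        rw [hf'2 _ h1, hf'2 _ h0, zero_mul]
      · have hw := hf.supp w h0
        obtain ⟨q, hq, k, hk⟩ := hrelN w h0
        have hk' : ((h * k * h⁻¹ : K) : W G) = h * w * T ^ N * q.1 * (h * w)⁻¹ := by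
          rw [Subgroup.coe_mul, Subgroup.coe_mul, Subgroup.coe_inv, hk]
          group
        have e1 := hf'1 w hw q hq k hk
        have e2 := hf'1 (h * w) (hGood.YK h h.2 w hw) q hq _ hk'
        refine (hunit _ q hq _ hk').mul_right_cancel ?_
        rw [e2, hf.eqK, ← e1]
        have e3 : (h * k * h⁻¹)⁻¹ = h * k⁻¹ * h⁻¹ := by group
        have e4 : u h⁻¹ * u h = 1 := by rw [← map_mul, inv_mul_cancel, map_one]
        rw [e3, map_mul, map_mul]
        have e5 : f' w * u h⁻¹ * (1 - ((q.2 : ℤˣ) : ℤ) • (u h * u k⁻¹ * u h⁻¹)) =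
            f' w * (u h⁻¹ - ((q.2 : ℤˣ) : ℤ) • ((u h⁻¹ * u h) * u k⁻¹ * u h⁻¹)) := by
          rw [mul_assoc, mul_sub, mul_one, mul_smul_comm]
          simp only [mul_assoc]
        rw [e5, e4, one_mul, mul_assoc, sub_mul, one_mul, smul_mul_assoc]
  -- the identity for `f'`
  have hid : ∀ w, f w = f' w - f' (w * T ^ N) := by
    intro w
    have hkey : ∀ q ∈ E, ∀ k : K, (k : W G) = w * T ^ N * q.1 * w⁻¹ →
        f (w * T ^ N) = ((q.2 : ℤˣ) : ℤ) • (f w * u k⁻¹) := by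
      intro q hq k hk
      have h1 : w * T ^ N * q.1 = k * w := by rw [hk, inv_mul_cancel_right]
      have h2 : f (w * T ^ N * q.1) = f w * u k⁻¹ := by rw [h1, hf.eqK]
      rw [hf.eqE q hq] at h2
      rw [← h2, smul_smul]
      have h3 : ((q.2 : ℤˣ) : ℤ) * ((q.2 : ℤˣ) : ℤ) = 1 := by
        rcases Int.units_eq_one_or q.2 with h | h <;> rw [h] <;> simp
      rw [h3, one_smul]
    have hrk : ∀ q : W G × ℤˣ, w * T ^ N * T ^ N * q.1 * (w * T ^ N)⁻¹ =
        w * T ^ N * (T ^ N * q.1 * (T ^ N)⁻¹) * w⁻¹ := fun q => by group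
    have hrk2 : ∀ q ∈ E, w * T ^ N * T ^ N * q.1 * (w * T ^ N)⁻¹ = w * T ^ N * q.1 * w⁻¹ := by
      intro q hq
      rw [hrk, ← ((hcT q hq).pow_right N).eq, mul_inv_cancel_right]
    by_cases h0 : f w = 0
    · have h1 : f (w * T ^ N) = 0 := by
        by_contra h2
        obtain ⟨q, hq, k, hk⟩ := hrelN _ h2
        rw [hrk2 q hq] at hk
        apply h2
        rw [hkey q hq k hk, h0, zero_mul, smul_zero]
      rw [hf'2 _ h0, hf'2 _ h1, h0, sub_zero]
    · have hw := hf.supp w h0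
      obtain ⟨q, hq, k, hk⟩ := hrelN w h0
      have e1 := hf'1 w hw q hq k hk
      have e2 := hf'1 (w * T ^ N) (hYp N w hw) q hq k (by rw [hrk2 q hq]; exact hk)
      refine (hunit w q hq k hk).mul_right_cancel ?_
      rw [sub_mul, e1, e2, hkey q hq k hk, mul_sub, mul_one, mul_smul_comm]
  refine ⟨fun w => ∑ j ∈ Finset.range N, f' (w * T ^ j), sum fun j _ => shift hM'
    (fun p hp => (hcT p hp).pow_right j) (hYm j), fun w => ?_⟩
  rw [← ha, ← hb, ← hT]
  have h1 : ∀ j : ℕ, w * T * T ^ j = w * T ^ (j + 1) := fun j => by rw [pow_succ', mul_assoc]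
  simp only [h1]
  rw [← Finset.sum_sub_distrib]
  have h2 := Finset.sum_range_sub' (fun j => f' (w * T ^ j)) N
  rw [h2, pow_zero, mul_one]
  exact hid w

end Pool.Agent.N496.CV
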