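import Pool.Agent.N496.CV.Stm0

/-! # Project CV, leaf GDD: adding a commuting infinite dihedral group -/

set_option autoImplicit false

noncomputable section

namespace Pool.Agent.N496.CV

open Pool.Agent.W907.SG Pool.Agent.W461.SGN

theorem gdd_comm {V : Type} (G : SimpleGraph V) (Q : Set V) (v : V) (h : ∀ q ∈ Q, G.Adj q v) (g : W G)
    (hg : g ∈ Subgroup.closure ((cox G).simple '' Q)) :
    (cox G).simple v * g = g * (cox G).simple v := by
  induction hg using Subgroup.closure_induction with
  | mem x hx =>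
    obtain ⟨q, hq, rfl⟩ := hx
    exact (simple_comm G q v (h q hq)).symm
  | one => rw [mul_one, one_mul]
  | mul x y _ _ hx hy => rw [← mul_assoc, hx, mul_assoc, hy, mul_assoc]
  | inv x _ hx =>
    have : x⁻¹ * (x * (cox G).simple v) * x⁻¹ = x⁻¹ * ((cox G).simple v * x) * x⁻¹ := by rw [hx]
    rw [inv_mul_cancel_left] at this
    rw [this]
    group

theorem gdd : GDD := by
  intro V _ _ G K L L' Y E s t hG hs ht hL hadj
  obtain ⟨Q, hQ1, hQ2⟩ := hG.comm
  -- the first coordinates
  have hcl : ∀ p ∈ addD E s t, p.1 ∈ Subgroup.closure ((cox G).simple '' (Q ∪ {s, t})) := by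
    have : addD E s t ≤ (Subgroup.closure ((cox G).simple '' (Q ∪ {s, t}))).comap (MonoidHom.fst (W G) ℤˣ) := by
      unfold addD
      refine sup_le ?_ ?_
      · intro p hp
        exact Subgroup.closure_mono (Set.image_mono Set.subset_union_left) (hQ1 p hp)
      · rw [Subgroup.closure_le]
        rintro p (rfl | rfl)
        · exact Subgroup.subset_closure ⟨s, by simp, rfl⟩
        · exact Subgroup.subset_closure ⟨t, by simp, rfl⟩
    exact fun p hp => this hp
  have hq : ∀ q ∈ Q ∪ {s, t}, ∀ v ∈ L', G.Adj q v := by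
    rintro q (hq | rfl | rfl) v hv
    · exact hQ2 q hq v (hL hv)
    · exact (hadj v hv).1
    · exact (hadj v hv).2
  -- invariance of `Y`
  have hY : ∀ p ∈ addD E s t, ∀ w, w * p.1 ∈ Y ↔ w ∈ Y := by
    let H : Subgroup (W G × ℤˣ) :=
      { carrier := {p | ∀ w, w * p.1 ∈ Y ↔ w ∈ Y}
        mul_mem' := by
          intro a b ha hb w
          rw [Prod.fst_mul, ← mul_assoc, hb (w * a.1), ha w]
        one_mem' := by intro w; rw [Prod.fst_one, mul_one]
        inv_mem' := by
          intro a ha w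
          have := ha (w * a⁻¹.1)
          rw [Prod.fst_inv, inv_mul_cancel_right] at this
          rw [Prod.fst_inv]
          exact this.symm }
    have : addD E s t ≤ H := by
      unfold addD
      refine sup_le ?_ ?_
      · intro p hp w
        refine ⟨fun h => ?_, fun h => hG.YE p hp w h⟩
        have := hG.YE p⁻¹ (E.inv_mem hp) _ h
        rwa [Prod.fst_inv, mul_inv_cancel_right] at this
      · rw [Subgroup.closure_le]
        have key : ∀ v ∈ L, ((cox G).simple v, (1 : ℤˣ)) ∈ H := by
          intro v hv w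
          refine ⟨fun h => ?_, fun h => hG.YL v hv w h⟩
          have := hG.YL v hv _ h
          rwa [mul_assoc, simple_mul_self, mul_one] at this
        rintro p (rfl | rfl)
        · exact key s hs
        · exact key t ht
    exact fun p hp => this hp
  refine ⟨⟨Q ∪ {s, t}, hcl, hq⟩, ?_, ?_, ?_, fun w hw => hw.2⟩
  · rintro h hh w ⟨hw, hf⟩
    refine ⟨hG.YK h hh w hw, fun p hp hK => hf p hp ?_⟩
    have h2 := K.mul_mem (K.mul_mem (K.inv_mem hh) hK) hh
    have e : h⁻¹ * (h * w * p.1 * (h * w)⁻¹) * h = w * p.1 * w⁻¹ := by group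
    rwa [e] at h2
  · rintro p hp w ⟨hw, hf⟩
    refine ⟨(hY p hp w).2 hw, fun p' hp' hK => ?_⟩
    have e : w * p.1 * p'.1 * (w * p.1)⁻¹ = w * (p * p' * p⁻¹).1 * w⁻¹ := by
      rw [Prod.fst_mul, Prod.fst_mul, Prod.fst_inv]; group
    rw [e] at hK
    have h2 := hf _ ((addD E s t).mul_mem ((addD E s t).mul_mem hp hp') ((addD E s t).inv_mem hp)) hK
    rw [mul_inv_eq_one] at h2
    exact mul_eq_left.1 h2
  · rintro v hv w ⟨hw, hf⟩
    refine ⟨hG.YL v (hL hv) w hw, fun p hp hK => hf p hp ?_⟩
    have hc := gdd_comm G (Q ∪ {s, t}) v (fun q hqq => hq q hqq v hv) p.1 (hcl p hp)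
    have e : w * (cox G).simple v * p.1 * (w * (cox G).simple v)⁻¹ = w * p.1 * w⁻¹ := by
      rw [mul_assoc w, hc]; group
    rwa [e] at hK

end Pool.Agent.N496.CV
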