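import Pool.Agent.N496.CV.Stm0

/-!
# Adding a commuting vertex (leaf GDV of the project CV)
-/

set_option autoImplicit false

namespace Pool.Agent.N496.CV

open Pool.Agent.W907.SG Pool.Agent.W461.SGN

/-- a generator commutes with the group generated by its neighbours -/
theorem gdv_comm {V : Type} {G : SimpleGraph V} (Q : Set V) (v : V) (hQ : ∀ q ∈ Q, G.Adj q v) (g : W G)
    (hg : g ∈ Subgroup.closure ((cox G).simple '' Q)) :
    g * (cox G).simple v = (cox G).simple v * g := by
  induction hg using Subgroup.closure_induction with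
  | mem x hx =>
    obtain ⟨q, hq, rfl⟩ := hx
    exact simple_comm G q v (hQ q hq)
  | one => simp
  | mul x y _ _ h1 h2 => rw [mul_assoc, h2, ← mul_assoc, h1, mul_assoc]
  | inv x _ h1 => exact (Commute.inv_left (show Commute x _ from h1)).eq

/-- the generator and its sign have square one -/
theorem gdv_sq {V : Type} {G : SimpleGraph V} (v : V) (e : ℤˣ) :
    (((cox G).simple v, e) : W G × ℤˣ) * ((cox G).simple v, e) = 1 := by
  rw [Prod.mk_mul_mk, simple_mul_self, Int.units_mul_self]
  rfl

/-- the elements of the new group -/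
def gdvH {V : Type} {G : SimpleGraph V} (E : Subgroup (W G × ℤˣ)) (v : V) (e : ℤˣ)
    (hc : ∀ p ∈ E, p * ((cox G).simple v, e) = ((cox G).simple v, e) * p) : Subgroup (W G × ℤˣ) where
  carrier := {p | p ∈ E ∨ ∃ q ∈ E, p = q * ((cox G).simple v, e)}
  one_mem' := Or.inl E.one_mem
  mul_mem' := by
    rintro a b (ha | ⟨q, hq, rfl⟩) (hb | ⟨r, hr, rfl⟩)
    · exact Or.inl (E.mul_mem ha hb)
    · exact Or.inr ⟨a * r, E.mul_mem ha hr, by rw [mul_assoc]⟩
    · exact Or.inr ⟨q * b, E.mul_mem hq hb, by rw [mul_assoc, ← hc b hb, mul_assoc]⟩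
    · refine Or.inl ?_
      have h : q * ((cox G).simple v, e) * (r * ((cox G).simple v, e)) = q * r := by
        rw [hc r hr, mul_assoc q, ← mul_assoc _ _ r, gdv_sq, one_mul]
      rw [h]
      exact E.mul_mem hq hr
  inv_mem' := by
    rintro a (ha | ⟨q, hq, rfl⟩)
    · exact Or.inl (E.inv_mem ha)
    · refine Or.inr ⟨q⁻¹, E.inv_mem hq, ?_⟩
      rw [hc _ (E.inv_mem hq), mul_inv_rev, inv_eq_of_mul_eq_one_left (gdv_sq v e)]

/-- description of the elements of the new group -/
theorem gdv_mem {V : Type} {G : SimpleGraph V} (E : Subgroup (W G × ℤˣ)) (v : V) (e : ℤˣ)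
    (hc : ∀ p ∈ E, p * ((cox G).simple v, e) = ((cox G).simple v, e) * p) (p : W G × ℤˣ)
    (hp : p ∈ addv E v e) : p ∈ E ∨ ∃ q ∈ E, p = q * ((cox G).simple v, e) := by
  have h : addv E v e ≤ gdvH E v e hc := by
    unfold addv
    refine sup_le (fun x hx => Or.inl hx) ?_
    rw [Subgroup.closure_le]
    intro x hx
    rw [Set.mem_singleton_iff] at hx
    subst hx
    exact Or.inr ⟨1, E.one_mem, by rw [one_mul]⟩
  exact h hp

theorem gdv (h : SPEC) : GDV := by
  intro V _ _ G K L L' Y E v e htf hG hv hL hadj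
  obtain ⟨Q, hQ1, hQ2⟩ := hG.comm
  have hc : ∀ p ∈ E, p * ((cox G).simple v, e) = ((cox G).simple v, e) * p := by
    intro p hp
    exact Prod.ext (gdv_comm Q v (fun q hq => hQ2 q hq v hv) p.1 (hQ1 p hp)) (mul_comm _ _)
  refine ⟨⟨insert v Q, ?_, ?_⟩, hG.YK, ?_, fun x hx => hG.YL x (hL hx), ?_⟩
  · intro p hp
    have hmono : Subgroup.closure ((cox G).simple '' Q) ≤ Subgroup.closure ((cox G).simple '' (insert v Q)) :=
      Subgroup.closure_mono (Set.image_mono (Set.subset_insert v Q))
    rcases gdv_mem E v e hc p hp with h1 | ⟨q, hq, rfl⟩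
    · exact hmono (hQ1 p h1)
    · exact Subgroup.mul_mem _ (hmono (hQ1 q hq))
        (Subgroup.subset_closure ⟨v, Set.mem_insert v Q, rfl⟩)
  · rintro q (rfl | hq) x hx
    · exact hadj x hx
    · exact hQ2 q hq x (hL hx)
  · intro p hp w hw
    rcases gdv_mem E v e hc p hp with h1 | ⟨q, hq, rfl⟩
    · exact hG.YE p h1 w hw
    · have h2 := hG.YL v hv _ (hG.YE q hq w hw)
      rw [mul_assoc] at h2
      exact h2
  · intro w hw p hp hK
    rcases gdv_mem E v e hc p hp with h1 | ⟨q, hq, rfl⟩
    · exact hG.free w hw p h1 hK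
    · exfalso
      have hcb : q.1 * (cox G).simple v = (cox G).simple v * q.1 :=
        gdv_comm Q v (fun r hr => hQ2 r hr v hv) q.1 (hQ1 q hq)
      have hK' : w * (q.1 * (cox G).simple v) * w⁻¹ ∈ K := hK
      have hbb : q.1 * (cox G).simple v * (q.1 * (cox G).simple v) = q.1 * q.1 := by
        rw [hcb, mul_assoc, ← mul_assoc q.1, hcb, ← mul_assoc, ← mul_assoc, simple_mul_self, one_mul]
      have hsq : w * (q.1 * (cox G).simple v) * w⁻¹ * (w * (q.1 * (cox G).simple v) * w⁻¹)
          = w * (q * q).1 * w⁻¹ := by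
        have h3 : w * (q.1 * (cox G).simple v) * w⁻¹ * (w * (q.1 * (cox G).simple v) * w⁻¹)
            = w * (q.1 * (cox G).simple v * (q.1 * (cox G).simple v)) * w⁻¹ := by group
        rw [h3, hbb]
        rfl
      have hmem : w * (q * q).1 * w⁻¹ ∈ K := by
        rw [← hsq]
        exact K.mul_mem hK' hK'
      have hqq : q * q = 1 := hG.free w hw (q * q) (E.mul_mem hq hq) hmem
      have hg2 : (⟨w * (q.1 * (cox G).simple v) * w⁻¹, hK'⟩ : K) ^ 2 = 1 := by
        apply Subtype.ext
        rw [pow_two]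
        show w * (q.1 * (cox G).simple v) * w⁻¹ * (w * (q.1 * (cox G).simple v) * w⁻¹) = 1
        rw [hsq, hqq]
        simp
      have hg1 := congrArg Subtype.val (htf _ 2 (by norm_num) hg2)
      have hg3 : w * (q.1 * (cox G).simple v) * w⁻¹ = 1 := hg1
      have hg4 : q.1 * (cox G).simple v = 1 := by
        have h5 : w * (q.1 * (cox G).simple v) = w := by
          rw [mul_inv_eq_one] at hg3
          exact hg3
        exact mul_eq_left.mp h5
      have hg5 : q.1 = (cox G).simple v := by
        rw [mul_eq_one_iff_eq_inv] at hg4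
        rw [hg4]
        exact inv_eq_of_mul_eq_one_left (simple_mul_self G v)
      have hmemQ : (cox G).simple v ∈ Subgroup.closure ((cox G).simple '' Q) := by
        rw [← hg5]
        exact hQ1 q hq
      have hmemv : (cox G).simple v ∈ Subgroup.closure ((cox G).simple '' ({v} : Set V)) :=
        Subgroup.subset_closure ⟨v, rfl, rfl⟩
      have hdis : Disjoint Q ({v} : Set V) := by
        rw [Set.disjoint_singleton_right]
        intro hvQ
        exact (hQ2 v hvQ v hv).ne rfl
      have hone := (h V G).1 Q {v} hdis _ hmemQ hmemv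
      have hth := th_self G (1 : W G) v
      rw [one_mul, hone, map_one] at hth
      simp at hth

end Pool.Agent.N496.CV
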