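import Pool.Agent.N496.CV.Stm0

/-!
# Project CV (helper496), leaf INJ (helper37)
-/

set_option autoImplicit false

noncomputable section

namespace Pool.Agent.N496.CV

open Pool.Agent.W907.SG Pool.Agent.W461.SGN

theorem inj (h : SPEC) : INJ := by
  classical
  intro V _ _ G K R _ u L Y E s t f hR hG hs ht hst hadj hM hfs hft
  obtain ⟨h1, -, h3⟩ := h V G
  have hinv : ∀ (n : ℕ) (w : W G), f (w * ((cox G).simple s * (cox G).simple t) ^ n) = f w := by
    intro n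
    induction n with
    | zero => intro w; rw [pow_zero, mul_one]
    | succ n ih =>
      intro w
      rw [pow_succ, ← mul_assoc, ← mul_assoc, hft, hfs, neg_neg, ih]
  funext w
  by_contra hw
  have hw' : f w ≠ 0 := hw
  obtain ⟨S, hS⟩ := hM.fin
  choose hh xx hxx pp hpp heq using fun n : ℕ =>
    hS (w * ((cox G).simple s * (cox G).simple t) ^ n) (by rw [hinv]; exact hw')
  obtain ⟨n, m, hnm, hx⟩ : ∃ n m : ℕ, n < m ∧ xx n = xx m := by
    obtain ⟨a, b, hab, hx⟩ := Finite.exists_ne_map_eq_of_infinite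
      (fun n : ℕ => (⟨xx n, hxx n⟩ : S))
    rw [Subtype.mk.injEq] at hx
    rcases lt_or_gt_of_ne hab with hlt | hlt
    · exact ⟨a, b, hlt, hx⟩
    · exact ⟨b, a, hlt, hx.symm⟩
  obtain ⟨d, hd0, rfl⟩ : ∃ d, 0 < d ∧ m = n + d := ⟨m - n, by omega, by omega⟩
  obtain ⟨a, ha⟩ : ∃ a, a = ((cox G).simple s * (cox G).simple t) ^ d := ⟨_, rfl⟩
  obtain ⟨y, hy⟩ : ∃ y, y = w * ((cox G).simple s * (cox G).simple t) ^ n := ⟨_, rfl⟩
  have hfy : f y ≠ 0 := by rw [hy, hinv]; exact hw'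
  have hfya : f (y * a) = f y := by rw [ha, hinv]
  have e1 : y = hh n * xx n * (pp n).1 := by rw [hy]; exact heq n
  have e2 : y * a = hh (n + d) * xx n * (pp (n + d)).1 := by
    rw [hx, ← heq (n + d), hy, ha, mul_assoc, ← pow_add]
  obtain ⟨k, hk⟩ : ∃ k : K, k = hh (n + d) * (hh n)⁻¹ := ⟨_, rfl⟩
  obtain ⟨q, hq⟩ : ∃ q : W G × ℤˣ, q = (pp (n + d))⁻¹ * pp n := ⟨_, rfl⟩
  have hqE : q ∈ E := by
    rw [hq]
    exact E.mul_mem (E.inv_mem (hpp _)) (hpp _)
  have hky : (k : W G) * y = y * a * q.1 := by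
    rw [e2, hq, hk, e1, Prod.fst_mul, Prod.fst_inv, Subgroup.coe_mul, Subgroup.coe_inv]
    group
  have ha1 : a ≠ 1 := by
    rw [ha]
    exact h3 s t hst hadj d hd0
  have hk1 : k ≠ 1 := by
    intro hk1
    rw [hk1, Subgroup.coe_one, one_mul, mul_assoc, eq_comm, mul_eq_left] at hky
    obtain ⟨Q, hQ, hQL⟩ := hG.comm
    apply ha1
    apply h1 Q {s, t}
    · rw [Set.disjoint_left]
      rintro z hz (rfl | rfl)
      · exact G.loopless.irrefl _ (hQL z hz z hs)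
      · exact G.loopless.irrefl _ (hQL z hz z ht)
    · have h5 : a = (q.1)⁻¹ := eq_inv_of_mul_eq_one_left hky
      rw [h5]
      exact Subgroup.inv_mem _ (hQ q hqE)
    · rw [ha]
      refine Subgroup.pow_mem _ (Subgroup.mul_mem _ ?_ ?_) _
      · exact Subgroup.subset_closure ⟨s, by simp, rfl⟩
      · exact Subgroup.subset_closure ⟨t, by simp, rfl⟩
  have hmain : f y * u k⁻¹ = ((q.2 : ℤˣ) : ℤ) • f y := by
    rw [← hM.eqK, hky, hM.eqE q hqE, hfya]
  have hk1' : k⁻¹ ≠ 1 := fun h => hk1 (inv_eq_one.1 h)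
  have hu1 := hR.inv _ hk1'
  rcases Int.units_eq_one_or q.2 with h2 | h2
  · rw [h2, Units.val_one, one_smul] at hmain
    apply hfy
    have h5 : f y * (1 - u k⁻¹) = 0 := by rw [mul_sub, mul_one, hmain, sub_self]
    exact (hu1.mul_left_eq_zero).1 h5
  · rw [h2, Units.val_neg, Units.val_one, neg_smul, one_smul] at hmain
    apply hfy
    have h5 : f y * (1 + u k⁻¹) = 0 := by rw [mul_add, mul_one, hmain, add_neg_cancel]
    have hk2 : k⁻¹ ^ 2 ≠ 1 := fun h => hk1' (hR.tf _ 2 (by norm_num) h)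
    have hu2 := hR.inv _ hk2
    have h6 : 1 - u (k⁻¹ ^ 2) = (1 - u k⁻¹) * (1 + u k⁻¹) := by
      rw [map_pow]
      noncomm_ring
    rw [h6] at hu2
    have h7 : IsUnit (1 + u k⁻¹) := by
      obtain ⟨v, hv⟩ := hu1
      rw [← hv] at hu2
      exact (Units.isUnit_units_mul v _).1 hu2
    exact (h7.mul_left_eq_zero).1 h5

end Pool.Agent.N496.CV
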