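import Pool.Agent.N496.CV.Stm0

/-! CV/SPEC: special subgroups of right-angled Coxeter groups (helper344). -/

set_option autoImplicit false

noncomputable section

namespace Pool.Agent.N496.CV.PSPEC

open Pool.Agent.W907.SG Pool.Agent.W461.SGN

variable {V : Type}

/-- the lift of a map on the generators -/
def lf (G : SimpleGraph V) {A : Type} [Monoid A] (f : V → A) (h : (cox G).IsLiftable f) : W G →* A :=
  (cox G).toCoxeterSystem.lift ⟨f, h⟩

theorem lf_simple (G : SimpleGraph V) {A : Type} [Monoid A] (f : V → A) (h : (cox G).IsLiftable f)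
    (v : V) : lf G f h ((cox G).simple v) = f v :=
  CoxeterSystem.lift_apply_simple _ _ v

/-- the map of the special subgroup -/
def inc (G : SimpleGraph V) (C : Set V) : W (G.induce C) →* W G :=
  lf (G.induce C) (fun v => (cox G).simple v.1) (liftable _ _ (fun v => simple_mul_self G v.1)
    (fun u v h => simple_comm G u.1 v.1 h))

theorem inc_simple (G : SimpleGraph V) (C : Set V) (v : C) :
    inc G C ((cox (G.induce C)).simple v) = (cox G).simple v.1 :=
  lf_simple _ _ _ v

open Classical in
/-- the generators outside `C` to `1` -/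
def rv (G : SimpleGraph V) (C : Set V) (v : V) : W (G.induce C) :=
  if h : v ∈ C then (cox (G.induce C)).simple ⟨v, h⟩ else 1

theorem rv_in (G : SimpleGraph V) (C : Set V) (v : V) (h : v ∈ C) :
    rv G C v = (cox (G.induce C)).simple ⟨v, h⟩ := by
  unfold rv
  rw [dif_pos h]

theorem rv_out (G : SimpleGraph V) (C : Set V) (v : V) (h : v ∉ C) : rv G C v = 1 := by
  unfold rv
  rw [dif_neg h]

/-- the retraction -/
def ret (G : SimpleGraph V) (C : Set V) : W G →* W (G.induce C) :=
  lf G (rv G C) (liftable _ _ (by
    intro v
    by_cases h : v ∈ C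
    · rw [rv_in G C v h]
      exact simple_mul_self _ _
    · rw [rv_out G C v h, mul_one]) (by
    intro u v huv
    by_cases hu : u ∈ C
    · by_cases hv : v ∈ C
      · rw [rv_in G C u hu, rv_in G C v hv]
        exact simple_comm _ _ _ huv
      · rw [rv_out G C v hv, mul_one, one_mul]
    · rw [rv_out G C u hu, mul_one, one_mul]))

theorem ret_simple (G : SimpleGraph V) (C : Set V) (v : V) :
    ret G C ((cox G).simple v) = rv G C v := lf_simple _ _ _ v

theorem ret_inc (G : SimpleGraph V) (C : Set V) (x : W (G.induce C)) : ret G C (inc G C x) = x := by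
  have h : (ret G C).comp (inc G C) = MonoidHom.id _ := by
    refine (cox (G.induce C)).toCoxeterSystem.ext_simple fun v => ?_
    show ret G C (inc G C ((cox (G.induce C)).simple v)) = (cox (G.induce C)).simple v
    rw [inc_simple, ret_simple, rv_in G C v.1 v.2]
  exact DFunLike.congr_fun h x

open Classical in
/-- the map to the infinite dihedral group -/
def dv (s t v : V) : DihedralGroup 0 :=
  if v = s then DihedralGroup.sr 0 else if v = t then DihedralGroup.sr 1 else 1

theorem spec : SPEC := by
  intro V G
  refine ⟨?_, ?_, ?_⟩
  · intro Q C hQC g hgQ hgC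
    have h1 : ret G C g = 1 := by
      have hle : Subgroup.closure ((cox G).simple '' Q) ≤ (ret G C).ker := by
        rw [Subgroup.closure_le]
        rintro _ ⟨v, hv, rfl⟩
        show ret G C ((cox G).simple v) = 1
        rw [ret_simple, rv_out G C v (Set.disjoint_left.1 hQC hv)]
      exact hle hgQ
    have h2 : inc G C (ret G C g) = g := by
      have hle : Subgroup.closure ((cox G).simple '' C) ≤
          ((inc G C).comp (ret G C)).eqLocus (MonoidHom.id _) := by
        rw [Subgroup.closure_le]
        rintro _ ⟨v, hv, rfl⟩
        show inc G C (ret G C ((cox G).simple v)) = (cox G).simple v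
        rw [ret_simple, rv_in G C v hv, inc_simple]
      exact hle hgC
    rw [← h2, h1, map_one]
  · intro C
    refine ⟨inc G C, ?_, inc_simple G C⟩
    exact Function.LeftInverse.injective (ret_inc G C)
  · intro s t hst hadj n hn hpow
    have e1 : dv s t s = DihedralGroup.sr 0 := by
      unfold dv
      rw [if_pos rfl]
    have e2 : dv s t t = DihedralGroup.sr 1 := by
      unfold dv
      rw [if_neg (Ne.symm hst), if_pos rfl]
    have e3 : ∀ v, v ≠ s → v ≠ t → dv s t v = 1 := by
      intro v h1 h2
      unfold dv
      rw [if_neg h1, if_neg h2]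
    have hl : (cox G).IsLiftable (dv s t) := by
      refine liftable _ _ ?_ ?_
      · intro v
        by_cases h1 : v = s
        · rw [h1, e1]
          exact DihedralGroup.sr_mul_self 0
        · by_cases h2 : v = t
          · rw [h2, e2]
            exact DihedralGroup.sr_mul_self 1
          · rw [e3 v h1 h2, mul_one]
      · intro u v huv
        by_cases hu : u = s ∨ u = t
        · have hv : v ≠ s ∧ v ≠ t := by
            rcases hu with rfl | rfl
            · exact ⟨huv.ne', fun h => hadj (h ▸ huv)⟩
            · exact ⟨fun h => hadj (h ▸ huv.symm), huv.ne'⟩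
          rw [e3 v hv.1 hv.2, mul_one, one_mul]
        · rw [not_or] at hu
          rw [e3 u hu.1 hu.2, mul_one, one_mul]
    have h1 := congrArg (lf G (dv s t) hl) hpow
    rw [map_pow, map_mul, lf_simple, lf_simple, e1, e2, map_one, DihedralGroup.sr_mul_sr, sub_zero,
      DihedralGroup.r_one_pow, DihedralGroup.one_def] at h1
    have h2 : ((n : ℕ) : ZMod 0) = 0 := by
      injection h1
    have h3 : (n : ℤ) = 0 := h2
    omega

end Pool.Agent.N496.CV.PSPEC
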