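import Pool.Agent.N496.CV.Stm0
import Pool.Agent.N496.CV.P_SPEC
import Pool.Agent.Helper376.LC.Cox

/-!
Project CV, leaf LEN: the length function of a right-angled Coxeter group (helper414).
-/

set_option autoImplicit false

namespace Pool.Agent.N496.CV

open Pool.Agent.W907.SG Pool.Agent.W461.SGN Pool.Agent.Helper376.LC

namespace Len

variable {B : Type*} {M : CoxeterMatrix B} {W : Type*} [Group W] (cs : CoxeterSystem M W)

/-- alternating product of length `k` ending in `s` -/
noncomputable def al : B → B → ℕ → W
  | _, _, 0 => 1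
  | s, t, k + 1 => al t s k * cs.simple s

theorem al_zero (s t : B) : al cs s t 0 = 1 := by rw [al]

theorem al_succ (s t : B) (k : ℕ) : al cs s t (k + 1) = al cs t s k * cs.simple s := by rw [al]

theorem length_al (s t : B) (k : ℕ) : cs.length (al cs s t k) ≤ k := by
  induction k generalizing s t with
  | zero => rw [al_zero, cs.length_one]
  | succ k ih =>
    rw [al_succ]
    refine (cs.length_mul_le _ _).trans ?_
    rw [cs.length_simple]
    exact Nat.add_le_add_right (ih t s) 1

theorem eta_al (k : ℕ) : ∀ (s t : B) (j : ℕ),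
    (∀ n : ℕ, 0 < n → (cs.simple s * cs.simple t) ^ n ≠ 1) →
    (∀ n : ℕ, 0 < n → (cs.simple t * cs.simple s) ^ n ≠ 1) →
    eta cs (al cs s t k) ((cs.simple t * cs.simple s) ^ j * cs.simple t) = 0 := by
  classical
  induction k with
  | zero =>
    intro s t j _ _
    rw [al_zero, eta_one]
  | succ k ih =>
    intro s t j h1 h2
    rw [al_succ, eta_mul, eta_simple, if_neg]
    · have e : cs.simple s * ((cs.simple t * cs.simple s) ^ j * cs.simple t) * (cs.simple s)⁻¹ =
          (cs.simple s * cs.simple t) ^ (j + 1) * cs.simple s := by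
        have e1 : cs.simple s * (cs.simple t * cs.simple s) ^ j =
            (cs.simple s * cs.simple t) ^ j * cs.simple s := by
          clear ih
          induction j with
          | zero => simp
          | succ j ihj =>
            rw [pow_succ, ← mul_assoc, ihj, pow_succ]
            simp only [mul_assoc]
        rw [cs.inv_simple, ← mul_assoc, e1, pow_succ]
        simp only [mul_assoc]
      rw [e, ih t s (j + 1) h2 h1, add_zero]
    · intro h
      apply h2 (j + 1) (Nat.succ_pos j)
      rw [pow_succ, ← mul_assoc, h, cs.simple_mul_simple_self]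

theorem desc_eta {w : W} {s : B} (h : cs.length (w * cs.simple s) + 1 = cs.length w) :
    eta cs w (cs.simple s) = 1 := by
  rw [← rightInv_iff_eta, cs.isRightInversion_simple_iff_isRightDescent, cs.isRightDescent_iff]
  exact h

theorem desc_of_eta {w : W} {s : B} (h : eta cs w (cs.simple s) = 1) :
    cs.length (w * cs.simple s) + 1 = cs.length w := by
  rw [← rightInv_iff_eta, cs.isRightInversion_simple_iff_isRightDescent, cs.isRightDescent_iff] at h
  exact h

theorem two_desc_aux (w : W) (k : ℕ) : ∀ (s t : B),
    (∀ n : ℕ, 0 < n → (cs.simple s * cs.simple t) ^ n ≠ 1) →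
    (∀ n : ℕ, 0 < n → (cs.simple t * cs.simple s) ^ n ≠ 1) →
    eta cs w (cs.simple s) = 1 → eta cs w (cs.simple t) = 1 →
    ∃ p : W, w = p * al cs s t k ∧ cs.length p + k = cs.length w := by
  induction k with
  | zero =>
    intro s t _ _ _ _
    exact ⟨w, by rw [al_zero, mul_one], by rw [add_zero]⟩
  | succ k ih =>
    intro s t h1 h2 hs ht
    obtain ⟨p, hp, hl⟩ := ih t s h2 h1 ht hs
    have h3 : eta cs p (al cs t s k * cs.simple s * (al cs t s k)⁻¹) = 1 := by
      have h4 := hs
      rw [hp, eta_mul] at h4
      have h5 := eta_al cs k t s 0 h2 h1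
      rw [pow_zero, one_mul] at h5
      rwa [h5, zero_add] at h4
    have h6 := (rightInv_iff_eta cs _ _).2 h3
    have h7 : cs.length (p * (al cs t s k * cs.simple s * (al cs t s k)⁻¹)) < cs.length p := h6.2
    have h8 : w = p * (al cs t s k * cs.simple s * (al cs t s k)⁻¹) * al cs s t (k + 1) := by
      rw [al_succ, hp]
      have := cs.simple_mul_simple_self s
      calc p * al cs t s k = p * al cs t s k * (cs.simple s * cs.simple s) := by rw [this, mul_one]
        _ = _ := by group
    refine ⟨_, h8, le_antisymm (by omega) ?_⟩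
    have h9 := cs.length_mul_le (p * (al cs t s k * cs.simple s * (al cs t s k)⁻¹)) (al cs s t (k + 1))
    rw [← h8] at h9
    exact h9.trans (Nat.add_le_add_left (length_al cs s t (k + 1)) _)

theorem two_desc {w : W} {s t : B}
    (h1 : ∀ n : ℕ, 0 < n → (cs.simple s * cs.simple t) ^ n ≠ 1)
    (h2 : ∀ n : ℕ, 0 < n → (cs.simple t * cs.simple s) ^ n ≠ 1)
    (hs : cs.length (w * cs.simple s) + 1 = cs.length w)
    (ht : cs.length (w * cs.simple t) + 1 = cs.length w) : False := by
  obtain ⟨p, _, hl⟩ := two_desc_aux cs w (cs.length w + 1) s t h1 h2 (desc_eta cs hs) (desc_eta cs ht)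
  omega

theorem comm_desc {w : W} {s t : B} (hne : cs.simple s ≠ cs.simple t)
    (hc : cs.simple s * cs.simple t = cs.simple t * cs.simple s)
    (ht : cs.length (w * cs.simple t) + 1 = cs.length w) :
    cs.length (w * cs.simple s * cs.simple t) + 1 = cs.length (w * cs.simple s) := by
  classical
  apply desc_of_eta
  rw [eta_mul, eta_simple, if_neg (Ne.symm hne), zero_add, hc, mul_assoc, mul_inv_cancel, mul_one]
  exact desc_eta cs ht

end Len

/-- **LEN** -/
theorem len : LEN := by
  intro V G
  classical
  let cs := (cox G).toCoxeterSystem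
  refine ⟨cs.length, cs.length_one, fun w h => cs.length_eq_zero_iff.1 h,
    fun w t => cs.length_mul_simple w t, fun w hw => ?_, fun w s t hne hs ht => ?_⟩
  · obtain ⟨t, h⟩ := cs.exists_rightDescent_of_ne_one hw
    exact ⟨t, cs.isRightDescent_iff.1 h⟩
  · have hadj : G.Adj s t := by
      by_contra hn
      have h1 := (PSPEC.spec V G).2.2 s t hne hn
      have h2 := (PSPEC.spec V G).2.2 t s hne.symm (fun h => hn h.symm)
      exact Len.two_desc cs h1 h2 hs ht
    refine ⟨hadj, ?_⟩
    have hne2 : cs.simple s ≠ cs.simple t := by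
      intro h
      have h0 : (cox G).simple s = (cox G).simple t := h
      have h3 := congrFun (congrArg (th G) h0) s
      have h4 := congrFun (th_simple G s) s
      have h5 := congrFun (th_simple G t) s
      rw [h4, h5, if_pos rfl, if_neg hne] at h3
      exact absurd h3 (by decide)
    exact Len.comm_desc cs hne2 (simple_comm G s t hadj) ht

end Pool.Agent.N496.CV
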