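import Pool.Agent.N496.CV.Stm0

/-!
# Project CV: adding a vertex (helper475)
-/

set_option autoImplicit false

noncomputable section

namespace Pool.Agent.N496.CV

open Pool.Agent.W907.SG Pool.Agent.W461.SGN

namespace LNKaux

section bdf

variable {V : Type} [Fintype V] [LinearOrder V] (G : SimpleGraph V) {R : Type} [AddCommGroup R]

theorem bdf_add (c d : Finset V → W G → R) : bdf G (c + d) = bdf G c + bdf G d := by
  funext T w
  show (∑ v ∈ Tᶜ, sg v T • (c (insert v T) w + d (insert v T) w)) = _
  simp only [smul_add, Finset.sum_add_distrib]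
  rfl

theorem bdf_neg (c : Finset V → W G → R) : bdf G (-c) = - bdf G c := by
  funext T w
  show (∑ v ∈ Tᶜ, sg v T • (- c (insert v T) w)) = - bdf G c T w
  simp only [smul_neg, Finset.sum_neg_distrib]
  rfl

theorem bdf_bdf (c : Finset V → W G → R) : bdf G (bdf G c) = 0 := by
  classical
  funext T w
  show (∑ v ∈ Tᶜ, sg v T • bdf G c (insert v T) w) = 0
  have h1 : ∀ v ∈ Tᶜ, sg v T • bdf G c (insert v T) w
      = ∑ u ∈ Tᶜ.erase v, (sg v T * sg u (insert v T)) • c (insert u (insert v T)) w := by
    intro v hv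
    unfold bdf
    rw [Finset.smul_sum]
    have : (insert v T)ᶜ = Tᶜ.erase v := by
      ext u; simp
    rw [this]
    exact Finset.sum_congr rfl fun u _ => by rw [smul_smul]
  rw [Finset.sum_congr rfl h1]
  rw [Finset.sum_sigma']
  refine Finset.sum_involution (fun (x : Σ _ : V, V) _ => ⟨x.2, x.1⟩) ?_ ?_ ?_ ?_
  · rintro ⟨v, u⟩ h
    simp only [Finset.mem_sigma, Finset.mem_compl, Finset.mem_erase] at h
    obtain ⟨hv, huv, hu⟩ := h
    simp only
    rw [Finset.insert_comm v u T, ← add_smul]
    have := sg_swap u v T huv hu hv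
    have h0 : sg v T * sg u (insert v T) + sg u T * sg v (insert u T) = 0 := by
      rw [mul_comm (sg v T), this]; ring
    rw [h0, zero_smul]
  · rintro ⟨v, u⟩ h _ h3
    simp only [Finset.mem_sigma, Finset.mem_compl, Finset.mem_erase] at h
    simp only [Sigma.mk.injEq, heq_eq_eq] at h3
    exact h.2.1 h3.1
  · rintro ⟨v, u⟩ h
    simp only [Finset.mem_sigma, Finset.mem_compl, Finset.mem_erase] at h ⊢
    exact ⟨h.2.2, fun e => h.2.1 e.symm, h.1⟩
  · rintro ⟨v, u⟩ _
    rfl

end bdf

section InM

variable {V : Type} {G : SimpleGraph V} {R : Type} [Ring R] {K : Subgroup (W G)} {u : K →* R} {Y : Set (W G)}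
  {E : Subgroup (W G × ℤˣ)}

theorem inM_zero : InM K u Y E (0 : W G → R) where
  supp w h := absurd rfl h
  eqE p _ w := by simp
  eqK h w := by simp
  fin := ⟨∅, fun w h => absurd rfl h⟩

theorem inM_neg {f : W G → R} (h : InM K u Y E f) : InM K u Y E (-f) where
  supp w hw := h.supp w fun h0 => hw (by simp [h0])
  eqE p hp w := by
    show - f (w * p.1) = _
    rw [h.eqE p hp w]
    simp
  eqK k w := by
    show - f (k * w) = - f w * _
    rw [h.eqK k w, neg_mul]
  fin := by
    obtain ⟨S, hS⟩ := h.fin
    exact ⟨S, fun w hw => hS w fun h0 => hw (by simp [h0])⟩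

theorem inM_add {f g : W G → R} (hf : InM K u Y E f) (hg : InM K u Y E g) : InM K u Y E (f + g) where
  supp w hw := by
    by_cases h0 : f w = 0
    · refine hg.supp w fun h1 => hw ?_
      show f w + g w = 0
      rw [h0, h1, add_zero]
    · exact hf.supp w h0
  eqE p hp w := by
    show f (w * p.1) + g (w * p.1) = _ • (f w + g w)
    rw [hf.eqE p hp w, hg.eqE p hp w, smul_add]
  eqK k w := by
    show f (k * w) + g (k * w) = (f w + g w) * _
    rw [hf.eqK k w, hg.eqK k w, add_mul]
  fin := by
    classical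
    obtain ⟨S, hS⟩ := hf.fin
    obtain ⟨S', hS'⟩ := hg.fin
    refine ⟨S ∪ S', fun w hw => ?_⟩
    by_cases h0 : f w = 0
    · have h1 : g w ≠ 0 := fun h1 => hw (by show f w + g w = 0; rw [h0, h1, add_zero])
      obtain ⟨k, x, hx, p, hp, e⟩ := hS' w h1
      exact ⟨k, x, Finset.mem_union_right _ hx, p, hp, e⟩
    · obtain ⟨k, x, hx, p, hp, e⟩ := hS w h0
      exact ⟨k, x, Finset.mem_union_left _ hx, p, hp, e⟩

theorem inM_sg {f : W G → R} (h : InM K u Y E f) {a : ℤ} (ha : a = 1 ∨ a = -1) :
    InM K u Y E (fun w => a • f w) := by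
  rcases ha with rfl | rfl
  · have : (fun w => (1 : ℤ) • f w) = f := by funext w; simp
    rw [this]; exact h
  · have : (fun w => (-1 : ℤ) • f w) = -f := by funext w; simp
    rw [this]; exact inM_neg h

/-- more equivariance -/
theorem inM_up {f : W G → R} (h : InM K u Y E f) {v : V} {e : ℤˣ}
    (hv : ∀ w, f (w * (cox G).simple v) = ((e : ℤˣ) : ℤ) • f w) : InM K u Y (addv E v e) f where
  supp := h.supp
  eqE := by
    let S : Subgroup (W G × ℤˣ) :=
      { carrier := {p | ∀ w, f (w * p.1) = ((p.2 : ℤˣ) : ℤ) • f w}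
        mul_mem' := by
          intro a b ha hb w
          show f (w * (a.1 * b.1)) = (((a.2 * b.2 : ℤˣ)) : ℤ) • f w
          rw [← mul_assoc, hb, ha, smul_smul, Units.val_mul, mul_comm]
        one_mem' := by
          intro w
          show f (w * 1) = ((1 : ℤˣ) : ℤ) • f w
          simp
        inv_mem' := by
          intro a ha w
          show f (w * a.1⁻¹) = ((a.2⁻¹ : ℤˣ) : ℤ) • f w
          have h1 := ha (w * a.1⁻¹)
          rw [inv_mul_cancel_right] at h1
          rw [h1, smul_smul, ← Units.val_mul, inv_mul_cancel, Units.val_one, one_smul] }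
    have hle : addv E v e ≤ S := by
      refine sup_le (fun p hp => h.eqE p hp) ?_
      rw [Subgroup.closure_le]
      rintro p hp
      rw [Set.mem_singleton_iff] at hp
      subst hp
      exact hv
    exact fun p hp => hle hp
  eqK := h.eqK
  fin := by
    obtain ⟨S, hS⟩ := h.fin
    refine ⟨S, fun w hw => ?_⟩
    obtain ⟨k, x, hx, p, hp, e⟩ := hS w hw
    exact ⟨k, x, hx, p, Subgroup.mem_sup_left hp, e⟩

theorem simple_mem {v : V} {e : ℤˣ} : ((cox G).simple v, e) ∈ addv E v e :=
  Subgroup.mem_sup_right (Subgroup.subset_closure rfl)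

/-- the elements of `addv` -/
theorem mem_addv {v : V} {e : ℤˣ} (hc : ∀ p ∈ E, p.1 * (cox G).simple v = (cox G).simple v * p.1)
    {p : W G × ℤˣ} (hp : p ∈ addv E v e) : p ∈ E ∨ ∃ q ∈ E, p = ((cox G).simple v, e) * q := by
  have h2 : ((cox G).simple v, e) * ((cox G).simple v, e) = 1 := by
    rw [Prod.mk_mul_mk, simple_mul_self, Int.units_mul_self]
    rfl
  have hcc : ∀ q ∈ E, q * ((cox G).simple v, e) = ((cox G).simple v, e) * q := fun q hq =>
    Prod.ext (hc q hq) (mul_comm _ _)
  let S : Subgroup (W G × ℤˣ) :=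
    { carrier := {p | p ∈ E ∨ ∃ q ∈ E, p = ((cox G).simple v, e) * q}
      mul_mem' := by
        rintro a b (ha | ⟨q, hq, rfl⟩) (hb | ⟨r, hr, rfl⟩)
        · exact Or.inl (E.mul_mem ha hb)
        · refine Or.inr ⟨a * r, E.mul_mem ha hr, ?_⟩
          rw [← mul_assoc, hcc a ha, mul_assoc]
        · exact Or.inr ⟨q * b, E.mul_mem hq hb, by rw [mul_assoc]⟩
        · refine Or.inl ?_
          have : ((cox G).simple v, e) * q * (((cox G).simple v, e) * r) = q * r := by
            rw [← hcc q hq, mul_assoc, ← mul_assoc ((cox G).simple v, e), h2, one_mul]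
          rw [this]
          exact E.mul_mem hq hr
      one_mem' := Or.inl E.one_mem
      inv_mem' := by
        rintro a (ha | ⟨q, hq, rfl⟩)
        · exact Or.inl (E.inv_mem ha)
        · refine Or.inr ⟨q⁻¹, E.inv_mem hq, ?_⟩
          rw [← hcc q⁻¹ (E.inv_mem hq), mul_inv_rev]
          congr 1
          exact inv_eq_of_mul_eq_one_left h2 }
  have hle : addv E v e ≤ S := by
    refine sup_le (fun p hp => Or.inl hp) ?_
    rw [Subgroup.closure_le]
    rintro p hp
    rw [Set.mem_singleton_iff] at hp
    subst hp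
    exact Or.inr ⟨1, E.one_mem, by rw [mul_one]⟩
  exact hle hp

/-- less equivariance -/
theorem inM_down {f : W G → R} {v : V} {e : ℤˣ} (h : InM K u Y (addv E v e) f)
    (hc : ∀ p ∈ E, p.1 * (cox G).simple v = (cox G).simple v * p.1) : InM K u Y E f where
  supp := h.supp
  eqE p hp := h.eqE p (Subgroup.mem_sup_left hp)
  eqK := h.eqK
  fin := by
    classical
    obtain ⟨S, hS⟩ := h.fin
    refine ⟨S ∪ S.image (fun x => x * (cox G).simple v), fun w hw => ?_⟩
    obtain ⟨k, x, hx, p, hp, e1⟩ := hS w hw
    rcases mem_addv hc hp with h1 | ⟨q, hq, rfl⟩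
    · exact ⟨k, x, Finset.mem_union_left _ hx, p, h1, e1⟩
    · refine ⟨k, x * (cox G).simple v, Finset.mem_union_right _ (Finset.mem_image_of_mem _ hx), q, hq, ?_⟩
      rw [e1]
      show _ * x * ((cox G).simple v * q.1) = _
      simp only [mul_assoc]

end InM

theorem comm_of_good {V : Type} [Fintype V] [LinearOrder V] {G : SimpleGraph V} {K : Subgroup (W G)} {L : Set V}
    {Y : Set (W G)} {E : Subgroup (W G × ℤˣ)} (h : Good K L Y E) {v : V} (hv : v ∈ L) :
    ∀ p ∈ E, p.1 * (cox G).simple v = (cox G).simple v * p.1 := by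
  obtain ⟨Q, hQ, hQL⟩ := h.comm
  intro p hp
  have h1 : Subgroup.closure ((cox G).simple '' Q) ≤ Subgroup.centralizer {(cox G).simple v} := by
    rw [Subgroup.closure_le]
    rintro _ ⟨q, hq, rfl⟩
    rw [SetLike.mem_coe, Subgroup.mem_centralizer_iff]
    intro x hx
    rw [Set.mem_singleton_iff] at hx
    subst hx
    exact (simple_comm G q v (hQL q hq v hv)).symm
  have h2 := h1 (hQ p hp)
  rw [Subgroup.mem_centralizer_iff] at h2
  exact (h2 _ rfl).symm

end LNKaux

open LNKaux

theorem lnk : LNK := by
  classical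
  intro V _ _ G K R _ u L C Y E v i _ hG hvL _ hvC h1 h2 z hz hz0
  have hc := comm_of_good hG hvL
  have hbd0 : ∀ T w, bdf G z T w = 0 := fun T w => by rw [hz0]; rfl
  -- the link part
  obtain ⟨zv, hzv⟩ : ∃ zv : Finset V → W G → R, zv = fun T w =>
    if v ∈ T then 0 else sg v T • z (insert v T) w := ⟨_, rfl⟩
  have zv1 : ∀ T, v ∈ T → zv T = 0 := fun T hT => by rw [hzv]; funext w; simp [hT]
  have zv2 : ∀ T, v ∉ T → zv T = fun w => sg v T • z (insert v T) w := fun T hT => by
    rw [hzv]; funext w; simp [hT]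
  have hzvch : IsCh G (C ∩ G.neighborSet v) (InM K u Y (addv E v (-1))) i zv := by
    refine ⟨fun T hT => ?_, fun T => ?_, fun T t ht w => ?_⟩
    · by_cases hv : v ∈ T
      · exact zv1 T hv
      · rw [zv2 T hv]
        have : z (insert v T) = 0 := by
          refine hz.supp _ ?_
          rintro ⟨a, b, c⟩
          apply hT
          refine ⟨a.subset (by simp), fun x hx => ⟨?_, ?_⟩, ?_⟩
          · rcases b (by simp only [Finset.coe_insert, Set.mem_insert_iff]; exact Or.inr hx) with h | h
            · subst h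
              exact absurd hx (by simpa using hv)
            · exact h
          · have hxv : v ≠ x := fun h => hv (by rw [h]; exact_mod_cast hx)
            exact a (by simp) (by simp only [Finset.coe_insert, Set.mem_insert_iff]; exact Or.inr hx) hxv
          · rw [Finset.card_insert_of_notMem hv] at c
            omega
        funext w
        rw [this]
        simp
    · by_cases hv : v ∈ T
      · rw [zv1 T hv]; exact inM_zero
      · rw [zv2 T hv]
        refine inM_sg (inM_up (hz.mem _) fun w => ?_) (sg_eq_or v T)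
        rw [hz.anti (insert v T) v (Finset.mem_insert_self _ _) w]
        simp
    · by_cases hv : v ∈ T
      · rw [zv1 T hv]; simp
      · rw [zv2 T hv]
        show _ • z (insert v T) _ = - (_ • z (insert v T) _)
        rw [hz.anti (insert v T) t (Finset.mem_insert_of_mem ht) w, smul_neg]
  have hzv0 : bdf G zv = 0 := by
    funext ρ w
    show (∑ x ∈ ρᶜ, sg x ρ • zv (insert x ρ) w) = 0
    by_cases hv : v ∈ ρ
    · refine Finset.sum_eq_zero fun x _ => ?_
      rw [zv1 _ (Finset.mem_insert_of_mem hv)]
      simp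
    · have hvc : v ∈ ρᶜ := Finset.mem_compl.2 hv
      rw [← Finset.add_sum_erase _ _ hvc, zv1 _ (Finset.mem_insert_self _ _), Pi.zero_apply, smul_zero, zero_add]
      have hins : (insert v ρ)ᶜ = ρᶜ.erase v := by
        ext x; simp
      have e1 : ∑ x ∈ ρᶜ.erase v, sg x ρ • zv (insert x ρ) w =
          ∑ x ∈ ρᶜ.erase v, (- sg v ρ) • (sg x (insert v ρ) • z (insert x (insert v ρ)) w) := by
        refine Finset.sum_congr rfl fun x hx => ?_
        rw [Finset.mem_erase, Finset.mem_compl] at hx
        obtain ⟨hxv, hxρ⟩ := hx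
        have hv' : v ∉ insert x ρ := by
          rw [Finset.mem_insert]; push Not; exact ⟨fun h => hxv h.symm, hv⟩
        rw [zv2 _ hv']
        show sg x ρ • (sg v (insert x ρ) • z (insert v (insert x ρ)) w) = _
        rw [smul_smul, smul_smul, Finset.insert_comm v x ρ]
        congr 1
        have := sg_swap x v ρ hxv hxρ hv
        linear_combination this
      rw [e1, ← Finset.smul_sum, ← hins]
      have := hbd0 (insert v ρ) w
      unfold bdf at this
      rw [this, smul_zero]
  obtain ⟨e, he, hbe⟩ := h2 zv hzvch hzv0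
  -- the lift
  obtain ⟨f, hf⟩ : ∃ f : Finset V → W G → R, f = fun T w =>
    if v ∈ T then sg v (T.erase v) • e (T.erase v) w else 0 := ⟨_, rfl⟩
  have f1 : ∀ T, v ∈ T → f T = fun w => sg v (T.erase v) • e (T.erase v) w := fun T hT => by
    rw [hf]; funext w; simp [hT]
  have f2 : ∀ T, v ∉ T → f T = 0 := fun T hT => by rw [hf]; funext w; simp [hT]
  have he' : ∀ T : Finset V, v ∈ T → e T = 0 := fun T hT => by
    refine he.supp T ?_
    rintro ⟨-, b, -⟩
    exact hvC (b (by exact_mod_cast hT)).1
  have heM : ∀ T, InM K u Y E (e T) := fun T => inM_down (he.mem T) hc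
  have hfch : IsCh G (insert v C) (InM K u Y E) (i + 1 + 1) f := by
    refine ⟨fun T hT => ?_, fun T => ?_, fun T t ht w => ?_⟩
    · by_cases hv : v ∈ T
      · rw [f1 T hv]
        have : e (T.erase v) = 0 := by
          refine he.supp _ ?_
          rintro ⟨a, b, c⟩
          apply hT
          have hT' : T = insert v (T.erase v) := (Finset.insert_erase hv).symm
          refine ⟨?_, ?_, ?_⟩
          · rw [hT', Finset.coe_insert, SimpleGraph.isClique_insert]
            exact ⟨a, fun x hx _ => (b hx).2⟩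
          · intro x hx
            by_cases hxv : x = v
            · exact Or.inl hxv
            · refine Or.inr (b ?_).1
              rw [Finset.mem_coe, Finset.mem_erase]
              exact ⟨hxv, by exact_mod_cast hx⟩
          · rw [hT', Finset.card_insert_of_notMem (Finset.notMem_erase _ _), c]
        funext w
        rw [this]
        simp
      · exact f2 T hv
    · by_cases hv : v ∈ T
      · rw [f1 T hv]
        exact inM_sg (heM _) (sg_eq_or _ _)
      · rw [f2 T hv]; exact inM_zero
    · by_cases hv : v ∈ T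
      · rw [f1 T hv]
        show _ • e (T.erase v) _ = - (_ • e (T.erase v) _)
        rw [← smul_neg]
        congr 1
        by_cases htv : t = v
        · subst htv
          have := (he.mem (T.erase t)).eqE _ simple_mem w
          rw [this]
          simp
        · exact he.anti (T.erase v) t (Finset.mem_erase.2 ⟨htv, ht⟩) w
      · rw [f2 T hv]; simp
  have hbf1 : ∀ ρ, v ∉ ρ → bdf G f ρ = e ρ := by
    intro ρ hv
    funext w
    show (∑ x ∈ ρᶜ, sg x ρ • f (insert x ρ) w) = _
    rw [Finset.sum_eq_single v]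
    · rw [f1 _ (Finset.mem_insert_self _ _), Finset.erase_insert hv]
      show sg v ρ • (sg v ρ • e ρ w) = _
      rw [smul_smul, sg_mul_self, one_smul]
    · intro x _ hxv
      rw [f2 (insert x ρ) (by rw [Finset.mem_insert]; push Not; exact ⟨fun h => hxv h.symm, hv⟩)]
      simp
    · intro h
      exact absurd (Finset.mem_compl.2 hv) h
  have hbf2 : ∀ ρ, v ∈ ρ → ∀ w, bdf G f ρ w = - z ρ w := by
    intro ρ hv w
    obtain ⟨σ, hσ⟩ : ∃ σ, σ = ρ.erase v := ⟨_, rfl⟩
    have hvσ : v ∉ σ := by rw [hσ]; exact Finset.notMem_erase _ _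
    have hρ : ρ = insert v σ := by rw [hσ]; exact (Finset.insert_erase hv).symm
    rw [hρ]
    show (∑ x ∈ (insert v σ)ᶜ, sg x (insert v σ) • f (insert x (insert v σ)) w) = _
    have hins : (insert v σ)ᶜ = σᶜ.erase v := by
      ext x; simp
    rw [hins]
    have e1 : ∑ x ∈ σᶜ.erase v, sg x (insert v σ) • f (insert x (insert v σ)) w =
        ∑ x ∈ σᶜ.erase v, (- sg v σ) • (sg x σ • e (insert x σ) w) := by
      refine Finset.sum_congr rfl fun x hx => ?_
      rw [Finset.mem_erase, Finset.mem_compl] at hx
      obtain ⟨hxv, hxσ⟩ := hx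
      have hv' : v ∉ insert x σ := by
        rw [Finset.mem_insert]; push Not; exact ⟨fun h => hxv h.symm, hvσ⟩
      rw [Finset.insert_comm x v σ, f1 _ (Finset.mem_insert_self _ _), Finset.erase_insert hv']
      show sg x (insert v σ) • (sg v (insert x σ) • e (insert x σ) w) = _
      rw [smul_smul, smul_smul]
      congr 1
      have h3 := sg_swap x v σ hxv hxσ hvσ
      have h4 := sg_mul_self x σ
      have h5 := sg_mul_self v σ
      have h6 := sg_mul_self v (insert x σ)
      -- sg x (insert v σ) * sg v σ = - (sg v (insert x σ) * sg x σ)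
      have h7 : sg x (insert v σ) = - (sg v (insert x σ) * sg x σ) * sg v σ := by
        rw [← h3, mul_assoc, h5, mul_one]
      rw [h7]
      linear_combination (- sg x σ * sg v σ) * h6
    rw [e1, ← Finset.smul_sum]
    have h3 : ∑ x ∈ σᶜ.erase v, sg x σ • e (insert x σ) w = zv σ w := by
      have h4 := congrFun (congrFun hbe σ) w
      rw [← h4]
      show _ = ∑ x ∈ σᶜ, sg x σ • e (insert x σ) w
      rw [← Finset.add_sum_erase _ _ (Finset.mem_compl.2 hvσ), he' _ (Finset.mem_insert_self _ _)]
      simp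
    rw [h3, zv2 σ hvσ]
    show (- sg v σ) • (sg v σ • z (insert v σ) w) = _
    rw [smul_smul, neg_mul, sg_mul_self, neg_smul, one_smul]
  -- the rest
  have hz'ch : IsCh G C (InM K u Y E) (i + 1) (z + bdf G f) := by
    refine ⟨fun T hT => ?_, fun T => ?_, fun T t ht w => ?_⟩
    · funext w
      show z T w + bdf G f T w = 0
      by_cases hv : v ∈ T
      · rw [hbf2 T hv, add_neg_cancel]
      · rw [hbf1 T hv]
        have a1 : z T = 0 := by
          refine hz.supp T ?_
          rintro ⟨a, b, c⟩
          apply hT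
          refine ⟨a, fun x hx => ?_, c⟩
          rcases b hx with h | h
          · subst h
            exact absurd (by exact_mod_cast hx) hv
          · exact h
        have a2 : e T = 0 := by
          refine he.supp T ?_
          rintro ⟨a, b, c⟩
          exact hT ⟨a, fun x hx => (b hx).1, c⟩
        rw [a1, a2]
        simp
    · show InM K u Y E (z T + bdf G f T)
      by_cases hv : v ∈ T
      · have : z T + bdf G f T = 0 := by
          funext w
          show z T w + bdf G f T w = 0
          rw [hbf2 T hv, add_neg_cancel]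
        rw [this]
        exact inM_zero
      · rw [hbf1 T hv]
        exact inM_add (hz.mem T) (heM T)
    · show z T _ + bdf G f T _ = - (z T w + bdf G f T w)
      by_cases hv : v ∈ T
      · rw [hbf2 T hv, hbf2 T hv, add_neg_cancel, add_neg_cancel, neg_zero]
      · rw [hbf1 T hv, hz.anti T t ht, he.anti T t ht, neg_add]
  have hz'0 : bdf G (z + bdf G f) = 0 := by
    rw [bdf_add, hz0, bdf_bdf, add_zero]
  obtain ⟨e', he'', hbe'⟩ := h1 _ hz'ch hz'0
  refine ⟨e' + -f, ⟨fun T hT => ?_, fun T => ?_, fun T t ht w => ?_⟩, ?_⟩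
  · show e' T + -f T = 0
    rw [hfch.supp T hT, he''.supp T ?_]
    · simp
    · rintro ⟨a, b, c⟩
      exact hT ⟨a, fun x hx => Or.inr (b hx), c⟩
  · exact inM_add (he''.mem T) (inM_neg (hfch.mem T))
  · show e' T _ + - f T _ = - (e' T w + - f T w)
    rw [he''.anti T t ht, hfch.anti T t ht, neg_add]
  · rw [bdf_add, bdf_neg, hbe']
    abel

end Pool.Agent.N496.CV
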