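import Pool.Agent.N496.CV.Stm0
import Pool.Agent.Helper655.VNDefs
import Pool.Agent.RK.Defs

/-!
# Project CV: `L²`-Betti numbers of arbitrary covers of Davis manifolds. The top degree.

`W G` acts on functions `W G → R` from the right, `(f · x) w = f (w x)`. Chains are families `c T : W G → R`, `T` a
clique, with `c T (w t) = - c T w` for `t ∈ T`.
-/

set_option autoImplicit false

noncomputable section

namespace Pool.Agent.N496.CV

open Pool.Agent.W907.SG Pool.Agent.W461.SGN Pool.Agent.Helper655.VN Pool.Agent.RK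

/-- the localisation of the group von Neumann algebra of a torsion free group -/
def RU : Prop := ∀ (K : Type) [Group K] (U : Type) [Ring U] (ι : NG K →+* U), Loc ι →
    (∀ (k : K) (n : ℕ), 0 < n → k ^ n = 1 → k = 1) →
    IsUnit (2 : U) ∧ ∀ h : K, h ≠ 1 → IsUnit (1 - ι (canL h))

/-- the top degree -/
def TOP : Prop := ∀ (V : Type) [Fintype V] [LinearOrder V] (G : SimpleGraph V) (K : Subgroup (W G)) (U : Type)
    [Ring U] (ι : NG K →+* U) (u : K →* U) (L C : Set V) (Y : Set (W G)) (E : Subgroup (W G × ℤˣ)) (i : ℕ),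
    Loc ι → (∀ h, u h = ι (canL h)) → Good K L Y E → C ⊆ L → (∀ [Fintype C] [LinearOrder C], L2Van (G.induce C) i) →
    (∀ T : Finset V, G.IsClique (T : Set V) → (T : Set V) ⊆ C → T.card ≤ i) →
    ∀ c, IsCh G C (InM K u Y E) i c → bdf G c = 0 → c = 0

end Pool.Agent.N496.CV
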