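import Mathlib
import Pool.Agent.N496.CV.Stm2

/-!
# Project CV (helper496), part RU (helper946): the localisation of the group von Neumann algebra
-/

set_option autoImplicit false

noncomputable section

namespace Pool.Agent.N496.CV

open Pool.Agent.W907.SG Pool.Agent.W461.SGN Pool.Agent.Helper655.VN Pool.Agent.RK

theorem P_RU_nz {K : Type} [Group K] (h : K) (hinj : Function.Injective (fun n : ℕ => h ^ n)) :
    Nz (1 - canL h : NG K) := by
  intro x hx
  have h1 : (x : EllTwo K →L[ℂ] EllTwo K) * lam K h = x := by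
    have h3 : (x : EllTwo K →L[ℂ] EllTwo K) * (1 - lam K h) = 0 := congrArg Subtype.val hx
    rw [mul_sub, mul_one, sub_eq_zero] at h3
    exact h3.symm
  obtain ⟨v, hv⟩ : ∃ v : EllTwo K, v = (x : EllTwo K →L[ℂ] EllTwo K) (dl 1) := ⟨_, rfl⟩
  have hg : ∀ g : K, (x : EllTwo K →L[ℂ] EllTwo K) (dl g) = rho K g⁻¹ v := by
    intro g
    have h4 := (mem_NG _).1 x.2 g⁻¹
    have h5 : rho K g⁻¹ ((x : EllTwo K →L[ℂ] EllTwo K) (dl 1)) =
        (x : EllTwo K →L[ℂ] EllTwo K) (rho K g⁻¹ (dl 1)) :=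
      congrArg (fun t : EllTwo K →L[ℂ] EllTwo K => t (dl 1)) h4
    rw [rho_dl, inv_inv, one_mul] at h5
    rw [hv]
    exact h5.symm
  have h6 : rho K h⁻¹ v = v := by
    rw [← hg h]
    have h7 : (x : EllTwo K →L[ℂ] EllTwo K) (lam K h (dl 1)) =
        (x : EllTwo K →L[ℂ] EllTwo K) (dl 1) :=
      congrArg (fun t : EllTwo K →L[ℂ] EllTwo K => t (dl 1)) h1
    rw [lam_dl, mul_one] at h7
    rw [h7, hv]
  have h8 : ∀ k, v (k * h⁻¹) = v k := by
    intro k
    have h9 : (rho K h⁻¹ v) k = v k := congrArg (fun f : EllTwo K => f k) h6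
    exact h9
  have h10 : ∀ (n : ℕ) (k : K), v (k * (h ^ n)⁻¹) = v k := by
    intro n
    induction n with
    | zero =>
      intro k
      rw [pow_zero, inv_one, mul_one]
    | succ n ih =>
      intro k
      rw [pow_succ', mul_inv_rev, ← mul_assoc, h8, ih]
  have h0 : ∀ k, v k = 0 := by
    intro k
    have hs := (lp.memℓp v).summable (by norm_num)
    have hi : Function.Injective (fun n : ℕ => k * (h ^ n)⁻¹) := by
      intro a b hab
      exact hinj (inv_injective (mul_left_cancel hab))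
    have hs2 := hs.comp_injective hi
    have hs3 : Summable (fun _ : ℕ => ‖v k‖ ^ (2 : ENNReal).toReal) := by
      refine hs2.congr fun n => ?_
      change ‖v (k * (h ^ n)⁻¹)‖ ^ (2 : ENNReal).toReal = _
      rw [h10]
    have h11 := (summable_const_iff _).1 hs3
    by_contra hne
    have h12 : 0 < ‖v k‖ := norm_pos_iff.2 hne
    have h13 : 0 < ‖v k‖ ^ (2 : ENNReal).toReal := Real.rpow_pos_of_pos h12 _
    exact h13.ne' h11
  have hv0 : v = 0 := by
    ext k
    exact h0 k
  apply Subtype.ext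
  apply ext_dl
  intro g
  rw [hg g, hv0, map_zero]
  rfl

theorem ru : RU := by
  intro K _ U _ ι hL htf
  constructor
  · have h1 : IsUnit ((algebraMap ℂ (NG K)) 2) :=
      (isUnit_iff_ne_zero.2 (two_ne_zero : (2 : ℂ) ≠ 0)).map (algebraMap ℂ (NG K))
    have h2 : (algebraMap ℂ (NG K)) 2 = 2 := map_ofNat _ 2
    rw [h2] at h1
    have h3 := h1.map ι
    rwa [map_ofNat] at h3
  · intro h hh
    have h1 : ι (1 - canL h) = 1 - ι (canL h) := by rw [map_sub, map_one]
    rw [← h1]
    refine hL.unit _ (P_RU_nz h ?_)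
    rw [injective_pow_iff_not_isOfFinOrder, isOfFinOrder_iff_pow_eq_one]
    rintro ⟨n, hn, hn1⟩
    exact hh (htf h n hn hn1)

end Pool.Agent.N496.CV
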