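import Pool.Agent.N496.CV.Stm0

/-!
# Project CV: suspensions

The vanishing of the homology of a suspension with coefficients in `InM K u Y E`, from the vanishing for the base with
coefficients in the functions which are invariant under the infinite dihedral group.
-/

set_option autoImplicit false
set_option linter.unusedSectionVars false

noncomputable section

namespace Pool.Agent.N496.CV.PSUS

open Pool.Agent.W907.SG Pool.Agent.W461.SGN Pool.Agent.N496.CV

variable {V : Type} [Fintype V] [LinearOrder V] {G : SimpleGraph V} {R : Type}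

section bd

variable [AddCommGroup R]

theorem bdf_apply (c : Finset V → W G → R) (T : Finset V) :
    bdf G c T = ∑ v ∈ Tᶜ, sg v T • c (insert v T) := by
  funext w
  simp [bdf, Finset.sum_apply]

theorem bdf_bdf (c : Finset V → W G → R) : bdf G (bdf G c) = 0 := by
  classical
  funext T
  rw [bdf_apply]
  have h1 : ∀ v ∈ Tᶜ, sg v T • bdf G c (insert v T)
      = ∑ u ∈ Tᶜ.erase v, (sg v T * sg u (insert v T)) • c (insert u (insert v T)) := by
    intro v hv
    rw [bdf_apply, Finset.smul_sum]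
    have : (insert v T)ᶜ = Tᶜ.erase v := by
      ext u; simp
    rw [this]
    exact Finset.sum_congr rfl fun u _ => by rw [smul_smul]
  rw [Finset.sum_congr rfl h1]
  rw [Finset.sum_sigma']
  refine Finset.sum_involution (fun (x : Σ _ : V, V) _ => ⟨x.2, x.1⟩) ?_ ?_ ?_ ?_
  · rintro ⟨v, u⟩ h
    simp only [Finset.mem_sigma, Finset.mem_compl, Finset.mem_erase] at h
    obtain ⟨hv, huv, hu⟩ := h
    simp only
    rw [Finset.insert_comm v u T, ← add_smul]
    have := sg_swap u v T huv hu hv
    have h0 : sg v T * sg u (insert v T) + sg u T * sg v (insert u T) = 0 := by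
      rw [mul_comm (sg v T), this]; ring
    rw [h0, zero_smul]
  · rintro ⟨v, u⟩ h _ h3
    simp only [Finset.mem_sigma, Finset.mem_compl, Finset.mem_erase] at h
    simp only [Sigma.mk.injEq, heq_eq_eq] at h3
    exact h.2.1 h3.1
  · rintro ⟨v, u⟩ h
    simp only [Finset.mem_sigma, Finset.mem_compl, Finset.mem_erase] at h ⊢
    exact ⟨h.2.2, fun e => h.2.1 e.symm, h.1⟩
  · rintro ⟨v, u⟩ _
    rfl

theorem bdf_sub (c d : Finset V → W G → R) : bdf G (c - d) = bdf G c - bdf G d := by
  funext T w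
  simp [bdf, smul_sub, Finset.sum_sub_distrib]

theorem bdf_add (c d : Finset V → W G → R) : bdf G (c + d) = bdf G c + bdf G d := by
  funext T w
  simp [bdf, smul_add, Finset.sum_add_distrib]

theorem ch_bd {C : Set V} {A : AddSubgroup (W G → R)} {i : ℕ} {c : Finset V → W G → R}
    (h : IsCh G C (fun f => f ∈ A) (i + 1) c) : IsCh G C (fun f => f ∈ A) i (bdf G c) where
  supp T hT := by
    rw [bdf_apply]
    refine Finset.sum_eq_zero fun v hv => ?_
    rw [h.supp (insert v T), smul_zero]
    rintro ⟨h3, h4, h5⟩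
    apply hT
    refine ⟨h3.subset (by simp), fun x hx => h4 (by simp at hx ⊢; exact Or.inr hx), ?_⟩
    rw [Finset.card_insert_of_notMem (by simpa using hv)] at h5
    omega
  mem T := by
    rw [bdf_apply]
    exact A.sum_mem fun v _ => A.zsmul_mem (h.mem _) _
  anti T t ht w := by
    simp only [bdf]
    rw [← Finset.sum_neg_distrib]
    refine Finset.sum_congr rfl fun v _ => ?_
    rw [h.anti (insert v T) t (by simp [ht]) w, smul_neg]

theorem ch_sub {C : Set V} {A : AddSubgroup (W G → R)} {i : ℕ} {c d : Finset V → W G → R}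
    (h : IsCh G C (fun f => f ∈ A) i c) (h' : IsCh G C (fun f => f ∈ A) i d) :
    IsCh G C (fun f => f ∈ A) i (c - d) where
  supp T hT := by rw [Pi.sub_apply, h.supp T hT, h'.supp T hT, sub_zero]
  mem T := A.sub_mem (h.mem T) (h'.mem T)
  anti T t ht w := by
    rw [Pi.sub_apply, Pi.sub_apply, Pi.sub_apply, h.anti T t ht, h'.anti T t ht]; abel

theorem ch_add {C : Set V} {A : AddSubgroup (W G → R)} {i : ℕ} {c d : Finset V → W G → R}
    (h : IsCh G C (fun f => f ∈ A) i c) (h' : IsCh G C (fun f => f ∈ A) i d) :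
    IsCh G C (fun f => f ∈ A) i (c + d) where
  supp T hT := by rw [Pi.add_apply, h.supp T hT, h'.supp T hT, add_zero]
  mem T := A.add_mem (h.mem T) (h'.mem T)
  anti T t ht w := by
    rw [Pi.add_apply, Pi.add_apply, Pi.add_apply, h.anti T t ht, h'.anti T t ht]; abel

theorem ch_mono {C D : Set V} {A : AddSubgroup (W G → R)} {i : ℕ} {c : Finset V → W G → R} (hCD : C ⊆ D)
    (h : IsCh G C (fun f => f ∈ A) i c) : IsCh G D (fun f => f ∈ A) i c where
  supp T hT := h.supp T fun h1 => hT ⟨h1.1, h1.2.1.trans hCD, h1.2.2⟩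
  mem := h.mem
  anti := h.anti

end bd

section coef

variable [Ring R] {K : Subgroup (W G)} {u : K →* R} {L : Set V} {Y : Set (W G)} {E : Subgroup (W G × ℤˣ)}

variable (K u Y E) in
/-- the coefficients as an additive subgroup -/
def IM : AddSubgroup (W G → R) where
  carrier := {f | InM K u Y E f}
  zero_mem' :=
    { supp := fun w h => absurd rfl h
      eqE := fun p _ w => by simp
      eqK := fun h w => by simp
      fin := ⟨∅, fun w h => absurd rfl h⟩ }
  add_mem' := by
    classical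
    rintro f g hf hg
    refine ⟨fun w h => ?_, fun p hp w => ?_, fun h w => ?_, ?_⟩
    · by_cases hw : f w = 0
      · refine hg.supp w fun h' => h ?_
        rw [Pi.add_apply, hw, h', add_zero]
      · exact hf.supp w hw
    · rw [Pi.add_apply, Pi.add_apply, hf.eqE p hp, hg.eqE p hp, smul_add]
    · rw [Pi.add_apply, Pi.add_apply, hf.eqK, hg.eqK, add_mul]
    · obtain ⟨S, hS⟩ := hf.fin
      obtain ⟨S', hS'⟩ := hg.fin
      refine ⟨S ∪ S', fun w h => ?_⟩
      by_cases hw : f w = 0
      · obtain ⟨k, x, hx, p, hp, e⟩ := hS' w fun h' => h (by rw [Pi.add_apply, hw, h', add_zero])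
        exact ⟨k, x, Finset.mem_union_right _ hx, p, hp, e⟩
      · obtain ⟨k, x, hx, p, hp, e⟩ := hS w hw
        exact ⟨k, x, Finset.mem_union_left _ hx, p, hp, e⟩
  neg_mem' := by
    rintro f hf
    refine ⟨fun w h => ?_, fun p hp w => ?_, fun h w => ?_, ?_⟩
    · exact hf.supp w fun h' => h (by rw [Pi.neg_apply, h', neg_zero])
    · rw [Pi.neg_apply, Pi.neg_apply, hf.eqE p hp, smul_neg]
    · rw [Pi.neg_apply, Pi.neg_apply, hf.eqK, neg_mul]
    · obtain ⟨S, hS⟩ := hf.fin
      exact ⟨S, fun w h => hS w fun h' => h (by rw [Pi.neg_apply, h', neg_zero])⟩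

theorem mem_IM {f : W G → R} : f ∈ IM K u Y E ↔ InM K u Y E f := Iff.rfl

theorem comm_simple (h : Good K L Y E) {p : W G × ℤˣ} (hp : p ∈ E) {v : V}
    (hv : v ∈ L) : p.1 * (cox G).simple v = (cox G).simple v * p.1 := by
  obtain ⟨Q, hQ1, hQ2⟩ := h.comm
  have hle : Subgroup.closure ((cox G).simple '' Q) ≤ Subgroup.centralizer {(cox G).simple v} := by
    rw [Subgroup.closure_le]
    rintro _ ⟨q, hq, rfl⟩
    rw [SetLike.mem_coe, Subgroup.mem_centralizer_iff]
    intro x hx
    rw [Set.mem_singleton_iff] at hx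
    subst hx
    exact (simple_comm G q v (hQ2 q hq v hv)).symm
  have := hle (hQ1 p hp)
  rw [Subgroup.mem_centralizer_iff] at this
  exact (this _ rfl).symm

/-- the right translation by a generator -/
theorem mem_rt (hG : Good K L Y E) {f : W G → R} (hf : InM K u Y E f) {v : V} (hv : v ∈ L) :
    InM K u Y E (fun w => f (w * (cox G).simple v)) := by
  classical
  refine ⟨fun w h => ?_, fun p hp w => ?_, fun h w => ?_, ?_⟩
  · have h1 := hG.YL v hv _ (hf.supp _ h)
    rwa [mul_assoc, simple_mul_self, mul_one] at h1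
  · show f (w * p.1 * (cox G).simple v) = _
    rw [mul_assoc, comm_simple hG hp hv, ← mul_assoc]
    exact hf.eqE p hp _
  · show f (h * w * (cox G).simple v) = _
    rw [mul_assoc]
    exact hf.eqK h _
  · obtain ⟨S, hS⟩ := hf.fin
    refine ⟨S.image (fun x => x * (cox G).simple v), fun w h => ?_⟩
    obtain ⟨k, x, hx, p, hp, e⟩ := hS _ h
    refine ⟨k, x * (cox G).simple v, Finset.mem_image_of_mem _ hx, p, hp, ?_⟩
    have h1 : w = w * (cox G).simple v * (cox G).simple v := by
      rw [mul_assoc, simple_mul_self, mul_one]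
    rw [h1, e]
    simp only [mul_assoc]
    rw [comm_simple hG hp hv]

/-- the multiplication by a central scalar -/
theorem mem_sc {c : R} (hc : ∀ x : R, Commute x c) {f : W G → R} (hf : InM K u Y E f) :
    InM K u Y E (fun w => f w * c) := by
  refine ⟨fun w h => ?_, fun p hp w => ?_, fun h w => ?_, ?_⟩
  · exact hf.supp w fun h' => h (by simp only [h', zero_mul])
  · show f (w * p.1) * c = _
    rw [hf.eqE p hp, smul_mul_assoc]
  · show f (h * w) * c = _
    rw [hf.eqK h, mul_assoc, (hc _).eq, ← mul_assoc]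
  · obtain ⟨S, hS⟩ := hf.fin
    exact ⟨S, fun w h => hS w fun h' => h (by simp only [h', zero_mul])⟩

/-- the antisymmetrisation by one generator -/
def av (c : R) (v : V) (f : W G → R) : W G → R := fun w => (f w - f (w * (cox G).simple v)) * c

theorem av_mem (hG : Good K L Y E) {c : R} (hc : ∀ x : R, Commute x c) {f : W G → R} (hf : InM K u Y E f) {v : V}
    (hv : v ∈ L) : InM K u Y E (av c v f) := by
  have h1 : InM K u Y E (f - fun w => f (w * (cox G).simple v)) :=
    (IM K u Y E).sub_mem (mem_IM.2 hf) (mem_IM.2 (mem_rt hG hf hv))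
  exact mem_sc hc h1

theorem av_anti (c : R) (v : V) (f : W G → R) (w : W G) : av c v f (w * (cox G).simple v) = - av c v f w := by
  simp only [av]
  rw [mul_assoc w, simple_mul_self, mul_one, ← neg_mul, neg_sub]

theorem av_anti' (c : R) (v x : V) (hvx : G.Adj x v) (f : W G → R)
    (hf : ∀ w, f (w * (cox G).simple x) = - f w) (w : W G) :
    av c v f (w * (cox G).simple x) = - av c v f w := by
  simp only [av]
  rw [hf, mul_assoc w, simple_comm G x v hvx, ← mul_assoc w, hf, ← neg_mul]
  congr 1; abel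

theorem av_self {c : R} (h2 : (2 : R) * c = 1) {v : V} {f : W G → R} (hf : ∀ w, f (w * (cox G).simple v) = - f w) :
    av c v f = f := by
  funext w
  simp only [av]
  rw [hf, sub_neg_eq_add, ← two_mul]
  have hcomm : (2 : R) * f w = f w * 2 := by
    rw [two_mul, mul_two]
  rw [hcomm, mul_assoc, h2, mul_one]

theorem av_add (c : R) (v : V) (f g : W G → R) : av c v (f + g) = av c v f + av c v g := by
  funext w
  simp only [av, Pi.add_apply]
  rw [← add_mul]; congr 1; abel

theorem half (hR : Rg K u) : ∃ c : R, (∀ x : R, Commute x c) ∧ (2 : R) * c = 1 := by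
  obtain ⟨y, hy⟩ := hR.two
  refine ⟨((y⁻¹ : Rˣ) : R), fun x => ?_, ?_⟩
  · have h : Commute x (y : R) := by
      rw [hy]
      show x * 2 = 2 * x
      rw [mul_two, two_mul]
    exact h.units_inv_right
  · rw [← hy]
    exact y.mul_inv

theorem fr_mul (E' : Subgroup (W G × ℤˣ)) {p : W G × ℤˣ} (hp : p ∈ E') {w : W G} (hw : w ∈ fr K Y E')
    (hY : w * p.1 ∈ Y) : w * p.1 ∈ fr K Y E' := by
  refine ⟨hY, fun q hq h => ?_⟩
  have h1 := hw.2 (p * q * p⁻¹) (E'.mul_mem (E'.mul_mem hp hq) (E'.inv_mem hp)) (by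
    have h2 : w * (p * q * p⁻¹).1 * w⁻¹ = w * p.1 * q.1 * (w * p.1)⁻¹ := by
      simp only [Prod.fst_mul, Prod.fst_inv, mul_inv_rev, mul_assoc]
    rw [h2]
    exact h)
  exact conj_eq_one_iff.1 h1

theorem fr_left (hG : Good K L Y E) (E' : Subgroup (W G × ℤˣ)) {h : W G} (hh : h ∈ K) {w : W G}
    (hw : w ∈ fr K Y E') : h * w ∈ fr K Y E' := by
  refine ⟨hG.YK h hh w hw.1, fun q hq h1 => hw.2 q hq ?_⟩
  have h2 : w * q.1 * w⁻¹ = h⁻¹ * (h * w * q.1 * (h * w)⁻¹) * h := by
    simp only [mul_inv_rev, mul_assoc, inv_mul_cancel_left, inv_mul_cancel, mul_one]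
  rw [h2]
  exact K.mul_mem (K.mul_mem (K.inv_mem hh) h1) hh

open Classical in
theorem res_mem (hG : Good K L Y E) (E' : Subgroup (W G × ℤˣ)) (hE : E ≤ E') {f : W G → R} (hf : InM K u Y E f) :
    InM K u Y E (fun w => if w ∈ fr K Y E' then f w else 0) := by
  refine ⟨fun w h => ?_, fun p hp w => ?_, fun h w => ?_, ?_⟩
  · by_cases hw : w ∈ fr K Y E'
    · exact hw.1
    · exact absurd (if_neg hw) h
  · show (if w * p.1 ∈ fr K Y E' then f (w * p.1) else 0) = ((p.2 : ℤˣ) : ℤ) • (if w ∈ fr K Y E' then f w else 0)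
    by_cases hw : w ∈ fr K Y E'
    · rw [if_pos hw, if_pos (fr_mul E' (hE hp) hw (hG.YE p hp w hw.1)), hf.eqE p hp]
    · rw [if_neg hw, if_neg, smul_zero]
      intro h1
      apply hw
      have h2 := fr_mul E' (E'.inv_mem (hE hp)) h1
      rw [Prod.fst_inv, mul_inv_cancel_right] at h2
      refine h2 ?_
      have h3 := hG.YE p⁻¹ (E.inv_mem hp) _ h1.1
      rwa [Prod.fst_inv, mul_inv_cancel_right] at h3
  · show (if (h : W G) * w ∈ fr K Y E' then f (h * w) else 0) = (if w ∈ fr K Y E' then f w else 0) * u h⁻¹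
    by_cases hw : w ∈ fr K Y E'
    · rw [if_pos hw, if_pos (fr_left hG E' h.2 hw), hf.eqK]
    · rw [if_neg hw, if_neg, zero_mul]
      intro h1
      apply hw
      have h2 := fr_left hG E' (K.inv_mem h.2) h1
      rwa [inv_mul_cancel_left] at h2
  · obtain ⟨S, hS⟩ := hf.fin
    refine ⟨S, fun w h => hS w fun h' => h ?_⟩
    show (if w ∈ fr K Y E' then f w else 0) = 0
    rw [h', ite_self]

theorem ker_split (h2 : FINP) {s t : V} (hR : Rg K u) (hG : Good K L Y E) (hs : s ∈ L) (ht : t ∈ L)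
    (hne : s ≠ t) (hna : ¬ G.Adj s t) (Φ : (W G → R) → (W G → R))
    (Φadd : ∀ f g, InM K u Y E f → InM K u Y E g → Φ (f + g) = Φ f + Φ g)
    (Φkill : ∀ f, InM K u Y E f → ((∀ w, f (w * (cox G).simple s) = - f w) ∨
      (∀ w, f (w * (cox G).simple t) = - f w)) → Φ f = 0)
    (Φker : ∀ f, InM K u Y E f → Φ f = 0 → (∀ w, w ∉ fr K Y (addD E s t) → f w = 0) →
        ∃ p q, InM K u Y E p ∧ InM K u Y E q ∧ f = p + q ∧ (∀ w, p (w * (cox G).simple s) = - p w) ∧
          (∀ w, q (w * (cox G).simple t) = - q w))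
    (f : W G → R) (hf : InM K u Y E f) (h0 : Φ f = 0) :
    ∃ p q, InM K u Y E p ∧ InM K u Y E q ∧ f = p + q ∧ (∀ w, p (w * (cox G).simple s) = - p w) ∧
      (∀ w, q (w * (cox G).simple t) = - q w) := by
  classical
  let f1 : W G → R := fun w => if w ∈ fr K Y (addD E s t) then f w else 0
  have hf1 : InM K u Y E f1 := res_mem hG (addD E s t) le_sup_left hf
  have hf2 : InM K u Y E (f - f1) := (IM K u Y E).sub_mem (mem_IM.2 hf) (mem_IM.2 hf1)
  obtain ⟨g, hg, hgf⟩ := h2 V G K R u L Y E s t (f - f1) hR hG hs ht hne hna hf2 (by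
    intro w hw
    show f w - (if w ∈ fr K Y (addD E s t) then f w else 0) = 0
    rw [if_pos hw, sub_self])
  let gt : W G → R := fun w => g (w * (cox G).simple t)
  have hgt : InM K u Y E gt := mem_rt hG hg ht
  let gst : W G → R := fun w => gt (w * (cox G).simple s)
  have hgst : InM K u Y E gst := mem_rt hG hgt hs
  let a : W G → R := gt - gst
  let b : W G → R := g - gt
  have ha : InM K u Y E a := (IM K u Y E).sub_mem (mem_IM.2 hgt) (mem_IM.2 hgst)
  have hb : InM K u Y E b := (IM K u Y E).sub_mem (mem_IM.2 hg) (mem_IM.2 hgt)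
  have hae : ∀ w, a (w * (cox G).simple s) = - a w := by
    intro w
    show gt (w * (cox G).simple s) - gt (w * (cox G).simple s * (cox G).simple s) =
      - (gt w - gt (w * (cox G).simple s))
    rw [mul_assoc w, simple_mul_self, mul_one, neg_sub]
  have hbe : ∀ w, b (w * (cox G).simple t) = - b w := by
    intro w
    show g (w * (cox G).simple t) - g (w * (cox G).simple t * (cox G).simple t) =
      - (g w - g (w * (cox G).simple t))
    rw [mul_assoc w, simple_mul_self, mul_one, neg_sub]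
  have hab : f - f1 = a + b := by
    funext w
    rw [hgf w]
    show _ = (g (w * (cox G).simple t) - g (w * (cox G).simple s * (cox G).simple t)) +
      (g w - g (w * (cox G).simple t))
    rw [← mul_assoc w]
    abel
  have hΦ2 : Φ (f - f1) = 0 := by
    rw [hab, Φadd _ _ ha hb, Φkill a ha (Or.inl hae), Φkill b hb (Or.inr hbe), add_zero]
  have hff : f = (f - f1) + f1 := by abel
  have hΦ1 : Φ f1 = 0 := by
    have h4 : Φ ((f - f1) + f1) = Φ (f - f1) + Φ f1 := Φadd _ _ hf2 hf1
    rw [← hff, h0, hΦ2, zero_add] at h4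
    exact h4.symm
  obtain ⟨p, q, hp, hq, hpq, hps, hqt⟩ := Φker f1 hf1 hΦ1 (fun w hw => if_neg hw)
  refine ⟨p + a, q + b, (IM K u Y E).add_mem (mem_IM.2 hp) (mem_IM.2 ha),
    (IM K u Y E).add_mem (mem_IM.2 hq) (mem_IM.2 hb), ?_, fun w => ?_, fun w => ?_⟩
  · rw [hff, hab, hpq]; abel
  · rw [Pi.add_apply, Pi.add_apply, hps, hae]; abel
  · rw [Pi.add_apply, Pi.add_apply, hqt, hbe]; abel

theorem anti_split {s t : V} (hG : Good K L Y E) {c : R} (hc : ∀ x : R, Commute x c) (h2 : (2 : R) * c = 1)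
    (f : W G → R) (T : Finset V) : (∀ v ∈ T, v ∈ L ∧ G.Adj s v ∧ G.Adj t v) → G.IsClique (T : Set V) →
    (∀ v ∈ T, ∀ w, f (w * (cox G).simple v) = - f w) →
    ∀ p q : W G → R, InM K u Y E p → InM K u Y E q → f = p + q → (∀ w, p (w * (cox G).simple s) = - p w) →
    (∀ w, q (w * (cox G).simple t) = - q w) →
    ∃ p' q' : W G → R, InM K u Y E p' ∧ InM K u Y E q' ∧ f = p' + q' ∧
      (∀ w, p' (w * (cox G).simple s) = - p' w) ∧ (∀ w, q' (w * (cox G).simple t) = - q' w) ∧
      (∀ v ∈ T, ∀ w, p' (w * (cox G).simple v) = - p' w) ∧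
      (∀ v ∈ T, ∀ w, q' (w * (cox G).simple v) = - q' w) := by
  classical
  induction T using Finset.induction_on with
  | empty =>
    intro _ _ _ p q hp hq e hps hqt
    exact ⟨p, q, hp, hq, e, hps, hqt, by simp, by simp⟩
  | insert v T hv ih =>
    intro hT hcl hf p q hp hq e hps hqt
    obtain ⟨p', q', hp', hq', e', hps', hqt', hpT, hqT⟩ := ih (fun x hx => hT x (Finset.mem_insert_of_mem hx))
      (hcl.subset (by simp)) (fun x hx => hf x (Finset.mem_insert_of_mem hx)) p q hp hq e hps hqt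
    obtain ⟨hvL, hsv, htv⟩ := hT v (Finset.mem_insert_self _ _)
    refine ⟨av c v p', av c v q', av_mem hG hc hp' hvL, av_mem hG hc hq' hvL, ?_, av_anti' c v s hsv p' hps',
      av_anti' c v t htv q' hqt', ?_, ?_⟩
    · rw [← av_add, ← e', av_self h2 (hf v (Finset.mem_insert_self _ _))]
    · intro x hx w
      rcases Finset.mem_insert.1 hx with rfl | hx'
      · exact av_anti c x p' w
      · have hadj : G.Adj x v := hcl (by simp [hx']) (by simp) (fun h => hv (h ▸ hx'))
        exact av_anti' c v x hadj p' (hpT x hx') w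
    · intro x hx w
      rcases Finset.mem_insert.1 hx with rfl | hx'
      · exact av_anti c x q' w
      · have hadj : G.Adj x v := hcl (by simp [hx']) (by simp) (fun h => hv (h ▸ hx'))
        exact av_anti' c v x hadj q' (hqT x hx') w

theorem phi_av {s t : V} (hG : Good K L Y E) {c : R} (hc : ∀ x : R, Commute x c) (h2 : (2 : R) * c = 1)
    (Φ : (W G → R) → (W G → R))
    (Φadd : ∀ f g, InM K u Y E f → InM K u Y E g → Φ (f + g) = Φ f + Φ g)
    (Φneg : ∀ f, InM K u Y E f → Φ (-f) = - Φ f)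
    (Φcomm : ∀ f, InM K u Y E f → ∀ v ∈ L, G.Adj s v → G.Adj t v →
        ∀ w, Φ (fun x => f (x * (cox G).simple v)) w = Φ f (w * (cox G).simple v))
    {v : V} (hv : v ∈ L) (hsv : G.Adj s v) (htv : G.Adj t v) (f : W G → R) (hf : InM K u Y E f) :
    Φ (av c v f) = av c v (Φ f) := by
  let r : W G → R := fun w => f (w * (cox G).simple v)
  have hr : InM K u Y E r := mem_rt hG hf hv
  have hnr : InM K u Y E (-r) := (IM K u Y E).neg_mem (mem_IM.2 hr)
  have ha := av_mem hG hc hf hv
  have hsum : av c v f + av c v f = f + -r := by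
    funext w
    show (f w - f (w * (cox G).simple v)) * c + (f w - f (w * (cox G).simple v)) * c =
      f w + - f (w * (cox G).simple v)
    rw [← mul_add, ← two_mul, h2, mul_one, sub_eq_add_neg]
  have h3 : Φ (av c v f) + Φ (av c v f) = Φ f + -Φ r := by
    rw [← Φadd _ _ ha ha, hsum, Φadd _ _ hf hnr, Φneg _ hr]
  funext w
  have h4 := congrFun h3 w
  simp only [Pi.add_apply, Pi.neg_apply] at h4
  rw [Φcomm f hf v hv hsv htv w] at h4
  show _ = (Φ f w - Φ f (w * (cox G).simple v)) * c
  rw [sub_eq_add_neg, ← h4, add_mul, ← mul_add, ← two_mul, h2, mul_one]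

theorem anti_lift {s t : V} (hG : Good K L Y E) {c : R} (hc : ∀ x : R, Commute x c) (h2 : (2 : R) * c = 1)
    (Φ : (W G → R) → (W G → R))
    (Φadd : ∀ f g, InM K u Y E f → InM K u Y E g → Φ (f + g) = Φ f + Φ g)
    (Φneg : ∀ f, InM K u Y E f → Φ (-f) = - Φ f)
    (Φcomm : ∀ f, InM K u Y E f → ∀ v ∈ L, G.Adj s v → G.Adj t v →
        ∀ w, Φ (fun x => f (x * (cox G).simple v)) w = Φ f (w * (cox G).simple v))
    (e : W G → R) (T : Finset V) : (∀ v ∈ T, v ∈ L ∧ G.Adj s v ∧ G.Adj t v) → G.IsClique (T : Set V) →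
    (∀ v ∈ T, ∀ w, e (w * (cox G).simple v) = - e w) → ∀ f : W G → R, InM K u Y E f → Φ f = e →
    ∃ f' : W G → R, InM K u Y E f' ∧ Φ f' = e ∧ ∀ v ∈ T, ∀ w, f' (w * (cox G).simple v) = - f' w := by
  classical
  induction T using Finset.induction_on with
  | empty =>
    intro _ _ _ f hf hfe
    exact ⟨f, hf, hfe, by simp⟩
  | insert v T hv ih =>
    intro hT hcl he f hf hfe
    obtain ⟨f', hf', hfe', hfT⟩ := ih (fun x hx => hT x (Finset.mem_insert_of_mem hx))
      (hcl.subset (by simp)) (fun x hx => he x (Finset.mem_insert_of_mem hx)) f hf hfe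
    obtain ⟨hvL, hsv, htv⟩ := hT v (Finset.mem_insert_self _ _)
    refine ⟨av c v f', av_mem hG hc hf' hvL, ?_, ?_⟩
    · rw [phi_av hG hc h2 Φ Φadd Φneg Φcomm hvL hsv htv f' hf', hfe',
        av_self h2 (he v (Finset.mem_insert_self _ _))]
    · intro x hx w
      rcases Finset.mem_insert.1 hx with rfl | hx'
      · exact av_anti c x f' w
      · have hadj : G.Adj x v := hcl (by simp [hx']) (by simp) (fun h => hv (h ▸ hx'))
        exact av_anti' c v x hadj f' (hfT x hx') w

theorem phi_sum (Φ : (W G → R) → (W G → R))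
    (Φadd : ∀ f g, InM K u Y E f → InM K u Y E g → Φ (f + g) = Φ f + Φ g)
    (Φneg : ∀ f, InM K u Y E f → Φ (-f) = - Φ f) (Φ0 : Φ 0 = 0) (T : Finset V) (g : V → W G → R)
    (hg : ∀ v, InM K u Y E (g v)) (A : Finset V) :
    Φ (∑ v ∈ A, sg v T • g v) = ∑ v ∈ A, sg v T • Φ (g v) := by
  classical
  induction A using Finset.induction_on with
  | empty => simpa using Φ0
  | insert v A hv ih =>
    have h1 : InM K u Y E (sg v T • g v) := (IM K u Y E).zsmul_mem (mem_IM.2 (hg v)) _
    have h2 : InM K u Y E (∑ v ∈ A, sg v T • g v) :=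
      (IM K u Y E).sum_mem fun v _ => (IM K u Y E).zsmul_mem (mem_IM.2 (hg v)) _
    rw [Finset.sum_insert hv, Finset.sum_insert hv, Φadd _ _ h1 h2, ih]
    congr 1
    rcases sg_eq_or v T with h | h <;> rw [h]
    · simp
    · rw [neg_one_smul, neg_one_smul, Φneg _ (hg v)]

theorem cliq_ins {C : Set V} {x : V} (hx : ∀ y ∈ C, G.Adj x y) {X : Finset V} (hxX : x ∈ X)
    (hXC : ((X.erase x : Finset V) : Set V) ⊆ C) (hcl : G.IsClique ((X.erase x : Finset V) : Set V)) :
    G.IsClique (X : Set V) := by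
  rw [← Finset.insert_erase hxX, Finset.coe_insert, SimpleGraph.isClique_insert]
  exact ⟨hcl, fun b hb _ => hx b (hXC hb)⟩

theorem sum_two {M : Type} [AddCommGroup M] {s t : V} (T : Finset V) (hs : s ∉ T) (ht : t ∉ T)
    (g : V → M) (a b : M) (h : ∀ v ∈ Tᶜ, g v = (if v = s then a else 0) + (if v = t then b else 0)) :
    ∑ v ∈ Tᶜ, g v = a + b := by
  classical
  rw [Finset.sum_congr rfl h, Finset.sum_add_distrib, Finset.sum_ite_eq', Finset.sum_ite_eq',
    if_pos (by simpa using hs), if_pos (by simpa using ht)]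

end coef

theorem sus (h1 : INJ) (h2 : FINP) (h3 : FREEP) : SUS := by
  classical
  intro V _ _ G K R _ u L C Y E s t i hR hG hs ht hne hna hCL hC Hvc z hz hbz
  obtain ⟨Φ, Φmem, Φadd, Φneg, Φ0, Φcomm, Φkill, Φsurj, Φker⟩ := h3 V G K R u L Y E s t hR hG hs ht hne hna
  obtain ⟨c, hc, hc2⟩ := half hR
  have hsC : s ∉ C := fun h => G.loopless.irrefl s (hC s h).1
  have htC : t ∉ C := fun h => G.loopless.irrefl t (hC t h).2
  have hCD : C ⊆ insert s (insert t C) := fun x hx => by simp [hx]
  have hTC : ∀ T : Finset V, (T : Set V) ⊆ C → ∀ v ∈ T, v ∈ L ∧ G.Adj s v ∧ G.Adj t v := fun T hT v hv =>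
    ⟨hCL (hT hv), hC v (hT hv)⟩
  have hsT : ∀ T : Finset V, (T : Set V) ⊆ C → s ∉ T := fun T hT h => hsC (hT h)
  have htT : ∀ T : Finset V, (T : Set V) ⊆ C → t ∉ T := fun T hT h => htC (hT h)
  have hz' : IsCh G (insert s (insert t C)) (fun f => f ∈ IM K u Y E) i z := hz
  -- the image of the cycle under `Φ`
  let c' : Finset V → W G → R := fun T => if (T : Set V) ⊆ C then Φ (z T) else 0
  have hc'pos : ∀ T : Finset V, (T : Set V) ⊆ C → c' T = Φ (z T) := fun T hT => if_pos hT
  have hc'neg : ∀ T : Finset V, ¬ (T : Set V) ⊆ C → c' T = 0 := fun T hT => if_neg hT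
  have hout : ∀ (T : Finset V) (v : V), v ∈ T → v ∉ C → Φ (z T) = 0 := by
    intro T v hv hvC
    by_cases hvs : v = s
    · subst hvs
      exact Φkill _ (hz.mem _) (Or.inl (hz.anti T v hv))
    · by_cases hvt : v = t
      · subst hvt
        exact Φkill _ (hz.mem _) (Or.inr (hz.anti T v hv))
      · rw [hz.supp T (fun h => ?_), Φ0]
        have h5 := h.2.1 hv
        simp [hvs, hvt, hvC] at h5
  have hch' : IsCh G C (InM K u (fr K Y (addD E s t)) (addD E s t)) i c' := by
    refine ⟨fun T hT => ?_, fun T => ?_, fun T v hv w => ?_⟩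
    · by_cases hTC' : (T : Set V) ⊆ C
      · rw [hc'pos T hTC', hz.supp T (fun h => hT ⟨h.1, hTC', h.2.2⟩), Φ0]
      · exact hc'neg T hTC'
    · by_cases hTC' : (T : Set V) ⊆ C
      · rw [hc'pos T hTC']
        exact Φmem _ (hz.mem T)
      · rw [hc'neg T hTC']
        exact mem_IM.1 (IM K u (fr K Y (addD E s t)) (addD E s t)).zero_mem
    · by_cases hTC' : (T : Set V) ⊆ C
      · rw [hc'pos T hTC']
        obtain ⟨hvL, hsv, htv⟩ := hTC T hTC' v hv
        rw [← Φcomm _ (hz.mem T) v hvL hsv htv w]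
        have h5 : (fun x => z T (x * (cox G).simple v)) = - z T := by
          funext x
          rw [hz.anti T v hv, Pi.neg_apply]
        rw [h5, Φneg _ (hz.mem T), Pi.neg_apply]
      · rw [hc'neg T hTC']
        simp
  have hbc' : bdf G c' = 0 := by
    funext T
    rw [bdf_apply]
    by_cases hTC' : (T : Set V) ⊆ C
    · have h5 : ∑ v ∈ Tᶜ, sg v T • c' (insert v T) = ∑ v ∈ Tᶜ, sg v T • Φ (z (insert v T)) := by
        refine Finset.sum_congr rfl fun v _ => ?_
        by_cases hv : v ∈ C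
        · rw [hc'pos]
          intro x hx
          rcases Finset.mem_insert.1 (Finset.mem_coe.1 hx) with rfl | hx'
          · exact hv
          · exact hTC' hx'
        · rw [hc'neg, hout (insert v T) v (Finset.mem_insert_self _ _) hv]
          intro h
          exact hv (h (by simp))
      rw [h5, ← phi_sum Φ Φadd Φneg Φ0 T (fun v => z (insert v T)) (fun v => hz.mem _), ← bdf_apply, hbz]
      exact Φ0
    · refine Finset.sum_eq_zero fun v _ => ?_
      rw [hc'neg, smul_zero]
      intro h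
      exact hTC' fun x hx => h (by simp at hx ⊢; exact Or.inr hx)
  obtain ⟨e', he', hbe'⟩ := Hvc c' hch' hbc'
  -- the lift
  have hlift : ∀ T : Finset V, ∃ f : W G → R, InM K u Y E f ∧ Φ f = e' T ∧
      (∀ v ∈ T, ∀ w, f (w * (cox G).simple v) = - f w) ∧
      (¬ (G.IsClique (T : Set V) ∧ (T : Set V) ⊆ C ∧ T.card = i + 1) → f = 0) := by
    intro T
    by_cases hT : G.IsClique (T : Set V) ∧ (T : Set V) ⊆ C ∧ T.card = i + 1
    · obtain ⟨f, hf, hfe⟩ := Φsurj (e' T) (he'.mem T)
      obtain ⟨f', hf', hfe', hfa⟩ := anti_lift hG hc hc2 Φ Φadd Φneg Φcomm (e' T) T (hTC T hT.2.1) hT.1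
        (he'.anti T) f hf hfe
      exact ⟨f', hf', hfe', hfa, fun h => absurd hT h⟩
    · refine ⟨0, mem_IM.1 (IM K u Y E).zero_mem, ?_, fun v _ w => by simp, fun _ => rfl⟩
      rw [Φ0, he'.supp T hT]
  choose e1 he1m he1Φ he1a he1s using hlift
  have hch1 : IsCh G (insert s (insert t C)) (fun f => f ∈ IM K u Y E) (i + 1) e1 :=
    ch_mono hCD ⟨fun T hT => he1s T hT, he1m, he1a⟩
  obtain ⟨z1, hz1e⟩ : ∃ z1, z1 = z - bdf G e1 := ⟨_, rfl⟩
  have hz1 : IsCh G (insert s (insert t C)) (fun f => f ∈ IM K u Y E) i z1 := hz1e ▸ ch_sub hz' (ch_bd hch1)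
  have hΦz1 : ∀ T : Finset V, (T : Set V) ⊆ C → Φ (z1 T) = 0 := by
    intro T hT
    have h5 : z1 T = z T + - bdf G e1 T := by rw [hz1e, Pi.sub_apply, sub_eq_add_neg]
    have h6 : InM K u Y E (bdf G e1 T) := (ch_bd hch1).mem T
    have h7 : Φ (bdf G e1 T) = Φ (z T) := by
      rw [bdf_apply, phi_sum Φ Φadd Φneg Φ0 T (fun v => e1 (insert v T)) (fun v => he1m _)]
      simp only [he1Φ]
      rw [← bdf_apply, hbe', hc'pos T hT]
    rw [h5, Φadd _ _ (hz.mem T) (mem_IM.1 ((IM K u Y E).neg_mem (mem_IM.2 h6))), Φneg _ h6, h7, add_neg_cancel]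
  -- the splitting
  have hsplit : ∀ T : Finset V, ∃ p q : W G → R, InM K u Y E p ∧ InM K u Y E q ∧
      ((T : Set V) ⊆ C → z1 T = p + q) ∧ (∀ w, p (w * (cox G).simple s) = - p w) ∧
      (∀ w, q (w * (cox G).simple t) = - q w) ∧ (∀ v ∈ T, ∀ w, p (w * (cox G).simple v) = - p w) ∧
      (∀ v ∈ T, ∀ w, q (w * (cox G).simple v) = - q w) ∧
      (¬ (G.IsClique (T : Set V) ∧ (T : Set V) ⊆ C ∧ T.card = i) → p = 0 ∧ q = 0) := by
    intro T
    by_cases hT : G.IsClique (T : Set V) ∧ (T : Set V) ⊆ C ∧ T.card = i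
    · obtain ⟨p, q, hp, hq, hpq, hps, hqt⟩ := ker_split h2 hR hG hs ht hne hna Φ Φadd Φkill Φker (z1 T)
        (hz1.mem T) (hΦz1 T hT.2.1)
      obtain ⟨p', q', hp', hq', hpq', hps', hqt', hpT, hqT⟩ := anti_split hG hc hc2 (z1 T) T (hTC T hT.2.1) hT.1
        (hz1.anti T) p q hp hq hpq hps hqt
      exact ⟨p', q', hp', hq', fun _ => hpq', hps', hqt', hpT, hqT, fun h => absurd hT h⟩
    · refine ⟨0, 0, mem_IM.1 (IM K u Y E).zero_mem, mem_IM.1 (IM K u Y E).zero_mem, fun h => ?_,
        fun w => by simp, fun w => by simp, fun v _ w => by simp, fun v _ w => by simp, fun _ => ⟨rfl, rfl⟩⟩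
      rw [hz1.supp T (fun h' => hT ⟨h'.1, h, h'.2.2⟩), add_zero]
  choose p q hp hq hpq hps hqt hpT hqT hpq0 using hsplit
  let e2 : Finset V → W G → R := fun X =>
    if s ∈ X ∧ ((X.erase s : Finset V) : Set V) ⊆ C then sg s (X.erase s) • p (X.erase s)
    else if t ∈ X ∧ ((X.erase t : Finset V) : Set V) ⊆ C then sg t (X.erase t) • q (X.erase t) else 0
  have he2s : ∀ X : Finset V, s ∈ X ∧ ((X.erase s : Finset V) : Set V) ⊆ C →
      e2 X = sg s (X.erase s) • p (X.erase s) := fun X hX => if_pos hX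
  have he2t : ∀ X : Finset V, ¬ (s ∈ X ∧ ((X.erase s : Finset V) : Set V) ⊆ C) →
      t ∈ X ∧ ((X.erase t : Finset V) : Set V) ⊆ C → e2 X = sg t (X.erase t) • q (X.erase t) :=
    fun X hX hX' => (if_neg hX).trans (if_pos hX')
  have he2n : ∀ X : Finset V, ¬ (s ∈ X ∧ ((X.erase s : Finset V) : Set V) ⊆ C) →
      ¬ (t ∈ X ∧ ((X.erase t : Finset V) : Set V) ⊆ C) → e2 X = 0 :=
    fun X hX hX' => (if_neg hX).trans (if_neg hX')
  have hch2 : IsCh G (insert s (insert t C)) (fun f => f ∈ IM K u Y E) (i + 1) e2 := by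
    refine ⟨fun X hX => ?_, fun X => ?_, fun X v hv w => ?_⟩
    · by_cases hXs : s ∈ X ∧ ((X.erase s : Finset V) : Set V) ⊆ C
      · rw [he2s X hXs, (hpq0 (X.erase s) (fun h => hX ⟨cliq_ins (fun y hy => (hC y hy).1) hXs.1 hXs.2 h.1,
          fun x hx => ?_, ?_⟩)).1, smul_zero]
        · by_cases hxs : x = s
          · simp [hxs]
          · exact hCD (hXs.2 (by simp at hx ⊢; exact ⟨hx, hxs⟩))
        · have h5 := Finset.card_erase_add_one hXs.1
          omega
      · by_cases hXt : t ∈ X ∧ ((X.erase t : Finset V) : Set V) ⊆ C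
        · rw [he2t X hXs hXt, (hpq0 (X.erase t) (fun h => hX ⟨cliq_ins (fun y hy => (hC y hy).2) hXt.1 hXt.2 h.1,
            fun x hx => ?_, ?_⟩)).2, smul_zero]
          · by_cases hxt : x = t
            · simp [hxt]
            · exact hCD (hXt.2 (by simp at hx ⊢; exact ⟨hx, hxt⟩))
          · have h5 := Finset.card_erase_add_one hXt.1
            omega
        · exact he2n X hXs hXt
    · show e2 X ∈ IM K u Y E
      by_cases hXs : s ∈ X ∧ ((X.erase s : Finset V) : Set V) ⊆ C
      · rw [he2s X hXs]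
        exact (IM K u Y E).zsmul_mem (mem_IM.2 (hp _)) _
      · by_cases hXt : t ∈ X ∧ ((X.erase t : Finset V) : Set V) ⊆ C
        · rw [he2t X hXs hXt]
          exact (IM K u Y E).zsmul_mem (mem_IM.2 (hq _)) _
        · rw [he2n X hXs hXt]
          exact (IM K u Y E).zero_mem
    · by_cases hXs : s ∈ X ∧ ((X.erase s : Finset V) : Set V) ⊆ C
      · rw [he2s X hXs, Pi.smul_apply, Pi.smul_apply, ← smul_neg]
        congr 1
        by_cases hvs : v = s
        · rw [hvs]; exact hps _ w
        · exact hpT _ v (Finset.mem_erase.2 ⟨hvs, hv⟩) w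
      · by_cases hXt : t ∈ X ∧ ((X.erase t : Finset V) : Set V) ⊆ C
        · rw [he2t X hXs hXt, Pi.smul_apply, Pi.smul_apply, ← smul_neg]
          congr 1
          by_cases hvt : v = t
          · rw [hvt]; exact hqt _ w
          · exact hqT _ v (Finset.mem_erase.2 ⟨hvt, hv⟩) w
        · rw [he2n X hXs hXt]
          simp
  have hb2 : ∀ T : Finset V, (T : Set V) ⊆ C → bdf G e2 T = z1 T := by
    intro T hT
    rw [bdf_apply, hpq T hT]
    refine sum_two T (hsT T hT) (htT T hT) _ _ _ fun v hv => ?_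
    have hvT : v ∉ T := by simpa using hv
    by_cases hvs : v = s
    · subst hvs
      rw [if_pos rfl, if_neg hne, add_zero, he2s (insert v T) ⟨by simp, by simpa [Finset.erase_insert hvT] using hT⟩,
        Finset.erase_insert hvT, smul_smul, sg_mul_self, one_smul]
    · have hsv : s ∉ insert v T := by
        simp only [Finset.mem_insert, not_or]
        exact ⟨Ne.symm hvs, hsT T hT⟩
      by_cases hvt : v = t
      · subst hvt
        rw [if_pos rfl, if_neg hvs, zero_add, he2t (insert v T) (fun h => hsv h.1)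
          ⟨by simp, by simpa [Finset.erase_insert hvT] using hT⟩,
          Finset.erase_insert hvT, smul_smul, sg_mul_self, one_smul]
      · have htv : t ∉ insert v T := by
          simp only [Finset.mem_insert, not_or]
          exact ⟨Ne.symm hvt, htT T hT⟩
        rw [if_neg hvs, if_neg hvt, add_zero, he2n (insert v T) (fun h => hsv h.1) (fun h => htv h.1), smul_zero]
  obtain ⟨z2, hz2e⟩ : ∃ z2, z2 = z1 - bdf G e2 := ⟨_, rfl⟩
  have hz2 : IsCh G (insert s (insert t C)) (fun f => f ∈ IM K u Y E) i z2 := hz2e ▸ ch_sub hz1 (ch_bd hch2)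
  have hz2C : ∀ T : Finset V, (T : Set V) ⊆ C → z2 T = 0 := by
    intro T hT
    rw [hz2e, Pi.sub_apply, hb2 T hT, sub_self]
  have hbz2 : bdf G z2 = 0 := by
    rw [hz2e, hz1e, bdf_sub, bdf_sub, bdf_bdf, bdf_bdf, hbz, sub_zero, sub_zero]
  have hrel : ∀ T : Finset V, (T : Set V) ⊆ C → z2 (insert s T) = 0 ∧ z2 (insert t T) = 0 := by
    intro T hT
    have h5 : sg s T • z2 (insert s T) + sg t T • z2 (insert t T) = 0 := by
      have h6 : bdf G z2 T = sg s T • z2 (insert s T) + sg t T • z2 (insert t T) := by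
        rw [bdf_apply]
        refine sum_two T (hsT T hT) (htT T hT) _ _ _ fun v hv => ?_
        by_cases hvs : v = s
        · subst hvs
          rw [if_pos rfl, if_neg hne, add_zero]
        · by_cases hvt : v = t
          · subst hvt
            rw [if_pos rfl, if_neg hvs, zero_add]
          · rw [if_neg hvs, if_neg hvt, add_zero]
            by_cases hvC : v ∈ C
            · rw [hz2C, smul_zero]
              intro x hx
              rcases Finset.mem_insert.1 (Finset.mem_coe.1 hx) with rfl | hx'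
              · exact hvC
              · exact hT hx'
            · rw [hz2.supp _ (fun h => ?_), smul_zero]
              have h7 := h.2.1 (show v ∈ ((insert v T : Finset V) : Set V) by simp)
              simp [hvs, hvt, hvC] at h7
      rw [← h6, hbz2]; rfl
    have hss := hz2.anti (insert s T) s (Finset.mem_insert_self _ _)
    have htt := hz2.anti (insert t T) t (Finset.mem_insert_self _ _)
    have hee : z2 (insert s T) = z2 (insert t T) ∨ z2 (insert s T) = - z2 (insert t T) := by
      rcases sg_eq_or s T with ha | ha <;> rcases sg_eq_or t T with hb | hb <;> rw [ha, hb] at h5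
      · right
        rw [one_smul, one_smul] at h5
        exact eq_neg_of_add_eq_zero_left h5
      · left
        rw [one_smul, neg_one_smul] at h5
        exact eq_of_sub_eq_zero (by rw [sub_eq_add_neg]; exact h5)
      · left
        rw [one_smul, neg_one_smul] at h5
        exact (eq_of_sub_eq_zero (by rw [sub_eq_add_neg, add_comm]; exact h5)).symm
      · right
        rw [neg_one_smul, neg_one_smul, ← neg_add, neg_eq_zero] at h5
        exact eq_neg_of_add_eq_zero_left h5
    have hst : ∀ w, z2 (insert s T) (w * (cox G).simple t) = - z2 (insert s T) w := by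
      intro w
      rcases hee with h | h <;> rw [h]
      · exact htt w
      · rw [Pi.neg_apply, Pi.neg_apply, htt w]
    have h0 : z2 (insert s T) = 0 :=
      h1 V G K R u L Y E s t (z2 (insert s T)) hR hG hs ht hne hna (mem_IM.1 (hz2.mem _)) hss hst
    refine ⟨h0, ?_⟩
    rcases hee with h | h
    · rw [← h, h0]
    · rw [← neg_eq_zero, ← h, h0]
  have hz20 : z2 = 0 := by
    funext T
    show z2 T = 0
    by_cases hT : G.IsClique (T : Set V) ∧ (T : Set V) ⊆ insert s (insert t C) ∧ T.card = i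
    · by_cases hsT' : s ∈ T
      · have htT' : t ∉ T := fun h => hna (hT.1 hsT' h hne)
        have h8 : ((T.erase s : Finset V) : Set V) ⊆ C := by
          intro x hx
          have hx1 := Finset.mem_erase.1 (Finset.mem_coe.1 hx)
          rcases hT.2.1 hx1.2 with h9 | h9 | h9
          · exact absurd h9 hx1.1
          · exact absurd (h9 ▸ hx1.2) htT'
          · exact h9
        have h9 := (hrel _ h8).1
        rwa [Finset.insert_erase hsT'] at h9
      · by_cases htT' : t ∈ T
        · have h8 : ((T.erase t : Finset V) : Set V) ⊆ C := by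
            intro x hx
            have hx1 := Finset.mem_erase.1 (Finset.mem_coe.1 hx)
            rcases hT.2.1 hx1.2 with h9 | h9 | h9
            · exact absurd (h9 ▸ hx1.2) hsT'
            · exact absurd h9 hx1.1
            · exact h9
          have h9 := (hrel _ h8).2
          rwa [Finset.insert_erase htT'] at h9
        · refine hz2C T fun x hx => ?_
          rcases hT.2.1 hx with h9 | h9 | h9
          · exact absurd (h9 ▸ hx) hsT'
          · exact absurd (h9 ▸ hx) htT'
          · exact h9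
    · exact hz2.supp T hT
  refine ⟨e1 + e2, ch_add hch1 hch2, ?_⟩
  rw [bdf_add]
  have h10 : z - bdf G e1 - bdf G e2 = 0 := by rw [← hz1e, ← hz2e, hz20]
  rw [sub_sub, sub_eq_zero] at h10
  exact h10.symm

end Pool.Agent.N496.CV.PSUS

namespace Pool.Agent.N496.CV

theorem sus (h1 : INJ) (h2 : FINP) (h3 : FREEP) : SUS := PSUS.sus h1 h2 h3

end Pool.Agent.N496.CV
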