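import Pool.Agent.N496.CV.Stm0

set_option autoImplicit false

/-!
# Project CV, part TF: the kernel of `W → (ℤ/2)^V` is torsion free

The operators `(T_s f) x = θ_s(x) (f x + f (x s))` (the second term only if `x s` is longer than `x`) give a faithful
representation of `W` on the integral functions on `W`; an element `g` of the kernel acts unipotently on the functions
supported on a ball, so that `g ^ n = 1` forces `T_g = 1` on these functions.
-/

namespace Pool.Agent.N496.CV

open Pool.Agent.W907.SG Pool.Agent.W461.SGN

namespace TFAux

variable {V : Type} (G : SimpleGraph V)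

open Classical in
/-- the basic operator, integral coefficients -/
noncomputable def opz (s : V) : (W G → ℤ) →ₗ[ℤ] (W G → ℤ) where
  toFun f x := ((th G x s : ℤˣ) : ℤ) * (f x + if Up G x s then f (x * (cox G).simple s) else 0)
  map_add' f g := by
    funext x
    simp only [Pi.add_apply]
    split_ifs <;> ring
  map_smul' c f := by
    funext x
    simp only [Pi.smul_apply, smul_eq_mul, RingHom.id_apply]
    split_ifs <;> ring

open Classical in
theorem opz_apply (s : V) (f : W G → ℤ) (x : W G) :
    opz G s f x = ((th G x s : ℤˣ) : ℤ) *
      (f x + if Up G x s then f (x * (cox G).simple s) else 0) := rfl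

theorem unit_sqz (u : ℤˣ) : ((u : ℤˣ) : ℤ) * ((u : ℤˣ) : ℤ) = 1 := by
  rcases Int.units_eq_one_or u with h | h <;> simp [h]

theorem opz_opz (s : V) : opz G s * opz G s = 1 := by
  classical
  refine LinearMap.ext fun f => funext fun x => ?_
  show opz G s (opz G s f) x = f x
  rw [opz_apply, opz_apply G s f x]
  by_cases h : Up G x s
  · rw [if_pos h, if_pos h, opz_apply]
    have h2 : ¬ Up G (x * (cox G).simple s) s := by
      unfold Up at h ⊢
      rw [mul_assoc, simple_mul_self, mul_one]
      omega
    rw [if_neg h2, th_self]
    have := unit_sqz (th G x s)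
    push_cast
    linear_combination (f x) * this
  · rw [if_neg h, if_neg h]
    have := unit_sqz (th G x s)
    linear_combination (f x) * this

theorem opz_comm (s t : V) (h : G.Adj s t) : opz G s * opz G t = opz G t * opz G s := by
  classical
  have hst : s ≠ t := h.ne
  refine LinearMap.ext fun f => funext fun x => ?_
  show opz G s (opz G t f) x = opz G t (opz G s f) x
  have key : ∀ (s t : V), s ≠ t → opz G s (opz G t f) x =
      ((th G x s : ℤˣ) : ℤ) * ((th G x t : ℤˣ) : ℤ) *
      (f x + (if Up G x s then f (x * (cox G).simple s) else 0) + (if Up G x t then f (x * (cox G).simple t) else 0) +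
        (if Up G x s ∧ Up G (x * (cox G).simple s) t then f (x * (cox G).simple s * (cox G).simple t) else 0)) := by
    intro s t hst
    rw [opz_apply, opz_apply, opz_apply, th_other G x t s (Ne.symm hst)]
    by_cases h1 : Up G x s
    · by_cases h2 : Up G (x * (cox G).simple s) t
      · simp only [h1, h2, if_true, and_self]; ring
      · simp only [h1, h2, if_true, if_false, and_false]; ring
    · simp only [h1, if_false, false_and]; ring
  rw [key s t hst, key t s (Ne.symm hst)]
  have e : x * (cox G).simple s * (cox G).simple t = x * (cox G).simple t * (cox G).simple s := by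
    rw [mul_assoc, mul_assoc, simple_comm G s t h]
  rw [e]
  by_cases h5 : Up G x s ∧ Up G (x * (cox G).simple s) t
  · rw [if_pos h5, if_pos ((up_up G x s t h).mp h5)]; ring
  · rw [if_neg h5, if_neg (fun h6 => h5 ((up_up G x s t h).mpr h6))]; ring

/-- the representation -/
noncomputable def psz : W G →* Module.End ℤ (W G → ℤ) :=
  (cox G).toCoxeterSystem.lift ⟨opz G, liftable G _ (opz_opz G) (opz_comm G)⟩

theorem psz_wp (l : List V) : psz G (wp G l) = (l.map (opz G)).prod := by
  unfold wp
  rw [map_list_prod, List.map_map]
  congr 1

theorem triz (l : List V) : ∀ (f : W G → ℤ) (x : W G), (∀ z, len G x < len G z → f z = 0) →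
    ((l.map (opz G)).prod f) x = (((l.map (th G x)).prod : ℤˣ) : ℤ) * f x := by
  classical
  induction l with
  | nil => intro f x _; simp
  | cons s l ih =>
    intro f x hf
    rw [List.map_cons, List.prod_cons, Module.End.mul_apply, opz_apply, ih f x hf]
    have h2 : (if Up G x s then ((l.map (opz G)).prod f) (x * (cox G).simple s) else 0) = 0 := by
      split_ifs with h
      · unfold Up at h
        rw [ih f _ (fun z hz => hf z (by omega)), hf _ (by omega), mul_zero]
      · rfl
    rw [h2, add_zero, List.map_cons, List.prod_cons]
    push_cast
    ring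

theorem vanishz (l : List V) : ∀ (f : W G → ℤ) (x : W G),
    (∀ z, len G z ≤ len G x + l.length → f z = 0) → ((l.map (opz G)).prod f) x = 0 := by
  classical
  induction l with
  | nil => intro f x hf; simpa using hf x (by simp)
  | cons s l ih =>
    intro f x hf
    rw [List.map_cons, List.prod_cons, Module.End.mul_apply, opz_apply,
      ih f x (fun z hz => hf z (by simp only [List.length_cons]; omega))]
    have h2 : (if Up G x s then ((l.map (opz G)).prod f) (x * (cox G).simple s) else 0) = 0 := by
      split_ifs with h
      · unfold Up at h
        exact ih f _ (fun z hz => hf z (by simp only [List.length_cons]; omega))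
      · rfl
    rw [h2]; simp

theorem leadz (l : List V) : ∀ (f : W G → ℤ) (x : W G), len G (x * wp G l) = len G x + l.length →
    (∀ z, len G z < len G x + l.length → f z = 0) →
    ∃ u : ℤˣ, ((l.map (opz G)).prod f) x = ((u : ℤˣ) : ℤ) * f (x * wp G l) := by
  classical
  induction l with
  | nil => intro f x _ _; exact ⟨1, by simp [wp]⟩
  | cons s l ih =>
    intro f x hx hf
    have hw : wp G (s :: l) = (cox G).simple s * wp G l := by simp [wp]
    rw [hw, ← mul_assoc] at hx ⊢
    have h1 : len G (x * (cox G).simple s * wp G l) ≤ len G (x * (cox G).simple s) + l.length := by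
      have a := (cox G).toCoxeterSystem.length_mul_le (x * (cox G).simple s) (wp G l)
      have b := (cox G).toCoxeterSystem.length_wordProd_le l
      have c : (cox G).toCoxeterSystem.wordProd l = wp G l := rfl
      rw [c] at b
      unfold len
      omega
    have hup : Up G x s := by
      have := len_mul_simple G x s
      unfold Up
      simp only [List.length_cons] at hx
      omega
    have hup' := hup
    unfold Up at hup'
    obtain ⟨u, hu⟩ := ih f (x * (cox G).simple s) (by rw [hx, hup', List.length_cons]; omega)
      (fun z hz => hf z (by rw [hup'] at hz; simp only [List.length_cons]; omega))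
    refine ⟨th G x s * u, ?_⟩
    rw [List.map_cons, List.prod_cons, Module.End.mul_apply, opz_apply, if_pos hup, hu,
      vanishz G l f x (fun z hz => hf z (by simp only [List.length_cons]; omega))]
    push_cast
    ring

/-- words of elements of the kernel are even -/
theorem even_of_ker (l : List V) (h : th G (wp G l) = 1) (χ : V → ℤˣ) : (l.map χ).prod = 1 := by
  classical
  have h2 : ∀ (v : V) (l : List V), th G (wp G l) v = (-1) ^ (l.count v) := by
    intro v l
    induction l with
    | nil => simp [wp]
    | cons s l ih =>
      have hw : wp G (s :: l) = (cox G).simple s * wp G l := by simp [wp]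
      rw [hw, map_mul, Pi.mul_apply, ih, th_simple, List.count_cons]
      by_cases hvs : v = s
      · subst hvs
        simp [pow_succ]
      · have hsv : ¬ s = v := fun e => hvs e.symm
        simp [hvs, hsv]
  rw [Finset.prod_list_map_count]
  refine Finset.prod_eq_one fun v _ => ?_
  have h3 := h2 v l
  rw [h, Pi.one_apply] at h3
  have h4 : Even (l.count v) := by
    by_contra hodd
    rw [Nat.not_even_iff_odd] at hodd
    rw [hodd.neg_one_pow] at h3
    exact absurd h3 (by decide)
  obtain ⟨m, hm⟩ := h4
  rw [hm, ← two_mul, pow_mul]
  have : χ v ^ 2 = 1 := by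
    rcases Int.units_eq_one_or (χ v) with h | h <;> simp [h]
  rw [this, one_pow]

/-- a unipotent endomorphism of finite order is trivial -/
theorem unip {M : Type} [AddCommGroup M] [IsAddTorsionFree M] (T : Module.End ℤ M) (n : ℕ) (hn : 0 < n)
    (hT : T ^ n = 1) (f : M) (k : ℕ) (hk : ((T - 1) ^ k) f = 0) : T f = f := by
  classical
  set N : Module.End ℤ M := T - 1 with hN
  have hTN : ∀ h : M, T h = h + N h := by
    intro h
    rw [hN, LinearMap.sub_apply, Module.End.one_apply]
    abel
  -- if `N (N h) = 0` then `N h = 0`
  have key : ∀ h : M, N (N h) = 0 → N h = 0 := by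
    intro h hh
    have h1 : ∀ m : ℕ, (T ^ m) h = h + m • N h := by
      intro m
      induction m with
      | zero => simp
      | succ m ih =>
        rw [pow_succ', Module.End.mul_apply, ih, map_add, map_nsmul, hTN h, hTN (N h), hh, add_zero, succ_nsmul]
        abel
    have h2 := h1 n
    rw [hT, Module.End.one_apply] at h2
    have h3 : n • N h = 0 := by
      have := h2.symm
      rwa [add_eq_left] at this
    exact (nsmul_eq_zero_iff_right hn.ne').1 h3
  have h4 : ∀ k : ℕ, (N ^ (k + 1)) f = 0 → N f = 0 := by
    intro k
    induction k with
    | zero => intro h; simpa using h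
    | succ k ih =>
      intro h
      refine ih ?_
      have h5 : N (N ((N ^ k) f)) = 0 := by
        rw [pow_succ', pow_succ', Module.End.mul_apply, Module.End.mul_apply] at h
        exact h
      have h6 := key _ h5
      rw [pow_succ', Module.End.mul_apply]
      exact h6
  have h7 : N f = 0 := by
    cases k with
    | zero =>
      have : f = 0 := by simpa using hk
      rw [this, map_zero]
    | succ k => exact h4 k hk
  rw [hTN, h7, add_zero]

end TFAux

open TFAux in
theorem tf : TF := by
  classical
  intro V _ G g hg n hn hgn
  by_contra hne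
  obtain ⟨l, hl, hwl⟩ := (cox G).toCoxeterSystem.exists_isReduced g
  have e : g = wp G l := hwl
  have hlen : len G g = l.length := by rw [e]; exact hl
  have h10 : len G (1 : W G) = 0 := (cox G).toCoxeterSystem.length_one
  have hth : th G (wp G l) = 1 := by rw [← e]; exact hg
  have hev := even_of_ker G l hth
  set T : Module.End ℤ (W G → ℤ) := psz G g with hT
  have hTn : T ^ n = 1 := by rw [hT, ← map_pow, hgn, map_one]
  have hTl : T = (l.map (opz G)).prod := by rw [hT, e, psz_wp]
  -- the operator `T - 1` shrinks the support
  have h1 : ∀ (f : W G → ℤ) (x : W G), (∀ z, len G x < len G z → f z = 0) → ((T - 1) f) x = 0 := by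
    intro f x hf
    have := triz G l f x hf
    rw [hev (th G x), ← hTl] at this
    show (T f) x - f x = 0
    rw [this]; simp
  let f : W G → ℤ := Pi.single g 1
  have hf : ∀ z, f z = if z = g then 1 else 0 := fun z => by
    show (Pi.single g 1 : W G → ℤ) z = _
    rw [Pi.single_apply]
  have h2 : ∀ (j : ℕ) (x : W G), len G g < len G x + j → (((T - 1) ^ j) f) x = 0 := by
    intro j
    induction j with
    | zero =>
      intro x hx
      show f x = 0
      rw [hf, if_neg]
      rintro rfl
      omega
    | succ j ih =>
      intro x hx
      rw [pow_succ', Module.End.mul_apply]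
      exact h1 _ x (fun z hz => ih z (by omega))
  have h3 : ((T - 1) ^ (len G g + 1)) f = 0 := funext fun x => h2 _ x (by omega)
  have h4 := unip T n hn hTn f _ h3
  obtain ⟨u, hu⟩ := leadz G l f 1 (by rw [one_mul, ← e, hlen, h10, zero_add]) (by
    intro z hz
    rw [hf, if_neg]
    rintro rfl
    rw [h10, hlen] at hz
    omega)
  rw [← hTl, h4, one_mul, ← e, hf, hf, if_neg (Ne.symm hne), if_pos rfl] at hu
  rcases Int.units_eq_one_or u with h | h <;> subst h <;> simp at hu

end Pool.Agent.N496.CV
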