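import Pool.Agent.N504.RS.Hom3
import Pool.Agent.N496.CV.Stm4

/-!
# Project CV: the relative subdivision (helper504), with the colouring
-/

set_option autoImplicit false

open scoped Matrix

noncomputable section

namespace Pool.Agent.N496.CV

open Module Filter Topology Pool.Agent.W907.SG Pool.Agent.W907.SM Pool.Agent.W461.SGN Pool.Agent.R782.Bal
open Pool.Agent.N496.LT Pool.Agent.N504.RS
open Pool.Agent.TH652.Above (HSph singer_of_above lv_univ)
open Pool.Agent.N504.RS.Two (HSph2 e1_two emb_of_hsph2)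

/-- The construction of `rel3` (helper504), with the colouring as a part of the conclusion. -/
theorem rel3M (hC2 : C2) {d N : ℕ} (H : SimpleGraph (Fin N)) (hd : 1 ≤ d)
    (hO : ∀ (m : ℕ) (S : SimpleGraph (Fin m)), Sub H S → Obs S (2 * (d + 1))) (B : Set (Fin N))
    (c : Fin N → Fin (d + 1)) (hc : ∀ u ∈ B, ∀ v ∈ B, H.Adj u v → c u ≠ c v) :
    ∃ (m : ℕ) (h : N ≤ m) (S : SimpleGraph (Fin m)), Sub H S ∧
      (∀ u ∈ B, ∀ v ∈ B, S.Adj (Fin.castLE h u) (Fin.castLE h v) ↔ H.Adj u v) ∧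
      ∃ (κ : Fin m → Fin (d + 1)) (A : Set (Fin m)), Mid S (fun x => (κ x : ℕ)) A ∧ Obs S (2 * (d + 1)) := by
  classical
  -- the colouring
  obtain ⟨code, hcode⟩ : ∃ code : Fin (d + 1) → ℕ, code = fun i : Fin (d + 1) => if (i : ℕ) < d then 2 * (i : ℕ) + 1 else 2 * d := ⟨_, rfl⟩
  have hcode_inj : Function.Injective code := by
    intro i j hij
    rw [hcode] at hij
    dsimp only at hij
    have := i.2
    have := j.2
    apply Fin.ext
    split_ifs at hij <;> omega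
  have hcode_pos : ∀ i, 0 < code i := by
    intro i
    rw [hcode]
    dsimp only
    split_ifs <;> omega
  have hcode_le : ∀ i, code i ≤ 2 * d := by
    intro i
    rw [hcode]
    dsimp only
    split_ifs <;> omega
  have hcode_div : ∀ i, code i / 2 = i := by
    intro i
    rw [hcode]
    dsimp only
    have := i.2
    split_ifs <;> omega
  obtain ⟨κ, hκ⟩ : ∃ κ : ℕ → ℕ, κ = fun x => if h : ∃ v, v ∈ B ∧ x = (v : ℕ) then code (c h.choose) else 0 :=
    ⟨_, rfl⟩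
  have hκj : ∀ v ∈ B, κ (v : ℕ) = code (c v) := by
    intro v hv
    have h1 : ∃ v', v' ∈ B ∧ (v : ℕ) = (v' : ℕ) := ⟨v, hv, rfl⟩
    rw [hκ]
    dsimp only
    rw [dif_pos h1]
    have h2 : h1.choose = v := Fin.ext h1.choose_spec.2.symm
    rw [h2]
  have hκ0 : ∀ x, κ x ≠ 0 → ∃ v, v ∈ B ∧ x = (v : ℕ) := by
    intro x hx
    by_contra h
    apply hx
    rw [hκ]
    dsimp only
    rw [dif_neg h]
  -- the graph on ℕ
  obtain ⟨HN, hHN⟩ : ∃ HN : SimpleGraph ℕ, HN = H.map Fin.valEmbedding := ⟨_, rfl⟩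
  have hadjN : ∀ x y : Fin N, HN.Adj (x : ℕ) (y : ℕ) ↔ H.Adj x y := by
    intro x y
    rw [hHN]
    exact SimpleGraph.map_adj_apply
  have hadjN' : ∀ x y : ℕ, HN.Adj x y → ∃ a b : Fin N, H.Adj a b ∧ (a : ℕ) = x ∧ (b : ℕ) = y := by
    intro x y h
    rw [hHN, SimpleGraph.map_adj] at h
    exact h
  have hBd : Bd N HN := by
    intro x y h
    obtain ⟨a, b, -, rfl, -⟩ := hadjN' x y h
    exact a.2
  have hcomap : HN.comap (Fin.val : Fin N → ℕ) = H := by
    ext x y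
    exact hadjN x y
  have hOH : Obs H (2 * (d + 1)) := hO N H Sub.refl
  have hcl : ∀ Q : Finset ℕ, HN.IsClique (Q : Set ℕ) → Q.card ≤ 2 * d + 1 := by
    intro Q hQ
    rcases Nat.lt_or_ge Q.card 2 with h | h
    · omega
    have h1 : ∀ x ∈ Q, x < N := by
      intro x hx
      obtain ⟨y, hy, hxy⟩ := Finset.exists_mem_ne (by omega : 1 < Q.card) x
      exact hBd x y (hQ hx hy hxy.symm)
    have h2 : (Q.attachFin h1).card = Q.card := Finset.card_attachFin _ _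
    have h3 := obs_clique hOH (Q.attachFin h1) (by
      intro x hx y hy hxy
      rw [Finset.mem_coe, Finset.mem_attachFin] at hx hy
      exact (hadjN x y).1 (hQ hx hy fun h => hxy (Fin.ext h)))
    omega
  obtain ⟨n1, G1, κ1, hn1, hsub1, hB1, hκ1, hκ1le, hprop1, hadj1⟩ := hC2 d N HN κ hd hBd hcl
    (by
      intro x
      by_cases h : κ x = 0
      · omega
      · obtain ⟨v, hv, rfl⟩ := hκ0 x h
        rw [hκj v hv]
        exact hcode_le _)
    (by
      intro x y hxy he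
      by_contra h
      obtain ⟨v, hv, rfl⟩ := hκ0 x h
      obtain ⟨w, hw, rfl⟩ := hκ0 y (by rwa [← he])
      rw [hκj v hv, hκj w hw] at he
      exact hc v hv w hw ((hadjN _ _).1 hxy) (hcode_inj he))
  obtain ⟨n2, G2, κ2, hn2, hsub2, hB2, hadj2, hκ2, hκ2', hmid⟩ := tri n1 G1 (fun x => κ1 x / 2) hB1 (by
    intro x y z hxy hyz hxz e1 e2
    have h1 := hprop1 x y hxy
    have h2 := hprop1 y z hyz
    have h3 := hprop1 x z hxz
    omega)
  have hsub : Sub H (G2.comap (Fin.val : Fin n2 → ℕ)) := by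
    have := (hsub1.trans hsub2).sub hBd
    rwa [hcomap] at this
  obtain ⟨S, hSd⟩ : ∃ S : SimpleGraph (Fin n2), S = G2.comap (Fin.val : Fin n2 → ℕ) := ⟨_, rfl⟩
  have hSadj : ∀ x y : Fin n2, S.Adj x y ↔ G2.Adj x y := by
    intro x y
    rw [hSd]
    rfl
  rw [← hSd] at hsub
  obtain ⟨A, hA⟩ : ∃ A : Set (Fin n2), A = {x : Fin n2 | (x : ℕ) < n1} := ⟨_, rfl⟩
  have hmemA : ∀ x : Fin n2, x ∈ A ↔ (x : ℕ) < n1 := by
    intro x
    rw [hA]
    rfl
  have hM : Mid S (fun x => κ2 x) A := by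
    refine ⟨fun u hu v hv huv h => ?_, fun m hm => ?_⟩
    · rw [hmemA] at hu hv
      rw [hSadj, hadj2 u v hu hv] at huv
      rw [hκ2 _ hu, hκ2 _ hv] at h
      exact huv.2 h
    · rw [hmemA, not_lt] at hm
      obtain ⟨s, t, hs, ht, hst, h1, h2, h3, h4, h5, h6⟩ := hmid m hm m.2
      refine ⟨⟨s, by omega⟩, (hmemA _).2 hs, ⟨t, by omega⟩, (hmemA _).2 ht, fun h => hst (congrArg Fin.val h), ?_, ?_,
        ?_, h4, h5, ?_⟩
      · rw [hSadj]; exact h1
      · rw [hSadj]; exact h2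
      · rw [hSadj]; exact h3
      · intro u hu hus hut
        rw [hSadj] at hu
        rw [hSadj, hSadj]
        exact h6 u hu (fun h => hus (Fin.ext h)) fun h => hut (Fin.ext h)
  have hOS : Obs S (2 * (d + 1)) := hO n2 S hsub
  have hNn : N ≤ n2 := by omega
  have hlt : ∀ x : Fin n2, κ2 x < d + 1 := by
    intro x
    obtain ⟨y, hy⟩ := hκ2' x
    rw [hy]
    have := hκ1le y
    show κ1 y / 2 < d + 1
    omega
  refine ⟨n2, hNn, S, hsub, ?_, fun x => ⟨κ2 x, hlt x⟩, A, hM, hOS⟩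
  intro u hu v hv
  have h2 : (u : ℕ) < n1 := by omega
  have h3 : (v : ℕ) < n1 := by omega
  rw [hSadj, Fin.val_castLE, Fin.val_castLE, hadj2 _ _ h2 h3, hadj1 _ _ u.2 v.2, hadjN, hκ1 _ u.2, hκ1 _ v.2,
    hκj u hu, hκj v hv, hcode_div, hcode_div]
  constructor
  · rintro ⟨⟨h, -⟩, -⟩
    exact h
  · intro h
    have h1 := hc u hu v hv h
    exact ⟨⟨h, fun h4 => h1 (hcode_inj h4)⟩, fun h4 => h1 (Fin.ext h4)⟩


/-- the main theorem in relative form -/
theorem rel_all (hmain : Main) {d n N : ℕ} (H : SimpleGraph (Fin N)) (hd : 1 ≤ d) (hn : n = 2 * d ∨ n = 2 * d + 1)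
    (hS : HSph n H) (hS2 : HSph2 n H) (B : Set (Fin N))
    (c : Fin N → Fin (d + 1)) (hc : ∀ u ∈ B, ∀ v ∈ B, H.Adj u v → c u ≠ c v) :
    ∃ (m : ℕ) (h : N ≤ m) (S : SimpleGraph (Fin m)), Sub H S ∧ HSph n S ∧ HSph2 n S ∧
      (∀ u ∈ B, ∀ v ∈ B, S.Adj (Fin.castLE h u) (Fin.castLE h v) ↔ H.Adj u v) ∧
      ∀ K : Subgroup (W S), K ≤ (th S).ker → ∀ k : ℕ, n < 2 * k → VN831.l2Betti K k = 0 := by
  obtain ⟨m, h, S, h1, h2, κ, A, h3, h4⟩ := rel3M (c2 c1) H hd
    (fun m S hm => (emb_of_hsph2 (sub_hsph2 hm hS2) (by omega)).obs) B c hc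
  exact ⟨m, h, S, h1, h1.hsph e1 hS, sub_hsph2 h1 hS2, h2, fun K hK k hk => hmain d (Fin m) S κ A h3 h4 K hK k (by omega)⟩

end Pool.Agent.N496.CV
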