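import Pool.Agent.N496.CV.P_SPEC
import Pool.Agent.N496.CV.P_TF
import Pool.Agent.N496.CV.P_GDV
import Pool.Agent.N496.CV.P_GDD
import Pool.Agent.N496.CV.P_INJ
import Pool.Agent.N496.CV.P_FINP
import Pool.Agent.N496.CV.P_FREEP
import Pool.Agent.N496.CV.P_SUS
import Pool.Agent.N496.CV.P_CON
import Pool.Agent.N496.CV.P_LNK
import Pool.Agent.N496.CV.P_RU
import Pool.Agent.N496.CV.P_TOP
import Pool.Agent.N496.CV.P_LEN
import Pool.Agent.N496.CV.P_DAC
import Pool.Agent.N496.CV.ConvB
import Pool.Agent.N496.CV.P_RES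
import Pool.Agent.N496.CV.P_FINAL
import Pool.Agent.N496.CV.Asm
import Pool.Agent.N496.CV.Rel

/-!
# Project CV: the main theorem
-/

set_option autoImplicit false

namespace Pool.Agent.N496.CV

theorem tf' : TF := tf

/-- The main theorem -/
theorem main : Main :=
  asm tf (gdv PSPEC.spec) gdd (sus (inj PSPEC.spec) (finp PSPEC.spec) (freep PSPEC.spec)) con lnk ru (top PSPEC.spec)
    CB.conv (final (res (dac len) CB.conv))

end Pool.Agent.N496.CV
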