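import Pool.Agent.N496.CV.P_FINAL
import Pool.Agent.RK.OreMat
import Pool.Agent.RK.RkSyl
import Pool.Agent.RK.RkMul

/-!
# Project CV: duality

For a group with a self-dual finite free resolution of length `q` (an orientable Poincare duality group of type FL), the
vanishing of the `L²`-Betti numbers above the degree `d` implies their vanishing below the degree `q - d`.
-/

set_option autoImplicit false

open scoped Matrix ENNReal

noncomputable section

namespace Pool.Agent.N496.CV

open Pool.Agent.Helper655.VN Pool.Agent.RK VN831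

attribute [local instance] VN831.bcFunctor_additive VN831.viaAdd VN831.viaMod V7N.bcF_additive
  V7N.rmAdd V7N.rmMod

section rank

variable {K : Type} [Group K] {a b d : ℕ}

theorem mem_SR (x : NG K) : (show Via (RingHom.id (NG K)) from x) ∈ SR (RingHom.id (NG K)) (canL : K →* NG K) := by
  have h1 : (show Via (RingHom.id (NG K)) from x) =
      x • (show Via (RingHom.id (NG K)) from canL (1 : K)) := by
    rw [Via.smul_def, map_one, mul_one]
    rfl
  rw [h1]
  exact Submodule.smul_mem _ _ (Submodule.subset_span ⟨1, rfl⟩)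

/-- the orthogonal projections of the support of `B` and of the image of `A` -/
theorem projections (A : Matrix (Fin a) (Fin b) (NG K)) (B : Matrix (Fin b) (Fin d) (NG K)) (hAB : A * B = 0) :
    ∃ p q : Matrix (Fin b) (Fin b) (NG K), IsLP B p ∧ IsLP Aᴴ q ∧ p * q = 0 ∧ q * p = 0 ∧
      Tr (tau K) (1 - p - q) = b - rk (tau K) A - rk (tau K) B := by
  obtain ⟨p, hp⟩ := Pool.Agent.RK.Lp.lp_exists (vn_NG (G := K)) B
  obtain ⟨q, hq⟩ := Pool.Agent.RK.Lp.lp_exists (vn_NG (G := K)) Aᴴ
  have h1 : A * p = 0 := Pool.Agent.RK.Lp.lp_min_mat hp A hAB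
  have h2 : p * Aᴴ = 0 := by
    have := congrArg Matrix.conjTranspose h1
    rwa [Matrix.conjTranspose_mul, hp.star, Matrix.conjTranspose_zero] at this
  have h3 : p * q = 0 := Pool.Agent.RK.Lp.lp_min_mat hq p h2
  have h4 : q * p = 0 := by
    have := congrArg Matrix.conjTranspose h3
    rwa [Matrix.conjTranspose_mul, hp.star, hq.star, Matrix.conjTranspose_zero] at this
  refine ⟨p, q, hp, hq, h3, h4, ?_⟩
  rw [← Pool.Agent.RK.Lp.rk_star (vn_NG (G := K)) A, Pool.Agent.RK.Lp.rk_eq _ _ hp, Pool.Agent.RK.Lp.rk_eq _ _ hq]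
  unfold Tr
  have h5 : ∀ i : Fin b, tau K ((1 - p - q) i i) = 1 - tau K (p i i) - tau K (q i i) := by
    intro i
    rw [Matrix.sub_apply, Matrix.sub_apply, map_sub, map_sub, Matrix.one_apply_eq, (vn_NG (G := K)).one]
  rw [Finset.sum_congr rfl fun i _ => h5 i, Finset.sum_sub_distrib, Finset.sum_sub_distrib]
  simp
  ring

/-- a row vector as an element of the twisted module -/
def toV (v : Fin b → NG K) : Fin b → Via (RingHom.id (NG K)) := v

theorem dim_le (A : Matrix (Fin a) (Fin b) (NG K)) (B : Matrix (Fin b) (Fin d) (NG K))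
    (e : Matrix (Fin b) (Fin b) (NG K)) (hee : e * e = e) (heB : e * B = 0) (hAe : A * e = 0) :
    ENNReal.ofReal (∑ i, (tr (e i i)).re) ≤ luckDim K (HR (RingHom.id (NG K)) (canL : K →* NG K) A B) := by
  have hfun : ∃ f : rowMod e →ₗ[NG K] HR (RingHom.id (NG K)) (canL : K →* NG K) A B,
      Function.Injective f := by
    have hz : ∀ v : rowMod e, toV (v : Fin b → NG K) ∈ ZR (RingHom.id (NG K)) (canL : K →* NG K) B := by
      intro v
      have hv : Matrix.vecMul (v : Fin b → NG K) e = v := v.2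
      have h1 : Matrix.vecMul (v : Fin b → NG K) B = 0 := by
        rw [← hv, Matrix.vecMul_vecMul, heB, Matrix.vecMul_zero]
      exact ⟨fun i _ => mem_SR _, h1⟩
    let g : rowMod e →ₗ[NG K] ZR (RingHom.id (NG K)) (canL : K →* NG K) B :=
      { toFun := fun v => ⟨toV (v : Fin b → NG K), hz v⟩
        map_add' := fun v w => rfl
        map_smul' := fun s v => rfl }
    refine ⟨(Submodule.mkQ _).comp g, ?_⟩
    rw [← LinearMap.ker_eq_bot, LinearMap.ker_eq_bot']
    intro v hv
    have h1 : g v ∈ (BR (RingHom.id (NG K)) (canL : K →* NG K) A).submoduleOf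
        (ZR (RingHom.id (NG K)) (canL : K →* NG K) B) := by
      rw [LinearMap.comp_apply, Submodule.mkQ_apply, Submodule.Quotient.mk_eq_zero] at hv
      exact hv
    obtain ⟨w, -, hw⟩ := h1
    have hw' : Matrix.vecMul (show Fin a → NG K from w) A = (v : Fin b → NG K) := hw
    apply Subtype.ext
    have hv2 : Matrix.vecMul (v : Fin b → NG K) e = v := v.2
    rw [← hv2, ← hw', Matrix.vecMul_vecMul, hAe, Matrix.vecMul_zero]
    rfl
  unfold luckDim
  exact le_iSup_of_le b (le_iSup_of_le e (le_iSup_of_le hee (le_iSup_of_le hfun le_rfl)))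

theorem rk_of_zero (A : Matrix (Fin a) (Fin b) (NG K)) (B : Matrix (Fin b) (Fin d) (NG K)) (hAB : A * B = 0)
    (h0 : luckDim K (HR (RingHom.id (NG K)) (canL : K →* NG K) A B) = 0) :
    rk (tau K) A + rk (tau K) B = b := by
  classical
  obtain ⟨p, q, hp, hq, hpq, hqp, hTr⟩ := projections A B hAB
  have hqB : q * B = 0 := by
    rw [← hp.mul, ← Matrix.mul_assoc, hqp, Matrix.zero_mul]
  have hAq : A * q = A := by
    have := congrArg Matrix.conjTranspose hq.mul
    rwa [Matrix.conjTranspose_mul, hq.star, Matrix.conjTranspose_conjTranspose] at this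
  have hAp : A * p = 0 := Pool.Agent.RK.Lp.lp_min_mat hp A hAB
  have heB : (1 - p - q) * B = 0 := by
    rw [Matrix.sub_mul, Matrix.sub_mul, Matrix.one_mul, hp.mul, hqB, sub_self, sub_zero]
  have hAe : A * (1 - p - q) = 0 := by
    rw [Matrix.mul_sub, Matrix.mul_sub, Matrix.mul_one, hAp, hAq, sub_zero, sub_self]
  have hee : (1 - p - q) * (1 - p - q) = 1 - p - q := by
    rw [Matrix.mul_sub, Matrix.mul_sub, Matrix.mul_one, Matrix.sub_mul, Matrix.sub_mul, Matrix.one_mul, hp.idem, hqp,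
      Matrix.sub_mul, Matrix.sub_mul, Matrix.one_mul, hpq, hq.idem]
    simp
  have h1 := dim_le A B (1 - p - q) hee heB hAe
  rw [h0, nonpos_iff_eq_zero, ENNReal.ofReal_eq_zero] at h1
  have h2 : Tr (tau K) (1 - p - q) ≤ 0 := h1
  have h3 := Pool.Agent.RK.RkSyl.rk_sylvester (vn_NG (G := K)) A B hAB
  rw [Fintype.card_fin] at h3
  rw [hTr] at h2
  linarith

theorem zero_of_rk (A : Matrix (Fin a) (Fin b) (NG K)) (B : Matrix (Fin b) (Fin d) (NG K)) (hAB : A * B = 0)
    (h0 : rk (tau K) A + rk (tau K) B = b) :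
    luckDim K (HR (RingHom.id (NG K)) (canL : K →* NG K) A B) = 0 := by
  classical
  obtain ⟨p, q, hp, hq, hpq, hqp, hTr⟩ := projections A B hAB
  have he : 1 - p - q = 0 := by
    have hee : (1 - p - q)ᴴ * (1 - p - q) = 1 - p - q := by
      rw [Matrix.conjTranspose_sub, Matrix.conjTranspose_sub, Matrix.conjTranspose_one, hp.star, hq.star,
        Matrix.mul_sub, Matrix.mul_sub, Matrix.mul_one, Matrix.sub_mul, Matrix.sub_mul, Matrix.one_mul, hp.idem, hqp,
        Matrix.sub_mul, Matrix.sub_mul, Matrix.one_mul, hpq, hq.idem]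
      simp
    refine (Pool.Agent.RK.Tr.tr_star (vn_NG (G := K)) (1 - p - q)).2 ?_
    rw [hee, hTr]
    linarith
  have hpq1 : p + q = 1 := by
    have : (1 : Matrix (Fin b) (Fin b) (NG K)) - (p + q) = 0 := by rw [← sub_sub]; exact he
    exact (sub_eq_zero.1 this).symm
  -- row matrices
  have hrow : ∀ {n : ℕ} (Y : Matrix Unit (Fin n) (NG K)), Tr (tau K) (Y * Yᴴ) = 0 → Y = 0 := by
    intro n Y hY
    refine (Pool.Agent.RK.Tr.tr_star (vn_NG (G := K)) Y).2 ?_
    rw [Pool.Agent.RK.Tr.tr_comm (vn_NG (G := K))]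
    exact hY
  have hpos : ∀ {n : ℕ} (Y : Matrix Unit (Fin n) (NG K)), 0 ≤ Tr (tau K) (Y * Yᴴ) := by
    intro n Y
    rw [Pool.Agent.RK.Tr.tr_comm (vn_NG (G := K))]
    exact (Pool.Agent.RK.Tr.tr_star (vn_NG (G := K)) Y).1
  have hM : ∀ x : Fin b → NG K, Matrix.vecMul x (Aᴴ * A + B * Bᴴ) = 0 → x = 0 := by
    intro x hx
    let X : Matrix Unit (Fin b) (NG K) := fun _ => x
    have h1 : X * (Aᴴ * A + B * Bᴴ) = 0 := by
      ext1 i j
      exact congrFun hx j
    have h2 : (X * Aᴴ) * (X * Aᴴ)ᴴ + (X * B) * (X * B)ᴴ = 0 := by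
      have h3 : (X * (Aᴴ * A + B * Bᴴ)) * Xᴴ = 0 := by rw [h1, Matrix.zero_mul]
      rw [← h3]
      simp only [Matrix.conjTranspose_mul, Matrix.conjTranspose_conjTranspose, Matrix.mul_add, Matrix.add_mul,
        Matrix.mul_assoc]
    have h4 : Tr (tau K) ((X * Aᴴ) * (X * Aᴴ)ᴴ) + Tr (tau K) ((X * B) * (X * B)ᴴ) = 0 := by
      have h5 := congrArg (Tr (tau K)) h2
      unfold Tr at h5 ⊢
      simp only [Matrix.add_apply, map_add, Finset.sum_add_distrib, Matrix.zero_apply, map_zero,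
        Finset.sum_const_zero] at h5
      exact h5
    have h6 := hpos (X * Aᴴ)
    have h7 := hpos (X * B)
    have h8 := hrow (X * Aᴴ) (by linarith)
    have h9 := hrow (X * B) (by linarith)
    have h10 : X = 0 := by
      have h11 := Pool.Agent.RK.Lp.lp_min_mat hq X h8
      have h12 := Pool.Agent.RK.Lp.lp_min_mat hp X h9
      rw [← Matrix.mul_one X, ← hpq1, Matrix.mul_add, h11, h12, add_zero]
    exact congrFun h10 ()
  refine FinAux.luck_zero fun m => ?_
  obtain ⟨⟨z, hz1, hz2⟩, rfl⟩ := Submodule.Quotient.mk_surjective _ m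
  have hz3 : Matrix.vecMul (show Fin b → NG K from z) B = 0 := hz2
  obtain ⟨s, c, hs, hc⟩ := Pool.Agent.RK.OreMat.ore_mat (vn_NG (G := K)) (Aᴴ * A + B * Bᴴ) hM
    (show Fin b → NG K from z)
  refine ⟨s, hs, ?_⟩
  rw [← Submodule.Quotient.mk_smul, Submodule.Quotient.mk_eq_zero]
  let X : Matrix Unit (Fin b) (NG K) := fun _ => c
  let Z : Matrix Unit (Fin b) (NG K) := fun _ j => s * (show Fin b → NG K from z) j
  have h1 : X * (Aᴴ * A + B * Bᴴ) = Z := by
    ext1 i j
    exact (congrFun hc j).symm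
  have h2 : Z * B = 0 := by
    ext1 i j
    show ∑ l, s * (show Fin b → NG K from z) l * B l j = 0
    have h3 := congrFun hz3 j
    have h4 : ∑ l, (show Fin b → NG K from z) l * B l j = 0 := h3
    rw [Finset.sum_congr rfl fun l _ => mul_assoc _ _ _, ← Finset.mul_sum, h4, mul_zero]
  have h3 : X * B * Bᴴ * B = 0 := by
    rw [← h1, Matrix.mul_add, Matrix.add_mul, Matrix.mul_assoc X (Aᴴ * A) B, Matrix.mul_assoc Aᴴ A B, hAB,
      Matrix.mul_zero, Matrix.mul_zero, zero_add] at h2
    rw [Matrix.mul_assoc X B Bᴴ]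
    exact h2
  have h4 : X * B * Bᴴ = 0 := by
    refine hrow _ ?_
    have h5 : (X * B * Bᴴ) * (X * B * Bᴴ)ᴴ = 0 := by
      have h6 : (X * B * Bᴴ) * (X * B * Bᴴ)ᴴ = (X * B * Bᴴ * B) * (Bᴴ * Xᴴ) := by
        simp only [Matrix.conjTranspose_mul, Matrix.conjTranspose_conjTranspose, Matrix.mul_assoc]
      rw [h6, h3, Matrix.zero_mul]
    rw [h5]
    unfold Tr
    simp
  have h5 : (X * Aᴴ) * A = Z := by
    rw [← h1, Matrix.mul_add, ← Matrix.mul_assoc X B Bᴴ, h4, add_zero, Matrix.mul_assoc]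
  refine ⟨(show Fin a → Via (RingHom.id (NG K)) from (X * Aᴴ) ()), fun i _ => mem_SR _, ?_⟩
  funext j
  exact congrFun (congrFun h5 ()) j

end rank

end Pool.Agent.N496.CV
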