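import Pool.Agent.N496.CV.P_FINAL

/-!
# The automorphism of the group von Neumann algebra given by an orientation character
-/

set_option autoImplicit false

open scoped Matrix ENNReal InnerProductSpace

noncomputable section

namespace Pool.Agent.N496.CV.Tw

open Pool.Agent.Helper655.VN Pool.Agent.RK

variable {K : Type} [Group K]

theorem norm_unit (u : ℤˣ) : ‖((u : ℤ) : ℂ)‖ = 1 := by
  rcases Int.units_eq_one_or u with h | h <;> rw [h] <;> simp

/-- multiplication by the signs -/
def U (w : K →* ℤˣ) : EllTwo K →L[ℂ] EllTwo K :=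
  LinearIsometry.toContinuousLinearMap
    { toFun := fun f => ⟨fun h => ((w h : ℤ) : ℂ) * f h, by
        have h1 := (lp.memℓp f).summable (by norm_num)
        refine memℓp_gen ?_
        refine h1.congr fun h => ?_
        rw [norm_mul, norm_unit, one_mul]⟩
      map_add' := fun f g => by
        ext h
        exact mul_add _ _ _
      map_smul' := fun c f => by
        ext h
        exact mul_left_comm _ _ _
      norm_map' := fun f => by
        have h1 : (0 : ℝ) < (2 : ENNReal).toReal := by norm_num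
        rw [lp.norm_eq_tsum_rpow h1, lp.norm_eq_tsum_rpow h1]
        congr 1
        refine tsum_congr fun h => ?_
        have h2 : ‖((w h : ℤ) : ℂ) * f h‖ = ‖f h‖ := by rw [norm_mul, norm_unit, one_mul]
        exact congrArg (fun x : ℝ => x ^ (2 : ENNReal).toReal) h2 }

theorem U_apply (w : K →* ℤˣ) (f : EllTwo K) (h : K) : (U w f) h = ((w h : ℤ) : ℂ) * f h := rfl

theorem ww (w : K →* ℤˣ) (h : K) : ((w h : ℤ) : ℂ) * ((w h : ℤ) : ℂ) = 1 := by
  rcases Int.units_eq_one_or (w h) with h | h <;> rw [h] <;> simp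

theorem U_U (w : K →* ℤˣ) : U w * U w = 1 := by
  ext f h
  show ((w h : ℤ) : ℂ) * (((w h : ℤ) : ℂ) * f h) = f h
  rw [← mul_assoc, ww, one_mul]

theorem star_U (w : K →* ℤˣ) : star (U w) = U w := by
  rw [ContinuousLinearMap.star_eq_adjoint]
  symm
  rw [ContinuousLinearMap.eq_adjoint_iff]
  intro x y
  have h1 := lp.hasSum_inner (𝕜 := ℂ) (U w x) y
  have h2 := lp.hasSum_inner (𝕜 := ℂ) x (U w y)
  refine h1.unique ?_
  refine h2.congr_fun ?_
  intro i
  show ⟪(U w x) i, y i⟫_ℂ = ⟪x i, (U w y) i⟫_ℂ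
  rw [U_apply, U_apply]
  simp only [RCLike.inner_apply, map_mul]
  have h3 : (starRingEnd ℂ) ((w i : ℤ) : ℂ) = ((w i : ℤ) : ℂ) := by
    rcases Int.units_eq_one_or (w i) with h | h <;> rw [h] <;> simp
  rw [h3]
  ring

theorem U_dl (w : K →* ℤˣ) (g : K) : U w (dl g) = ((w g : ℤ) : ℂ) • dl g := by
  ext h
  rw [U_apply]
  show _ = ((w g : ℤ) : ℂ) * (dl g) h
  by_cases hh : h = g
  · rw [hh]
  · rw [dl_apply_ne _ _ hh, mul_zero, mul_zero]

theorem U_rho (w : K →* ℤˣ) (g : K) : U w * rho K g = ((w g : ℤ) : ℂ) • (rho K g * U w) := by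
  refine ext_dl fun h => ?_
  show U w (rho K g (dl h)) = ((w g : ℤ) : ℂ) • (rho K g (U w (dl h)))
  rw [rho_dl, U_dl, U_dl, map_smul, rho_dl, smul_smul]
  congr 1
  rw [map_mul, map_inv, Int.units_inv_eq_self, mul_comm]
  push_cast
  ring

theorem U_lam (w : K →* ℤˣ) (g : K) : U w * lam K g * U w = ((w g : ℤ) : ℂ) • lam K g := by
  refine ext_dl fun h => ?_
  show U w (lam K g (U w (dl h))) = ((w g : ℤ) : ℂ) • (lam K g (dl h))
  rw [U_dl, map_smul, map_smul, lam_dl, U_dl, smul_smul]
  congr 1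
  have h1 : ((w h : ℤ) : ℂ) * ((w (g * h) : ℤ) : ℂ) = ((w h : ℤ) : ℂ) * ((w h : ℤ) : ℂ) * ((w g : ℤ) : ℂ) := by
    rw [map_mul]
    push_cast
    ring
  rw [h1, ww, one_mul]

theorem mem (w : K →* ℤˣ) {T : EllTwo K →L[ℂ] EllTwo K} (hT : T ∈ NG K) : U w * T * U w ∈ NG K := by
  rw [mem_NG] at hT ⊢
  intro g
  have h1 : rho K g * U w = ((w g : ℤ) : ℂ) • (U w * rho K g) := by
    rw [U_rho, smul_smul, ww, one_smul]
  calc rho K g * (U w * T * U w) = (rho K g * U w) * T * U w := by simp only [mul_assoc]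
    _ = ((w g : ℤ) : ℂ) • (U w * (rho K g * T) * U w) := by
      rw [h1, smul_mul_assoc, smul_mul_assoc]
      simp only [mul_assoc]
    _ = ((w g : ℤ) : ℂ) • (U w * T * (rho K g * U w)) := by
      rw [hT g]
      simp only [mul_assoc]
    _ = U w * T * U w * rho K g := by
      rw [h1, mul_smul_comm, smul_smul, ww, one_smul]
      simp only [mul_assoc]

/-- the automorphism -/
def sig (w : K →* ℤˣ) : NG K →+* NG K where
  toFun T := ⟨U w * T.1 * U w, mem w T.2⟩
  map_one' := Subtype.ext (by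
    show U w * 1 * U w = 1
    rw [mul_one, U_U])
  map_mul' S T := Subtype.ext (by
    show U w * (S.1 * T.1) * U w = (U w * S.1 * U w) * (U w * T.1 * U w)
    have h1 : (U w * S.1 * U w) * (U w * T.1 * U w) = U w * S.1 * (U w * U w) * T.1 * U w := by
      simp only [mul_assoc]
    rw [h1, U_U, mul_one]
    simp only [mul_assoc])
  map_zero' := Subtype.ext (by
    show U w * 0 * U w = 0
    rw [mul_zero, zero_mul])
  map_add' S T := Subtype.ext (by
    show U w * (S.1 + T.1) * U w = U w * S.1 * U w + U w * T.1 * U w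
    rw [mul_add, add_mul])

theorem sig_sig (w : K →* ℤˣ) (x : NG K) : sig w (sig w x) = x := by
  apply Subtype.ext
  show U w * (U w * x.1 * U w) * U w = x.1
  have h1 : U w * (U w * x.1 * U w) * U w = (U w * U w) * x.1 * (U w * U w) := by simp only [mul_assoc]
  rw [h1, U_U, one_mul, mul_one]

theorem sig_star (w : K →* ℤˣ) (x : NG K) : sig w (star x) = star (sig w x) := by
  apply Subtype.ext
  show U w * star x.1 * U w = star (U w * x.1 * U w)
  rw [star_mul, star_mul, star_U, mul_assoc]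

theorem sig_tau (w : K →* ℤˣ) (x : NG K) : tau K (sig w x) = tau K x := by
  rw [tau_apply, tau_apply, tr_apply, tr_apply]
  show (⟪dl 1, U w (x.1 (U w (dl 1)))⟫_ℂ).re = _
  rw [U_dl, map_one, Units.val_one, Int.cast_one, one_smul, inner_dl, inner_dl, U_apply, map_one, Units.val_one,
    Int.cast_one, one_mul]

theorem sig_canL (w : K →* ℤˣ) (g : K) : sig w (canL g) = (w g : ℤ) • canL g := by
  apply Subtype.ext
  show U w * lam K g * U w = (w g : ℤ) • lam K g
  rw [U_lam]
  rcases Int.units_eq_one_or (w g) with h | h <;> rw [h] <;> simp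

theorem lp_sig (w : K →* ℤˣ) {m n : ℕ} {A : Matrix (Fin m) (Fin n) (NG K)} {p : Matrix (Fin m) (Fin m) (NG K)}
    (h : IsLP A p) : IsLP (A.map (sig w)) (p.map (sig w)) where
  idem := by rw [← Matrix.map_mul, h.idem]
  star := by
    rw [← h.star]
    ext1 i j
    show star (sig w (pᴴ j i)) = sig w (pᴴ i j)
    rw [h.star, ← sig_star]
    exact congrArg (sig w) (congrFun (congrFun h.star i) j)
  mul := by rw [← Matrix.map_mul, h.mul]
  min := by
    intro x hx
    have h1 : ∀ (y : Fin m → NG K) {k : ℕ} (B : Matrix (Fin m) (Fin k) (NG K)),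
        Matrix.vecMul y (B.map (sig w)) = fun j => sig w (Matrix.vecMul (fun i => sig w (y i)) B j) := by
      intro y k B
      funext j
      show ∑ i, y i * sig w (B i j) = sig w (∑ i, sig w (y i) * B i j)
      rw [map_sum]
      refine Finset.sum_congr rfl fun i _ => ?_
      rw [map_mul, sig_sig]
    have h2 : Matrix.vecMul (fun i => sig w (x i)) A = 0 := by
      funext j
      have h3 := congrFun hx j
      rw [h1] at h3
      have h4 := congrArg (sig w) h3
      rw [sig_sig] at h4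
      rw [h4]
      exact map_zero _
    rw [h1, h.min _ h2]
    funext j
    exact map_zero _

theorem rk_sig (w : K →* ℤˣ) {m n : ℕ} (A : Matrix (Fin m) (Fin n) (NG K)) :
    rk (tau K) (A.map (sig w)) = rk (tau K) A := by
  obtain ⟨p, hp⟩ := Pool.Agent.RK.Lp.lp_exists (vn_NG (G := K)) A
  rw [Pool.Agent.RK.Lp.rk_eq _ _ hp, Pool.Agent.RK.Lp.rk_eq _ _ (lp_sig w hp)]
  unfold Tr
  exact Finset.sum_congr rfl fun i _ => sig_tau w _

theorem ev_dual (w : K →* ℤˣ) (x y : MonoidAlgebra ℤ K) (h : ∀ g, x.coeff g = (w g : ℤ) * y.coeff g⁻¹) :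
    V7N.evM (canL : K →* NG K) x = sig w (star (V7N.evM (canL : K →* NG K) y)) := by
  rw [FinAux.evM_apply, FinAux.evM_apply]
  unfold Finsupp.sum
  rw [star_sum, map_sum]
  refine Finset.sum_nbij' (fun g => g⁻¹) (fun g => g⁻¹) ?_ ?_ (fun g _ => inv_inv g) (fun g _ => inv_inv g) ?_
  · intro g hg
    rw [Finsupp.mem_support_iff] at hg ⊢
    rw [h] at hg
    exact right_ne_zero_of_mul hg
  · intro g hg
    rw [Finsupp.mem_support_iff] at hg ⊢
    rw [h, inv_inv]
    exact mul_ne_zero (Units.ne_zero _) hg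
  · intro g _
    rw [h, star_zsmul]
    have h1 : star (canL g⁻¹ : NG K) = canL g := by
      apply Subtype.ext
      show star (lam K g⁻¹) = lam K g
      rw [star_lam, inv_inv]
    rw [h1, map_zsmul, sig_canL, smul_smul, mul_comm]

end Pool.Agent.N496.CV.Tw
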