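import Pool.Agent.N496.CV.PDDef
import Pool.Agent.N496.CV.Twist
import Pool.Agent.N496.CV.Dual

/-!
# Duality of the vanishing of the `L²`-Betti numbers of Poincare duality groups
-/

set_option autoImplicit false

open scoped Matrix ENNReal

noncomputable section

namespace Pool.Agent.N496.CV

open Pool.Agent.Helper655.VN Pool.Agent.RK VN831

attribute [local instance] VN831.bcFunctor_additive VN831.viaAdd VN831.viaMod V7N.bcF_additive
  V7N.rmAdd V7N.rmMod

variable {K : Type} [Group K]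

theorem indep_id : CosetIndep (RingHom.id (NG K)) (canL : K →* NG K) (MonoidHom.id K).range := by
  intro s hs x hx g hg
  have hsub : s = {g} := by
    rw [Finset.eq_singleton_iff_unique_mem]
    refine ⟨hg, fun h hh => ?_⟩
    by_contra hne
    refine hs h hh g hg hne ?_
    exact ⟨_, rfl⟩
  rw [hsub, Finset.sum_singleton] at hx
  exact canL_mul_eq_zero _ g hx

/-- the matrices over the group von Neumann algebra -/
def nm (C : V7N.FreeRes K) (n : ℕ) : Matrix (Fin (C.r (n + 1))) (Fin (C.r n)) (NG K) :=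
  (C.d n).map (V7N.evM (canL : K →* NG K))

theorem nm_mul (C : V7N.FreeRes K) (n : ℕ) : nm C (n + 1) * nm C n = 0 := by
  unfold nm
  rw [← Matrix.map_mul, V7N.gen_mul]
  ext1 i j
  exact map_zero (V7N.evM (canL : K →* NG K))

theorem succ_iff (C : V7N.FreeRes K) (n : ℕ) :
    l2Betti K (n + 1) = 0 ↔ rk (tau K) (nm C (n + 1)) + rk (tau K) (nm C n) = C.r (n + 1) := by
  obtain ⟨f⟩ := V7N.v7_succ C n (MonoidHom.id K) Function.injective_id (canL : K →* NG K) canL (RingHom.id (NG K))
    (fun k => rfl) indep_id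
  have f' : homN K (n + 1) ≃ₗ[NG K] HR (RingHom.id (NG K)) (canL : K →* NG K) (nm C (n + 1)) (nm C n) := f
  have h1 : l2Betti K (n + 1) = luckDim K (HR (RingHom.id (NG K)) (canL : K →* NG K) (nm C (n + 1)) (nm C n)) :=
    luckDim_congr f'
  rw [h1]
  exact ⟨rk_of_zero _ _ (nm_mul C n), zero_of_rk _ _ (nm_mul C n)⟩

theorem rk_cols_zero {a : ℕ} (A : Matrix (Fin a) (Fin 0) (NG K)) : rk (tau K) A = 0 := by
  have h : IsLP A 0 := ⟨by simp, by simp, by ext1 i j; exact j.elim0, fun x _ => by simp⟩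
  rw [Pool.Agent.RK.Lp.rk_eq _ _ h]
  unfold Tr
  simp

theorem rk_rows_zero {a b : ℕ} (ha : a = 0) (A : Matrix (Fin a) (Fin b) (NG K)) : rk (tau K) A = 0 := by
  subst ha
  have h : IsLP A 0 := ⟨by simp, by simp, by ext1 i j; exact i.elim0, fun x _ => by simp⟩
  rw [Pool.Agent.RK.Lp.rk_eq _ _ h]
  unfold Tr
  simp

theorem zero_iff (C : V7N.FreeRes K) : l2Betti K 0 = 0 ↔ rk (tau K) (nm C 0) = C.r 0 := by
  obtain ⟨f⟩ := V7N.v7_zero C (MonoidHom.id K) Function.injective_id (canL : K →* NG K) canL (RingHom.id (NG K))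
    (fun k => rfl) indep_id
  have f' : homN K 0 ≃ₗ[NG K] HR (RingHom.id (NG K)) (canL : K →* NG K) (nm C 0)
    ((0 : Matrix (Fin (C.r 0)) (Fin 0) (MonoidAlgebra ℤ K)).map (V7N.evM (canL : K →* NG K))) := f
  have h1 : l2Betti K 0 = luckDim K (HR (RingHom.id (NG K)) (canL : K →* NG K) (nm C 0)
    ((0 : Matrix (Fin (C.r 0)) (Fin 0) (MonoidAlgebra ℤ K)).map (V7N.evM (canL : K →* NG K)))) :=
    luckDim_congr f'
  rw [h1]
  have h2 : nm C 0 * ((0 : Matrix (Fin (C.r 0)) (Fin 0) (MonoidAlgebra ℤ K)).map (V7N.evM (canL : K →* NG K))) = 0 := by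
    ext1 i j
    exact j.elim0
  have h3 := rk_cols_zero ((0 : Matrix (Fin (C.r 0)) (Fin 0) (MonoidAlgebra ℤ K)).map (V7N.evM (canL : K →* NG K)))
  constructor
  · intro h
    have h4 := rk_of_zero _ _ h2 h
    rwa [h3, add_zero] at h4
  · intro h
    refine zero_of_rk _ _ h2 ?_
    rw [h3, add_zero, h]

theorem rk_dual {q : ℕ} (P : PD K q) (i j : ℕ) (h : i + 1 + j = q) :
    rk (tau K) (nm P.D i) = rk (tau K) (nm P.C j) := by
  have h' : i + (j + 1) = q := by omega
  have h1 : nm P.D i = (((nm P.C j)ᴴ).map (Tw.sig P.w)).submatrix (P.e (i + 1) j h) (P.e i (j + 1) h') := by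
    ext1 a b
    exact Tw.ev_dual P.w _ _ fun g => P.dual i j h h' a b g
  rw [h1, Pool.Agent.RK.Lp.rk_reindex (vn_NG (G := K)), Tw.rk_sig, Pool.Agent.RK.Lp.rk_star (vn_NG (G := K))]

/-- For a Poincare duality group of dimension `q` (and type FL) the vanishing of the `L²`-Betti number of degree `j`
implies the vanishing of the one of degree `q - j`. -/
theorem pd_zero {q : ℕ} (P : PD K q) (k j : ℕ) (hq : k + j = q) (hj : l2Betti K j = 0) : l2Betti K k = 0 := by
  have hr : ((P.D.r k : ℕ) : ℝ) = ((P.C.r j : ℕ) : ℝ) := congrArg _ (Fin.equiv_iff_eq.1 ⟨P.e k j hq⟩)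
  cases k with
  | zero =>
    refine (zero_iff P.D).2 ?_
    cases j with
    | zero =>
      have hC := (zero_iff P.C).1 hj
      have h1 : rk (tau K) (nm P.D 0) = 0 := rk_rows_zero (P.zeroD 1 (by omega)) _
      have h2 : rk (tau K) (nm P.C 0) = 0 := rk_rows_zero (P.zeroC 1 (by omega)) _
      linarith
    | succ j =>
      have hC := (succ_iff P.C j).1 hj
      have h1 : rk (tau K) (nm P.D 0) = rk (tau K) (nm P.C j) := rk_dual P 0 j (by omega)
      have h2 : rk (tau K) (nm P.C (j + 1)) = 0 := rk_rows_zero (P.zeroC _ (by omega)) _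
      linarith
  | succ k =>
    refine (succ_iff P.D k).2 ?_
    cases j with
    | zero =>
      have hC := (zero_iff P.C).1 hj
      have h1 : rk (tau K) (nm P.D (k + 1)) = 0 := rk_rows_zero (P.zeroD _ (by omega)) _
      have h2 : rk (tau K) (nm P.D k) = rk (tau K) (nm P.C 0) := rk_dual P k 0 (by omega)
      linarith
    | succ j =>
      have hC := (succ_iff P.C j).1 hj
      have h1 : rk (tau K) (nm P.D (k + 1)) = rk (tau K) (nm P.C j) := rk_dual P (k + 1) j (by omega)
      have h2 : rk (tau K) (nm P.D k) = rk (tau K) (nm P.C (j + 1)) := rk_dual P k (j + 1) (by omega)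
      linarith

end Pool.Agent.N496.CV
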