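import Pool.Agent.N496.CV.DualPf

/-!
# The sign of the Euler characteristic
-/

set_option autoImplicit false

open scoped Matrix ENNReal

noncomputable section

namespace Pool.Agent.N496.CV

open Pool.Agent.Helper655.VN Pool.Agent.RK VN831

variable {K : Type} [Group K]

/-- the `L²`-Betti numbers in terms of the ranks of the matrices -/
def bet (C : V7N.FreeRes K) : ℕ → ℝ
  | 0 => C.r 0 - rk (tau K) (nm C 0)
  | n + 1 => C.r (n + 1) - rk (tau K) (nm C (n + 1)) - rk (tau K) (nm C n)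

theorem bet_nonneg (C : V7N.FreeRes K) (n : ℕ) : 0 ≤ bet C n := by
  cases n with
  | zero =>
    have h := Pool.Agent.RK.RkSyl.rk_sylvester (vn_NG (G := K)) (nm C 0)
      (0 : Matrix (Fin (C.r 0)) (Fin 0) (NG K)) (by ext1 i j; exact j.elim0)
    rw [Fintype.card_fin, rk_cols_zero] at h
    show 0 ≤ (C.r 0 : ℝ) - rk (tau K) (nm C 0)
    linarith
  | succ n =>
    have h := Pool.Agent.RK.RkSyl.rk_sylvester (vn_NG (G := K)) (nm C (n + 1)) (nm C n) (nm_mul C n)
    rw [Fintype.card_fin] at h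
    show 0 ≤ (C.r (n + 1) : ℝ) - rk (tau K) (nm C (n + 1)) - rk (tau K) (nm C n)
    linarith

theorem bet_zero (C : V7N.FreeRes K) (n : ℕ) (h : l2Betti K n = 0) : bet C n = 0 := by
  cases n with
  | zero =>
    have h1 := (zero_iff C).1 h
    show (C.r 0 : ℝ) - rk (tau K) (nm C 0) = 0
    linarith
  | succ n =>
    have h1 := (succ_iff C n).1 h
    show (C.r (n + 1) : ℝ) - rk (tau K) (nm C (n + 1)) - rk (tau K) (nm C n) = 0
    linarith

theorem euler_sum (C : V7N.FreeRes K) (m : ℕ) :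
    ∑ i ∈ Finset.range (m + 1), (-1 : ℝ) ^ i * (C.r i : ℝ) =
      (-1 : ℝ) ^ m * rk (tau K) (nm C m) + ∑ i ∈ Finset.range (m + 1), (-1 : ℝ) ^ i * bet C i := by
  induction m with
  | zero =>
    rw [Finset.sum_range_one, Finset.sum_range_one]
    show _ = (-1 : ℝ) ^ 0 * rk (tau K) (nm C 0) + (-1 : ℝ) ^ 0 * ((C.r 0 : ℝ) - rk (tau K) (nm C 0))
    ring
  | succ m ih =>
    rw [Finset.sum_range_succ, ih, Finset.sum_range_succ _ (m + 1)]
    show _ = (-1 : ℝ) ^ (m + 1) * rk (tau K) (nm C (m + 1)) + (_ + (-1 : ℝ) ^ (m + 1) *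
      ((C.r (m + 1) : ℝ) - rk (tau K) (nm C (m + 1)) - rk (tau K) (nm C m)))
    ring

/-- The sign of the Euler characteristic of a group of type FL all of whose `L²`-Betti numbers but the one of degree `d`
vanish. -/
theorem euler_sign (C : V7N.FreeRes K) (q d : ℕ) (h0 : ∀ i, q < i → C.r i = 0)
    (h : ∀ k, k ≠ d → l2Betti K k = 0) :
    0 ≤ (-1 : ℤ) ^ d * ∑ i ∈ Finset.range (q + 1), (-1 : ℤ) ^ i * (C.r i : ℤ) := by
  have h1 := euler_sum C q
  have h2 : rk (tau K) (nm C q) = 0 := rk_rows_zero (h0 _ (by omega)) _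
  rw [h2, mul_zero, zero_add] at h1
  have h3 : 0 ≤ (-1 : ℝ) ^ d * ∑ i ∈ Finset.range (q + 1), (-1 : ℝ) ^ i * (C.r i : ℝ) := by
    rw [h1, Finset.mul_sum]
    refine Finset.sum_nonneg fun i _ => ?_
    by_cases hi : i = d
    · rw [hi, ← mul_assoc, ← pow_add, ← two_mul, pow_mul]
      simpa using bet_nonneg C d
    · rw [bet_zero C i (h i hi)]
      simp
  exact_mod_cast h3

end Pool.Agent.N496.CV
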