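import Mathlib
import Pool.Agent.Helper831.VN.Defs
import Pool.Agent.Helper970.V7.Defs

/-!
# `L²`-Betti numbers of groups, in a short form

`dimL`: Lueck's dimension function of a ring with a trace; `homR`: group homology with coefficients in a ring;
`IsVN`: the characterization of the group von Neumann algebra; `HasL2Betti K k b`: the `k`-th `L²`-Betti number of the
group `K` is `b`.
-/

set_option autoImplicit false

open scoped ENNReal InnerProductSpace

namespace Pool.Agent.N496.CV

attribute [local instance] V7N.bcF_additive

/-- Lueck's extended dimension of a left `R`-module `M`, for a ring `R` with a trace `tr`: the supremum of the traces of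
the idempotent matrices `e` over `R` such that the finitely generated projective module `R^k e` (the rows `v` with
`v e = v`) embeds in `M`. -/
noncomputable def dimL {R : Type} [Ring R] (tr : R → ℝ) (M : Type) [AddCommGroup M] [Module R M] : ℝ≥0∞ :=
  ⨆ (k : ℕ) (e : Matrix (Fin k) (Fin k) R) (_ : e * e = e)
    (_ : ∃ f : VN831.rowMod e →ₗ[R] M, Function.Injective f), ENNReal.ofReal (∑ i, tr (e i i))

/-- The group homology `H_n(K; R) = Tor_n^{ℤ[K]}(R, ℤ)`, a left `R`-module, for a ring `R` which is a right
`ℤ[K]`-module via `c : K → R`. -/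
noncomputable def homR {K R : Type} [Group K] [Ring R] (c : K →* R) (n : ℕ) : ModuleCat.{0} R :=
  ((V7N.bcF c).leftDerived n).obj (V7N.trivG K)

/-- `N`, with the group homomorphism `c` and the trace `tr`, is the group von Neumann algebra of `K`: `H` is the Hilbert
space with the orthonormal basis `e g`, `g ∈ K` (that is, `ℓ²(K)`), and `π` is an isomorphism of `N` with the ring of
all bounded operators on `H` which commute with the right translations `e h ↦ e (h g)`, such that `c g` acts by the left
translation `e h ↦ e (g h)`, and `tr x` is the real part of `⟨e 1, x (e 1)⟩`. -/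
structure IsVN {K N H : Type} [Group K] [Ring N] [NormedAddCommGroup H] [InnerProductSpace ℂ H] [CompleteSpace H]
    (c : K →* N) (tr : N → ℝ) (e : K → H) (π : N →+* (H →L[ℂ] H)) : Prop where
  orth : Orthonormal ℂ e
  dense : ⊤ ≤ (Submodule.span ℂ (Set.range e)).topologicalClosure
  inj : Function.Injective π
  range : ∀ T : H →L[ℂ] H, (∃ x, π x = T) ↔
    ∀ (g : K) (R : H →L[ℂ] H), (∀ h, R (e h) = e (h * g)) → ∀ ξ, T (R ξ) = R (T ξ)
  left : ∀ g h, π (c g) (e h) = e (g * h)
  trace : ∀ x, tr x = (⟪e 1, π x (e 1)⟫_ℂ).re

/-- The `k`-th `L²`-Betti number of the group `K` is `b`: Lueck's dimension of the homology of `K` with coefficients in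
the group von Neumann algebra `N` of `K` (which is unique up to isomorphism) is `b`. -/
inductive HasL2Betti (K : Type) [Group K] (k : ℕ) (b : ℝ≥0∞) : Prop
  | mk (N H : Type) [Ring N] [NormedAddCommGroup H] [InnerProductSpace ℂ H] [CompleteSpace H] (c : K →* N)
      (tr : N → ℝ) (e : K → H) (π : N →+* (H →L[ℂ] H)) (h : IsVN c tr e π) (hb : dimL tr (homR c k) = b) :
      HasL2Betti K k b

end Pool.Agent.N496.CV
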