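import Pool.Agent.Helper970.V7.Defs

/-!
# Poincare duality groups of type FL
-/

set_option autoImplicit false

namespace Pool.Agent.N496.CV

/-- `K` is a Poincare duality group of dimension `q` of type FL with the orientation character `w`: a resolution `C` of
`ℤ` by finitely generated free left `ℤ[K]`-modules (with the matrices `C.d`), zero above the degree `q`, whose dual
`Hom(C, ℤ[K])`, made a complex of left modules by the involution `g ↦ w(g) g⁻¹` and written in the opposite order, is
a resolution `D` of `ℤ` too. -/
structure PD (K : Type) [Group K] (q : ℕ) where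
  C : V7N.FreeRes K
  D : V7N.FreeRes K
  w : K →* ℤˣ
  zeroC : ∀ i, q < i → C.r i = 0
  zeroD : ∀ i, q < i → D.r i = 0
  e : ∀ i j, i + j = q → (Fin (D.r i) ≃ Fin (C.r j))
  dual : ∀ i j (h : i + 1 + j = q) (h' : i + (j + 1) = q) a b g,
    (D.d i a b).coeff g = (w g : ℤ) * (C.d j (e i (j + 1) h' b) (e (i + 1) j h a)).coeff g⁻¹

end Pool.Agent.N496.CV
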