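import Pool.Agent.N496.CV.Stm0
import Pool.Agent.N496.LT.Defs

/-!
# Project CV: `L²`-Betti numbers of arbitrary covers of Davis manifolds. The complex davis.

`W G` acts on functions `W G → R` from the right, `(f · x) w = f (w x)`. Chains are families `c T : W G → R`, `T` a
clique, with `c T (w t) = - c T w` for `t ∈ T`.
-/

set_option autoImplicit false

noncomputable section

namespace Pool.Agent.N496.CV

open Pool.Agent.W907.SG Pool.Agent.W461.SGN Pool.Agent.N496.LT

/-- vectors of functions on the kernel: chains of the complex `davis G` with coefficients in `R ⊗ ℤ[Γ]` over `K` -/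
structure FV {V : Type} [Fintype V] [LinearOrder V] {G : SimpleGraph V} {R : Type} [Ring R] (K : Subgroup (W G))
    (u : K →* R) (n : ℕ) (v : (davis G).ι → (th G).ker → R) : Prop where
  deg : ∀ i, (davis G).deg i ≠ n → v i = 0
  eqK : ∀ i (h : K) (g g' : (th G).ker), (g' : W G) = h * g → v i g' = v i g * u h⁻¹
  fin : ∃ S : Finset (th G).ker, ∀ i g, v i g ≠ 0 → ∃ h : K, ∃ x ∈ S, (g : W G) = h * x

/-- right multiplication by the boundary matrix of `davis G` -/
def mulD {V : Type} [Fintype V] [LinearOrder V] {G : SimpleGraph V} {R : Type} [AddCommGroup R]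
    (v : (davis G).ι → (th G).ker → R) (j : (davis G).ι) (g : (th G).ker) : R :=
  ∑ i, ((davis G).D i j).coeff.sum fun γ a => a • v i (g * γ⁻¹)

/-- the complex `davis G` is the complex of chains of functions on `W G` -/
def CONV : Prop := ∀ (V : Type) [Fintype V] [LinearOrder V] (G : SimpleGraph V) (K : Subgroup (W G)) (R : Type)
    [Ring R] (u : K →* R), K ≤ (th G).ker →
    ∃ Ψ : ((davis G).ι → (th G).ker → R) → (Finset V → W G → R),
      (∀ n v, FV K u n v → IsCh G Set.univ (InM K u Set.univ ⊥) n (Ψ v)) ∧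
      (∀ n c, IsCh G Set.univ (InM K u Set.univ ⊥) n c → ∃ v, FV K u n v ∧ Ψ v = c) ∧
      Function.Injective Ψ ∧ (∀ v v', Ψ (v + v') = Ψ v + Ψ v') ∧
      (∀ n v, FV K u n v → Ψ (mulD v) = bdf G (Ψ v)) ∧
      (∀ (r : R) v T w, Ψ (fun i g => r * v i g) T w = r * Ψ v T w)

end Pool.Agent.N496.CV
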