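import Pool.Agent.N496.CV.Stm1
import Pool.Agent.N496.CV.Stm2
import Pool.Agent.Helper831.VN.Bridge
import Pool.Agent.Helper970.V7.Gen

/-!
# Project CV: `L²`-Betti numbers of arbitrary covers of Davis manifolds. Homology.

`W G` acts on functions `W G → R` from the right, `(f · x) w = f (w x)`. Chains are families `c T : W G → R`, `T` a
clique, with `c T (w t) = - c T w` for `t ∈ T`.
-/

set_option autoImplicit false

noncomputable section

namespace Pool.Agent.N496.CV

open Pool.Agent.W907.SG Pool.Agent.W461.SGN Pool.Agent.N496.LT Pool.Agent.Helper655.VN Pool.Agent.RK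

attribute [local instance] VN831.bcFunctor_additive VN831.viaAdd VN831.viaMod

/-- `davis G` gives a free resolution of the trivial module -/
def RES : Prop := ∀ (V : Type) [Fintype V] [LinearOrder V] (G : SimpleGraph V),
    ∃ ε : (Fin ((davis G).toFree.rank 0) → MonoidAlgebra ℤ (th G).ker) →+ ℤ,
      (∀ (g : (th G).ker) v, ε (fun i => MonoidAlgebra.single g (1 : ℤ) * v i) = ε v) ∧
      Function.Surjective ε ∧ (∀ v, ε v = 0 ↔ ∃ w, v = Matrix.vecMul w ((davis G).toFree.d 0)) ∧
      ∀ n v, Matrix.vecMul v ((davis G).toFree.d n) = 0 ↔ ∃ w, v = Matrix.vecMul w ((davis G).toFree.d (n + 1))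

/-- the homology of subgroups from the complex `davis G` -/
def FINAL : Prop := ∀ (V : Type) [Fintype V] [LinearOrder V] (G : SimpleGraph V) (K : Subgroup (W G)) (n : ℕ),
    K ≤ (th G).ker →
    (∀ v, FV K (canL : K →* NG K) (n + 1) v → mulD v = 0 → ∃ s : NG K, Nz s ∧
      ∃ e, FV K (canL : K →* NG K) (n + 2) e ∧ mulD e = fun i g => s * v i g) →
    VN831.l2Betti K (n + 1) = 0

end Pool.Agent.N496.CV
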